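import Pool.Agent.Lib.GradedFour.Basic

/-!
# Word functionals on the free Lie algebra and left-normed brackets
-/

namespace GradedTop

namespace Four

open Submodule

/-- Left-normed bracket of a reversed list of letters. -/
noncomputable def lnb (R : Type) [CommRing R] {d : ℕ} : List (Fin d) → FreeLieAlgebra R (Fin d)
  | [] => 0
  | [x] => FreeLieAlgebra.of R x
  | x :: y :: v => ⁅lnb R (y :: v), FreeLieAlgebra.of R x⁆

/-- Coefficient of the word `w` in the left-normed bracket of the reversed list. -/
def cf {d : ℕ} : List (Fin d) → List (Fin d) → ℤ
  | _, [] => 0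
  | w, [x] => if w = [x] then 1 else 0
  | w, x :: y :: v => (if w.getLast? = some x then cf w.dropLast (y :: v) else 0) -
      (if w.head? = some x then cf w.tail (y :: v) else 0)

section Co

variable (R : Type) [CommRing R] {d : ℕ}

attribute [local instance 100] LieRing.ofAssociativeRing LieAlgebra.ofAssociativeAlgebra

/-- the embedding of the free Lie algebra in the free associative algebra -/
noncomputable def emb : FreeLieAlgebra R (Fin d) →ₗ⁅R⁆ MonoidAlgebra R (FreeMonoid (Fin d)) :=
  FreeLieAlgebra.lift R (fun i => MonoidAlgebra.single (FreeMonoid.of i) 1)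

/-- the coefficient of a word -/
noncomputable def co (w : List (Fin d)) : FreeLieAlgebra R (Fin d) →ₗ[R] R where
  toFun u := (emb R u).coeff (FreeMonoid.ofList w)
  map_add' u v := by rw [map_add]; rfl
  map_smul' r u := by rw [map_smul]; rfl

lemma co_of (w : List (Fin d)) (x : Fin d) :
    co R w (FreeLieAlgebra.of R x) = if w = [x] then 1 else 0 := by
  change (emb R (FreeLieAlgebra.of R x)).coeff (FreeMonoid.ofList w) = _
  rw [emb, FreeLieAlgebra.lift_of_apply, MonoidAlgebra.coeff_single]
  by_cases h : w = [x]
  · subst h
    rw [if_pos rfl]
    exact Finsupp.single_eq_same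
  · rw [if_neg h]
    refine Finsupp.single_eq_of_ne ?_
    intro h'
    apply h
    exact congrArg FreeMonoid.toList h'

lemma co_lie (w : List (Fin d)) (u : FreeLieAlgebra R (Fin d)) (x : Fin d) :
    co R w ⁅u, FreeLieAlgebra.of R x⁆ =
      (if w.getLast? = some x then co R w.dropLast u else 0) -
      (if w.head? = some x then co R w.tail u else 0) := by
  change (emb R ⁅u, FreeLieAlgebra.of R x⁆).coeff (FreeMonoid.ofList w) = _
  have h0 : emb R (FreeLieAlgebra.of R x) = MonoidAlgebra.single (FreeMonoid.of x) 1 := by
    rw [emb, FreeLieAlgebra.lift_of_apply]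
  rw [LieHom.map_lie, h0, Ring.lie_def]
  have h1 : ((emb R u) * MonoidAlgebra.single (FreeMonoid.of x) 1).coeff (FreeMonoid.ofList w) =
      (if w.getLast? = some x then co R w.dropLast u else 0) := by
    by_cases h : w.getLast? = some x
    · rw [if_pos h]
      have hw : w = w.dropLast ++ [x] := by
        have := List.dropLast_append_getLast? x h
        exact this.symm
      rw [MonoidAlgebra.coeff_mul_single_eq_coeff_mul (FreeMonoid.ofList w.dropLast), mul_one]
      · rfl
      · intro m' _
        constructor
        · intro h'
          have h2 : FreeMonoid.toList m' ++ [x] = w.dropLast ++ [x] := by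
            rw [← hw]; exact congrArg FreeMonoid.toList h'
          exact congrArg FreeMonoid.ofList (List.append_cancel_right h2)
        · rintro rfl
          conv_rhs => rw [hw]
          rfl
    · rw [if_neg h, MonoidAlgebra.coeff_mul_single_of_forall_mul_ne]
      intro m' h'
      apply h
      have h2 : FreeMonoid.toList m' ++ [x] = w := congrArg FreeMonoid.toList h'
      rw [← h2]; simp
  have h2 : (MonoidAlgebra.single (FreeMonoid.of x) 1 * (emb R u)).coeff (FreeMonoid.ofList w) =
      (if w.head? = some x then co R w.tail u else 0) := by
    cases w with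
    | nil =>
      rw [List.head?_nil, if_neg (by simp), MonoidAlgebra.coeff_single_mul_of_forall_mul_ne]
      intro m' h'
      have h2 : x :: FreeMonoid.toList m' = [] := congrArg FreeMonoid.toList h'
      simp at h2
    | cons y w =>
      by_cases h : y = x
      · subst h
        rw [List.head?_cons, if_pos rfl,
          MonoidAlgebra.coeff_single_mul_eq_mul_coeff (FreeMonoid.ofList w), one_mul]
        · rfl
        · intro m' _
          constructor
          · intro h'
            have h2 : y :: FreeMonoid.toList m' = y :: w := congrArg FreeMonoid.toList h'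
            exact congrArg FreeMonoid.ofList (List.cons.inj h2).2
          · rintro rfl
            rfl
      · rw [List.head?_cons, if_neg (by simpa using h),
          MonoidAlgebra.coeff_single_mul_of_forall_mul_ne]
        intro m' h'
        have h2 : x :: FreeMonoid.toList m' = y :: w := congrArg FreeMonoid.toList h'
        exact h (List.cons.inj h2).1.symm
  rw [MonoidAlgebra.coeff_sub, Finsupp.sub_apply, h1, h2]

lemma co_lnb (v w : List (Fin d)) : co R w (lnb R v) = (cf w v : R) := by
  induction v generalizing w with
  | nil => simp [lnb, cf]
  | cons x v ih =>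
    cases v with
    | nil =>
      rw [lnb, cf, co_of]; split_ifs <;> simp
    | cons y v =>
      rw [lnb, cf, co_lie, ih, ih]
      split_ifs <;> simp

end Co

end Four

end GradedTop
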