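import Pool.Agent.Lib.GradedFour.LieDef

/-!
# Combinatorics of the index sets of the free nilpotent Lie ring of class four
-/

namespace GradedTop

namespace Four

/-! ### Words and multidegrees -/

private lemma digits_inj : ∀ (d : ℕ) (a b : Fin d → ℕ), (∀ i, a i < 5) → (∀ i, b i < 5) →
    ∑ i, a i * 5 ^ (i : ℕ) = ∑ i, b i * 5 ^ (i : ℕ) → a = b
  | 0, _, _, _, _, _ => Subsingleton.elim _ _
  | d + 1, a, b, ha, hb, h => by
    have key : ∀ c : Fin (d + 1) → ℕ, ∑ i, c i * 5 ^ (i : ℕ) =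
        c 0 + 5 * ∑ i : Fin d, c i.succ * 5 ^ (i : ℕ) := by
      intro c
      rw [Fin.sum_univ_succ, Finset.mul_sum]
      simp only [Fin.val_zero, pow_zero, mul_one, Fin.val_succ, pow_succ]
      congr 1
      refine Finset.sum_congr rfl fun i _ => by ring
    rw [key, key] at h
    have h1 : a 0 = b 0 := by
      have := ha 0
      have := hb 0
      omega
    have h2 : (fun i : Fin d => a i.succ) = fun i : Fin d => b i.succ := by
      refine digits_inj d _ _ (fun i => ha _) (fun i => hb _) ?_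
      rw [h1] at h
      omega
    funext i
    refine Fin.cases h1 (fun j => ?_) i
    exact congrFun h2 j

lemma wtl_eq_sum {d : ℕ} (v : List (Fin d)) : wtl v = ∑ i : Fin d, v.count i * 5 ^ (i : ℕ) := by
  induction v with
  | nil => simp [wtl]
  | cons x v ih =>
    have h1 : wtl (x :: v) = 5 ^ (x : ℕ) + wtl v := by simp [wtl]
    rw [h1, ih]
    have h2 : ∀ i : Fin d, (x :: v).count i * 5 ^ (i : ℕ) =
        v.count i * 5 ^ (i : ℕ) + (if x = i then 5 ^ (i : ℕ) else 0) := by
      intro i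
      rw [List.count_cons]
      by_cases h : x = i
      · subst h; simp; ring
      · simp [h]
    simp only [h2]
    rw [Finset.sum_add_distrib, Finset.sum_ite_eq]
    simp [add_comm]

lemma perm_of_wtl24 {d : ℕ} {v w : List (Fin d)} (hv : v.length < 5) (hw : w.length < 5)
    (h : wtl v = wtl w) : v.Perm w := by
  rw [wtl_eq_sum, wtl_eq_sum] at h
  have h1 := digits_inj d (fun i => v.count i) (fun i => w.count i)
    (fun i => lt_of_le_of_lt List.count_le_length hv)
    (fun i => lt_of_le_of_lt List.count_le_length hw) h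
  rw [List.perm_iff_count]
  intro i
  exact congrFun h1 i

lemma wtl_le {d : ℕ} (v : List (Fin d)) : wtl v ≤ v.length * 5 ^ d := by
  induction v with
  | nil => simp [wtl]
  | cons x v ih =>
    have h1 : wtl (x :: v) = 5 ^ (x : ℕ) + wtl v := by simp [wtl]
    have h2 : 5 ^ (x : ℕ) ≤ 5 ^ d := Nat.pow_le_pow_right (by norm_num) x.2.le
    rw [h1, List.length_cons]
    nlinarith

/-! ### The axioms for `lieSys` -/

lemma lt_perm {d : ℕ} {x y : MM d ⊕ TT d × Fin 2} (h : (lieSys d).w x = (lieSys d).w y) :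
    (lt x).Perm (lt y) :=
  perm_of_wtl24 (by have := lt_length x; omega) (by have := lt_length y; omega) h

lemma perm_two {d : ℕ} {a b a' b' : Fin d} (h : a < b) (h' : a' < b')
    (hp : [a, b].Perm [a', b']) : a = a' ∧ b = b' := by
  have h1 : a ∈ [a', b'] := hp.subset (by simp)
  have h2 : b ∈ [a', b'] := hp.subset (by simp)
  have h3 : a' ∈ [a, b] := hp.symm.subset (by simp)
  have h4 : b' ∈ [a, b] := hp.symm.subset (by simp)
  simp only [List.mem_cons, List.not_mem_nil, or_false] at h1 h2 h3 h4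
  omega

lemma perm_three {d : ℕ} {a b c a' b' c' : Fin d} (h : a < b) (h0 : b < c) (h' : a' < b')
    (h0' : b' < c') (hp : [a, b, c].Perm [a', b', c']) : a = a' ∧ b = b' ∧ c = c' := by
  have h1 : a ∈ [a', b', c'] := hp.subset (by simp)
  have h2 : b ∈ [a', b', c'] := hp.subset (by simp)
  have h3 : c ∈ [a', b', c'] := hp.subset (by simp)
  simp only [List.mem_cons, List.not_mem_nil, or_false] at h1 h2 h3
  omega

lemma perm_one_two {d : ℕ} {a b a' b' : Fin d} (h : a ≠ b)
    (hp : [a, b, b].Perm [a', b', b']) : a = a' ∧ b = b' := by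
  have h1 := hp.count_eq b
  have h2 := hp.count_eq a
  have e1 : [a, b, b].count b = 2 := by
    simp [h]
  have e2 : [a, b, b].count a = 1 := by
    simp [Ne.symm h]
  rw [e1] at h1
  rw [e2] at h2
  have hb : b = b' := by
    by_contra hb
    have : [a', b', b'].count b ≤ 1 := by
      simp only [List.count_cons, List.count_nil]
      have : (b' == b) = false := by simpa using Ne.symm hb
      rw [this]
      simp
      split_ifs <;> simp
    omega
  have ha : a ∈ [a', b', b'] := hp.subset (by simp)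
  simp only [List.mem_cons, List.not_mem_nil, or_false, or_self] at ha
  refine ⟨?_, hb⟩
  rcases ha with ha | ha
  · exact ha
  · exact absurd (ha.trans hb.symm) h

lemma lt_inr_perm {d : ℕ} (s : TT d) (c : Fin 2) :
    (lt (Sum.inr (s, c))).Perm [s.1.1, s.1.2.1, s.1.2.2] := by
  simp only [lt]
  split_ifs
  · exact List.Perm.refl _
  · exact (List.Perm.swap _ _ _).cons _

theorem lieSys_hM (d : ℕ) : ∀ m y, (lieSys d).w (Sum.inl m) = (lieSys d).w y → y = Sum.inl m := by
  intro m y h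
  have hp := lt_perm h
  have hl := hp.length_eq
  rcases m with i | ⟨p, hpp⟩ | ⟨p, hpp⟩
  · rcases y with (i' | ⟨p', hp'⟩ | ⟨p', hp'⟩) | ⟨s, c⟩
    · have : i ∈ [i'] := hp.subset (by simp [lt])
      simp at this
      rw [this]
    · simp [lt] at hl
    · simp [lt] at hl
    · have := (lt_inr_perm s c).length_eq
      rw [this] at hl
      simp [lt] at hl
  · rcases y with (i' | ⟨p', hp'⟩ | ⟨p', hp'⟩) | ⟨s, c⟩
    · simp [lt] at hl
    · have := perm_two hpp hp' hp
      have e : p' = p := Prod.ext this.1.symm this.2.symm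
      subst e
      rfl
    · simp [lt] at hl
    · have := (lt_inr_perm s c).length_eq
      rw [this] at hl
      simp [lt] at hl
  · rcases y with (i' | ⟨p', hp'⟩ | ⟨p', hp'⟩) | ⟨s, c⟩
    · simp [lt] at hl
    · simp [lt] at hl
    · have := perm_one_two hpp hp
      have e : p' = p := Prod.ext this.1.symm this.2.symm
      subst e
      rfl
    · exfalso
      have h1 : [p.1, p.2, p.2].Perm [s.1.1, s.1.2.1, s.1.2.2] := hp.trans (lt_inr_perm s c)
      have h2 : [s.1.1, s.1.2.1, s.1.2.2].Nodup := by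
        have := s.2.1
        have := s.2.2
        simp only [List.nodup_cons, List.mem_cons, List.not_mem_nil, or_false, not_or]
        refine ⟨⟨by omega, by omega⟩, by omega, by simp⟩
      have h3 := h1.nodup_iff.2 h2
      simp at h3

theorem lieSys_hT (d : ℕ) : ∀ s c s' c',
    (lieSys d).w (Sum.inr (s, c)) = (lieSys d).w (Sum.inr (s', c')) → s = s' := by
  intro s c s' c' h
  have hp := (lt_inr_perm s c).symm.trans ((lt_perm h).trans (lt_inr_perm s' c'))
  have := perm_three s.2.1 s.2.2 s'.2.1 s'.2.2 hp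
  exact Subtype.ext (Prod.ext this.1 (Prod.ext this.2.1 this.2.2))

theorem lieSys_hT' (d : ℕ) : ∀ s c c',
    (lieSys d).w (Sum.inr (s, c)) = (lieSys d).w (Sum.inr (s, c')) := fun s c c' =>
  wtl_perm ((lt_inr_perm s c).trans (lt_inr_perm s c').symm)

theorem lieSys_hlv1 (d : ℕ) : ∀ j x y, (lieSys d).T j x y ≠ 0 →
    (lieSys d).lv x = (lieSys d).lv y + 1 := by
  intro j x y h
  have := (cf_perm _ _ h).length_eq
  rw [List.length_cons, List.length_reverse] at this
  exact this

theorem lieSys_hlv2 (d : ℕ) : ∀ x, (lieSys d).lv x ≤ 3 := fun x => (lt_length x).2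

theorem lieSys_hlv3 (d : ℕ) : ∀ s c, (lieSys d).lv (Sum.inr (s, c)) = 3 := fun s c =>
  (lt_inr_perm s c).length_eq

theorem lieSys_hlv4 (d : ℕ) : ∀ x, 1 ≤ (lieSys d).lv x := fun x => (lt_length x).1

theorem lieSys_w_lt (d : ℕ) (x) : (lieSys d).w x < 4 * 5 ^ d + 1 := by
  have h1 := wtl_le (lt x)
  have h2 := (lt_length x).2
  have h3 : (lt x).length * 5 ^ d ≤ 3 * 5 ^ d := Nat.mul_le_mul_right _ h2
  change wtl (lt x) < _
  omega

theorem lieSys_w4_lt (d : ℕ) (x) : (lieSys d).w4 x < 4 * 5 ^ d + 1 := by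
  have h1 := wtl_le (lt4 x)
  have h2 : (lt4 x).length = 4 := rfl
  rw [h2] at h1
  change wtl (lt4 x) < _
  omega

/-! ### Cardinalities -/

lemma card_ne24 (d : ℕ) : (Fintype.card {p : Fin d × Fin d // p.1 ≠ p.2} : ℤ) = (d : ℤ) ^ 2 - d := by
  have h := Fintype.card_subtype_compl (fun p : Fin d × Fin d => p.1 = p.2)
  have h1 : Fintype.card {p : Fin d × Fin d // p.1 = p.2} = d := by
    conv_rhs => rw [← Fintype.card_fin d]
    refine Fintype.card_congr ⟨fun p => p.1.1, fun i => ⟨(i, i), rfl⟩, ?_, fun i => rfl⟩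
    rintro ⟨⟨a, b⟩, h⟩
    simp only at h
    subst h
    rfl
  have h2 : Fintype.card {p : Fin d × Fin d // ¬ p.1 = p.2} = d * d - d := by
    rw [h, h1, Fintype.card_prod, Fintype.card_fin]
  change ((Fintype.card {p : Fin d × Fin d // ¬ p.1 = p.2} : ℕ) : ℤ) = _
  rw [h2]
  have : d ≤ d * d := Nat.le_mul_self d
  push_cast [Nat.cast_sub this]
  ring

lemma card_lt24 (d : ℕ) :
    2 * (Fintype.card {p : Fin d × Fin d // p.1 < p.2} : ℤ) = (d : ℤ) ^ 2 - d := by
  have h : Fintype.card {p : Fin d × Fin d // p.1 < p.2} = Fintype.card (J2 d) := by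
    refine Fintype.card_congr ⟨fun p => ⟨(p.1.2, p.1.1), p.2⟩, fun p => ⟨(p.1.2, p.1.1), p.2⟩,
      fun p => rfl, fun p => rfl⟩
  rw [h]
  exact card_J2 d

/-- cyclic rotation of triples -/
def rot3 (X : Type) : X × X × X ≃ X × X × X where
  toFun p := (p.2.1, p.2.2, p.1)
  invFun p := (p.2.2, p.1, p.2.1)
  left_inv _ := rfl
  right_inv _ := rfl

/-- flip of triples -/
def flip3 (X : Type) : X × X × X ≃ X × X × X where
  toFun p := (p.2.1, p.1, p.2.2)
  invFun p := (p.2.1, p.1, p.2.2)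
  left_inv _ := rfl
  right_inv _ := rfl

/-- cyclic rotation of quadruples -/
def rot4 (X : Type) : X × X × X × X ≃ X × X × X × X where
  toFun p := (p.2.1, p.2.2.1, p.2.2.2, p.1)
  invFun p := (p.2.2.2, p.1, p.2.1, p.2.2.1)
  left_inv _ := rfl
  right_inv _ := rfl

/-- order type of four elements -/
lemma exists_rank {X : Type} [LinearOrder X] (a b c e : X) :
    ∃ f : X → Fin 4, ∀ x ∈ [a, b, c, e], ∀ y ∈ [a, b, c, e], (x < y ↔ f x < f y) ∧
      (x = y ↔ f x = f y) := by
  classical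
  set S : Finset X := {a, b, c, e} with hS
  have hc : S.card ≤ 4 := Finset.card_le_four
  have hlt : ∀ x ∈ S, (S.filter (· < x)).card < 4 := by
    intro x hx
    refine lt_of_lt_of_le (Finset.card_lt_card ?_) hc
    refine Finset.filter_ssubset.2 ⟨x, hx, lt_irrefl x⟩
  have hmono : ∀ x ∈ S, ∀ y ∈ S, x < y → (S.filter (· < x)).card < (S.filter (· < y)).card := by
    intro x hx y hy hxy
    refine Finset.card_lt_card ?_
    rw [Finset.ssubset_iff_of_subset (fun z hz => by
      rw [Finset.mem_filter] at hz ⊢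
      exact ⟨hz.1, hz.2.trans hxy⟩)]
    exact ⟨x, Finset.mem_filter.2 ⟨hx, hxy⟩, by simp⟩
  refine ⟨fun x => if h : (S.filter (· < x)).card < 4 then ⟨_, h⟩ else 0, ?_⟩
  intro x hx y hy
  have hx' : x ∈ S := by simpa [hS] using hx
  have hy' : y ∈ S := by simpa [hS] using hy
  simp only [dif_pos (hlt x hx'), dif_pos (hlt y hy'), Fin.lt_def, Fin.ext_iff]
  rcases lt_trichotomy x y with h | h | h
  · have := hmono x hx' y hy' h
    exact ⟨⟨fun _ => this, fun _ => h⟩, ⟨fun h' => absurd h' h.ne, fun h' => absurd h' this.ne⟩⟩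
  · subst h
    simp
  · have := hmono y hy' x hx' h
    exact ⟨⟨fun h' => absurd h' h.not_gt, fun h' => absurd h' this.not_gt⟩,
      ⟨fun h' => absurd h' h.ne', fun h' => absurd h' this.ne'⟩⟩

lemma three_id : ∀ a b c : Fin 4,
    (if a < b ∧ b < c then (1 : ℤ) else 0) + (if b < c ∧ c < a then 1 else 0) +
      (if c < a ∧ a < b then 1 else 0) + (if b < a ∧ a < c then 1 else 0) +
      (if c < b ∧ b < a then 1 else 0) + (if a < c ∧ c < b then 1 else 0) =
      1 - (if a = b then 1 else 0) - (if b = c then 1 else 0) -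
        (if c = a then 1 else 0) + 2 * (if a = b ∧ b = c then 1 else 0) := by
  decide

lemma four_id : ∀ a b c e : Fin 4,
    (if Root4 a b c e then (1 : ℤ) else 0) + (if Root4 b c e a then 1 else 0) +
      (if Root4 c e a b then 1 else 0) + (if Root4 e a b c then 1 else 0) =
      1 - (if a = c ∧ b = e then 1 else 0) := by
  decide

lemma card_TT (d : ℕ) : 6 * (Fintype.card (TT d) : ℤ) = (d : ℤ) ^ 3 - 3 * d ^ 2 + 2 * d := by
  have h1 : (Fintype.card (TT d) : ℤ) =
      ∑ p : Fin d × Fin d × Fin d, if p.1 < p.2.1 ∧ p.2.1 < p.2.2 then (1 : ℤ) else 0 := by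
    rw [Fintype.card_subtype, Finset.card_filter]
    push_cast
    rfl
  set f : Fin d × Fin d × Fin d → ℤ := fun p => if p.1 < p.2.1 ∧ p.2.1 < p.2.2 then 1 else 0
    with hf
  have h2 : ∑ p, f (rot3 _ p) = ∑ p, f p := Equiv.sum_comp (rot3 (Fin d)) f
  have h3 : ∑ p, f (rot3 _ (rot3 _ p)) = ∑ p, f p := by
    rw [← h2]
    exact Equiv.sum_comp (rot3 (Fin d)) (fun p => f (rot3 _ p))
  have h4 : ∑ p, f (flip3 _ p) = ∑ p, f p := Equiv.sum_comp (flip3 (Fin d)) f
  have h5 : ∑ p, f (flip3 _ (rot3 _ p)) = ∑ p, f p := by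
    rw [← h4]
    exact Equiv.sum_comp (rot3 (Fin d)) (fun p => f (flip3 _ p))
  have h6 : ∑ p, f (flip3 _ (rot3 _ (rot3 _ p))) = ∑ p, f p := by
    rw [← h5]
    exact Equiv.sum_comp (rot3 (Fin d)) (fun p => f (flip3 _ (rot3 _ p)))
  have h7 : ∀ p : Fin d × Fin d × Fin d, f p + f (rot3 _ p) + f (rot3 _ (rot3 _ p)) +
      f (flip3 _ p) + f (flip3 _ (rot3 _ p)) + f (flip3 _ (rot3 _ (rot3 _ p))) =
      1 - (if p.1 = p.2.1 then 1 else 0) - (if p.2.1 = p.2.2 then 1 else 0) -
        (if p.2.2 = p.1 then 1 else 0) + 2 * (if p.1 = p.2.1 ∧ p.2.1 = p.2.2 then 1 else 0) := by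
    rintro ⟨a, b, c⟩
    obtain ⟨g, hg⟩ := exists_rank a b c c
    have L : ∀ x ∈ [a, b, c, c], ∀ y ∈ [a, b, c, c], (x < y) = (g x < g y) := fun x hx y hy =>
      propext (hg x hx y hy).1
    have E : ∀ x ∈ [a, b, c, c], ∀ y ∈ [a, b, c, c], (x = y) = (g x = g y) := fun x hx y hy =>
      propext (hg x hx y hy).2
    have := three_id (g a) (g b) (g c)
    simp only [← L a (by simp) b (by simp), ← L b (by simp) c (by simp), ← L c (by simp) a (by simp),
      ← L b (by simp) a (by simp), ← L a (by simp) c (by simp), ← L c (by simp) b (by simp),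
      ← E a (by simp) b (by simp), ← E b (by simp) c (by simp), ← E c (by simp) a (by simp)] at this
    exact this
  have h8 : 6 * (∑ p, f p) = ∑ p, (f p + f (rot3 _ p) + f (rot3 _ (rot3 _ p)) +
      f (flip3 _ p) + f (flip3 _ (rot3 _ p)) + f (flip3 _ (rot3 _ (rot3 _ p)))) := by
    simp only [Finset.sum_add_distrib]
    rw [h2, h3, h4, h5, h6]
    ring
  rw [h1]
  change 6 * (∑ p, f p) = _
  rw [h8]
  simp only [h7, Finset.sum_add_distrib, Finset.sum_sub_distrib, ← Finset.mul_sum]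
  have a1 : ∑ p : Fin d × Fin d × Fin d, (if p.1 = p.2.1 then (1 : ℤ) else 0) = d * d := by
    rw [Fintype.sum_prod_type]
    refine (Finset.sum_congr rfl fun x _ => Fintype.sum_prod_type _).trans ?_
    change ∑ x : Fin d, ∑ y : Fin d, ∑ _z : Fin d, (if x = y then (1 : ℤ) else 0) = _
    simp [-Finset.sum_boole]
  have a2 : ∑ p : Fin d × Fin d × Fin d, (if p.2.1 = p.2.2 then (1 : ℤ) else 0) = d * d := by
    simp only [Fintype.sum_prod_type]
    simp [-Finset.sum_boole]
  have a3 : ∑ p : Fin d × Fin d × Fin d, (if p.2.2 = p.1 then (1 : ℤ) else 0) = d * d := by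
    simp only [Fintype.sum_prod_type]
    simp [-Finset.sum_boole]
  have a4 : ∑ p : Fin d × Fin d × Fin d, (if p.1 = p.2.1 ∧ p.2.1 = p.2.2 then (1 : ℤ) else 0) =
      d := by
    simp [Fintype.sum_prod_type, ite_and]
  have a0 : ∑ p : Fin d × Fin d × Fin d, (1 : ℤ) = d * (d * d) := by
    simp
  rw [a0, a1, a2, a3, a4]
  ring

lemma card_KK (d : ℕ) : 4 * (Fintype.card (KK d) : ℤ) = (d : ℤ) ^ 4 - (d : ℤ) ^ 2 := by
  have h1 : (Fintype.card (KK d) : ℤ) =
      ∑ p : Fin d × Fin d × Fin d × Fin d,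
        if Root4 p.1 p.2.1 p.2.2.1 p.2.2.2 then (1 : ℤ) else 0 := by
    rw [Fintype.card_subtype, Finset.card_filter]
    push_cast
    rfl
  set f : Fin d × Fin d × Fin d × Fin d → ℤ :=
    fun p => if Root4 p.1 p.2.1 p.2.2.1 p.2.2.2 then 1 else 0 with hf
  have h2 : ∑ p, f (rot4 _ p) = ∑ p, f p := Equiv.sum_comp (rot4 (Fin d)) f
  have h3 : ∑ p, f (rot4 _ (rot4 _ p)) = ∑ p, f p := by
    rw [← h2]
    exact Equiv.sum_comp (rot4 (Fin d)) (fun p => f (rot4 _ p))
  have h4 : ∑ p, f (rot4 _ (rot4 _ (rot4 _ p))) = ∑ p, f p := by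
    rw [← h3]
    exact Equiv.sum_comp (rot4 (Fin d)) (fun p => f (rot4 _ (rot4 _ p)))
  have h7 : ∀ p : Fin d × Fin d × Fin d × Fin d, f p + f (rot4 _ p) + f (rot4 _ (rot4 _ p)) +
      f (rot4 _ (rot4 _ (rot4 _ p))) =
      1 - (if p.1 = p.2.2.1 ∧ p.2.1 = p.2.2.2 then 1 else 0) := by
    rintro ⟨a, b, c, e⟩
    obtain ⟨g, hg⟩ := exists_rank a b c e
    have L : ∀ x ∈ [a, b, c, e], ∀ y ∈ [a, b, c, e], (g x < g y) = (x < y) := fun x hx y hy =>
      propext (hg x hx y hy).1.symm
    have E : ∀ x ∈ [a, b, c, e], ∀ y ∈ [a, b, c, e], (g x = g y) = (x = y) := fun x hx y hy =>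
      propext (hg x hx y hy).2.symm
    have R : ∀ x ∈ [a, b, c, e], ∀ y ∈ [a, b, c, e], ∀ z ∈ [a, b, c, e], ∀ t ∈ [a, b, c, e],
        Root4 (g x) (g y) (g z) (g t) = Root4 x y z t := by
      intro x hx y hy z hz t ht
      simp only [Root4, ne_eq, E x hx y hy, E x hx z hz, E x hx t ht, E y hy z hz, E y hy t ht,
        E z hz y hy, E z hz t ht, E t ht y hy, E t ht z hz, L x hx y hy, L x hx z hz, L x hx t ht,
        L z hz x hx]
    have := four_id (g a) (g b) (g c) (g e)
    simp only [R a (by simp) b (by simp) c (by simp) e (by simp),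
      R b (by simp) c (by simp) e (by simp) a (by simp),
      R c (by simp) e (by simp) a (by simp) b (by simp),
      R e (by simp) a (by simp) b (by simp) c (by simp), E a (by simp) c (by simp),
      E b (by simp) e (by simp)] at this
    exact this
  have h8 : 4 * (∑ p, f p) = ∑ p, (f p + f (rot4 _ p) + f (rot4 _ (rot4 _ p)) +
      f (rot4 _ (rot4 _ (rot4 _ p)))) := by
    simp only [Finset.sum_add_distrib]
    rw [h2, h3, h4]
    ring
  rw [h1]
  change 4 * (∑ p, f p) = _
  rw [h8]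
  simp only [h7, Finset.sum_sub_distrib]
  have a1 : ∑ p : Fin d × Fin d × Fin d × Fin d,
      (if p.1 = p.2.2.1 ∧ p.2.1 = p.2.2.2 then (1 : ℤ) else 0) = d * d := by
    simp [Fintype.sum_prod_type, ite_and]
  have a0 : ∑ p : Fin d × Fin d × Fin d × Fin d, (1 : ℤ) = d * (d * (d * d)) := by
    simp
  rw [a0, a1]
  ring

lemma witt_four (d : ℕ) : witt d 4 = Fintype.card (KK d) := by
  have h4 : Nat.divisors 4 = {1, 2, 4} := by decide
  rw [witt, h4, Finset.sum_insert (by decide), Finset.sum_pair (by norm_num)]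
  rw [ArithmeticFunction.moebius_apply_one, ArithmeticFunction.moebius_apply_prime Nat.prime_two]
  have h5 : ArithmeticFunction.moebius 4 = 0 := by
    apply ArithmeticFunction.moebius_eq_zero_of_not_squarefree
    intro h
    have := h 2 (by norm_num)
    simp at this
  rw [h5]
  have h := card_KK d
  norm_num
  omega

theorem rk_four (d : ℕ) : rk 4 d =
    ((Fintype.card (MM d) + 2 * Fintype.card (TT d) + Fintype.card (KK d) : ℕ) : ℤ) := by
  have h0 : Finset.Icc 1 4 = ({1, 2, 3, 4} : Finset ℕ) := by decide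
  have h1 : rk 4 d = rk 3 d + witt d 4 := by
    have : Finset.Icc 1 3 = ({1, 2, 3} : Finset ℕ) := by decide
    rw [rk, rk, h0, this]
    simp
    ring
  have h2 := card_J2 d
  have h3 := card_J3 d
  have h4 := card_TT d
  have h5 := card_ne24 d
  have h6 := card_lt24 d
  have h7 : Fintype.card (MM d) = d + (Fintype.card {p : Fin d × Fin d // p.1 < p.2} +
      Fintype.card {p : Fin d × Fin d // p.1 ≠ p.2}) := by
    rw [Fintype.card_sum, Fintype.card_sum, Fintype.card_fin]
  rw [h1, rk_three, witt_four, h7, Fintype.card_fin]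
  push_cast
  nlinarith

end Four

end GradedTop
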