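import Pool.Agent.Lib.GradedFour.Span
import Pool.Agent.Lib.GradedFour.Comb

/-!
# Bases of the homogeneous components of degree at most four
-/

namespace GradedTop

namespace Four

open Submodule

section

variable {d : ℕ}

/-- the reversed list whose left-normed bracket is the basis element of index `p` -/
def bw4 (p : KK d) : List (Fin d) :=
  if p.1.1 = p.1.2.1 then [p.1.1, p.1.2.2.1, p.1.1, p.1.2.2.1] else (lt4 p).reverse

variable (R : Type) [CommRing R]

/-- basis elements in degrees one to three -/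
noncomputable def bb (x : MM d ⊕ TT d × Fin 2) : FreeLieAlgebra R (Fin d) := lnb R (lt x).reverse

/-- basis elements in degree four -/
noncomputable def b4 (x : KK d) : FreeLieAlgebra R (Fin d) := lnb R (bw4 x)

variable {R}

/-! ### Duality -/

lemma lt_form (x : MM d ⊕ TT d × Fin 2) : ∃ r v, lt x = r :: v ∧ r ∉ v := by
  rcases x with (i | p | p) | ⟨p, c⟩
  · exact ⟨i, [], rfl, by simp⟩
  · exact ⟨p.1.1, [p.1.2], rfl, by simpa using p.2.ne⟩
  · exact ⟨p.1.1, [p.1.2, p.1.2], rfl, by simpa using p.2⟩
  · have h1 := p.2.1.ne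
    have h2 := (p.2.1.trans p.2.2).ne
    by_cases hc : c = 0
    · exact ⟨p.1.1, [p.1.2.1, p.1.2.2], by simp [lt, hc], by simp [h1, h2]⟩
    · exact ⟨p.1.1, [p.1.2.2, p.1.2.1], by simp [lt, hc], by simp [h1, h2]⟩

lemma lt_injective : Function.Injective (lt (d := d)) := by
  intro x y h
  have hl := congrArg List.length h
  rcases x with (i | p | p) | ⟨p, c⟩ <;> rcases y with (i' | p' | p') | ⟨p', c'⟩
  · simp only [lt, List.cons.injEq, and_true] at h; rw [h]
  · simp [lt] at hl
  · simp [lt] at hl
  · simp only [lt] at hl; split_ifs at hl <;> simp at hl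
  · simp [lt] at hl
  · simp only [lt, List.cons.injEq, and_true] at h
    congr 2
    exact congrArg Sum.inl (Subtype.ext (Prod.ext h.1 h.2))
  · simp [lt] at hl
  · simp only [lt] at hl; split_ifs at hl <;> simp at hl
  · simp [lt] at hl
  · simp [lt] at hl
  · simp only [lt, List.cons.injEq, and_true] at h
    congr 2
    exact congrArg Sum.inr (Subtype.ext (Prod.ext h.1 h.2.1))
  · exfalso
    have h1 := p'.2.2.ne
    simp only [lt] at h
    split_ifs at h <;> simp only [List.cons.injEq, and_true] at h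
    · exact h1 (h.2.1.symm.trans h.2.2)
    · exact h1 (h.2.2.symm.trans h.2.1)
  · simp only [lt] at hl; split_ifs at hl <;> simp at hl
  · simp only [lt] at hl; split_ifs at hl <;> simp at hl
  · exfalso
    have h1 := p.2.2.ne
    simp only [lt] at h
    split_ifs at h <;> simp only [List.cons.injEq, and_true] at h
    · exact h1 (h.2.1.trans h.2.2.symm)
    · exact h1 (h.2.2.trans h.2.1.symm)
  · have h1 := p.2.2
    have h2 := p'.2.2
    simp only [lt] at h
    split_ifs at h with hc hc' hc' <;> simp only [List.cons.injEq, and_true] at h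
    · rw [hc, hc']
      congr 2
      exact Subtype.ext (Prod.ext h.1 (Prod.ext h.2.1 h.2.2))
    · exfalso
      rw [h.2.1, h.2.2] at h1
      exact absurd h1 (not_lt.2 h2.le)
    · exfalso
      rw [h.2.1, h.2.2] at h1
      exact absurd h1 (not_lt.2 h2.le)
    · have e1 : c = 1 := by omega
      have e2 : c' = 1 := by omega
      rw [e1, e2]
      congr 2
      exact Subtype.ext (Prod.ext h.1 (Prod.ext h.2.2 h.2.1))

lemma lt_head_of_perm (x y : MM d ⊕ TT d × Fin 2) (h : (lt x).Perm (lt y)) :
    (lt x).head? = (lt y).head? := by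
  have hw : (lieSys d).w x = (lieSys d).w y := wtl_perm h
  rcases x with m | ⟨p, c⟩
  · rw [lieSys_hM d m y hw]
  · rcases y with m' | ⟨p', c'⟩
    · rw [lieSys_hM d m' _ hw.symm]
    · have := lieSys_hT d p c p' c' hw
      subst this
      simp only [lt]
      split_ifs <;> rfl

lemma cf_dual (x y : MM d ⊕ TT d × Fin 2) :
    cf (lt x) (lt y).reverse = if x = y then 1 else 0 := by
  obtain ⟨r, v, hv, hr⟩ := lt_form x
  obtain ⟨r', v', hv', hr'⟩ := lt_form y
  by_cases h : r = r'
  · subst h
    rw [hv, hv', List.reverse_cons, cf_root r v'.reverse v (by simpa using hr'),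
      List.reverse_reverse]
    by_cases hxy : x = y
    · subst hxy
      rw [hv] at hv'
      rw [if_pos (List.cons.inj hv').2, if_pos rfl]
    · rw [if_neg hxy, if_neg]
      rintro rfl
      exact hxy (lt_injective (hv.trans hv'.symm))
  · have hxy : x ≠ y := by
      rintro rfl
      rw [hv] at hv'
      exact h (List.cons.inj hv').1
    rw [if_neg hxy]
    by_contra hne
    have hp := (cf_perm _ _ hne).trans (List.reverse_perm _)
    have := lt_head_of_perm x y hp
    rw [hv, hv'] at this
    exact h (by simpa using this)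

/-- first alternative of `Root4` -/
def RootA (a b c e : Fin d) : Prop :=
  a ≠ b ∧ a ≠ c ∧ a ≠ e ∧ (b ≠ c → b ≠ e → a < b) ∧ (c ≠ b → c ≠ e → a < c) ∧
    (e ≠ b → e ≠ c → a < e)

lemma RootA_iff (a b c e : Fin d) : RootA a b c e ↔
    [a, b, c, e].count a = 1 ∧ ∀ z ∈ [a, b, c, e], [a, b, c, e].count z = 1 → a ≤ z := by
  constructor
  · rintro ⟨h1, h2, h3, h4, h5, h6⟩
    refine ⟨by simp [h1.symm, h2.symm, h3.symm], ?_⟩
    intro z hz hc
    simp only [List.mem_cons, List.not_mem_nil, or_false] at hz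
    rcases hz with rfl | rfl | rfl | rfl
    · exact le_rfl
    · refine (h4 ?_ ?_).le
      · rintro rfl; simp [List.count_cons] at hc; split_ifs at hc <;> omega
      · rintro rfl; simp [List.count_cons] at hc; split_ifs at hc <;> omega
    · refine (h5 ?_ ?_).le
      · rintro rfl; simp [List.count_cons] at hc; split_ifs at hc <;> omega
      · rintro rfl; simp [List.count_cons] at hc; split_ifs at hc <;> omega
    · refine (h6 ?_ ?_).le
      · rintro rfl; simp [List.count_cons] at hc; split_ifs at hc <;> omega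
      · rintro rfl; simp [List.count_cons] at hc; split_ifs at hc <;> omega
  · rintro ⟨h1, h2⟩
    have ha1 : a ≠ b := by rintro rfl; simp [List.count_cons] at h1
    have ha2 : a ≠ c := by rintro rfl; simp [List.count_cons] at h1
    have ha3 : a ≠ e := by rintro rfl; simp [List.count_cons] at h1
    refine ⟨ha1, ha2, ha3, ?_, ?_, ?_⟩
    · intro h3 h4
      refine lt_of_le_of_ne (h2 b (by simp) ?_) ha1
      simp [ha1, h3.symm, h4.symm]
    · intro h3 h4
      refine lt_of_le_of_ne (h2 c (by simp) ?_) ha2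
      simp [ha2, h3.symm, h4.symm]
    · intro h3 h4
      refine lt_of_le_of_ne (h2 e (by simp) ?_) ha3
      simp [ha3, h3.symm, h4.symm]

lemma RootA_head (a b c e a' b' c' e' : Fin d) (h : RootA a b c e) (h' : RootA a' b' c' e')
    (hp : [a, b, c, e].Perm [a', b', c', e']) : a = a' := by
  rw [RootA_iff] at h h'
  apply le_antisymm
  · refine h.2 a' (hp.mem_iff.2 (by simp)) ?_
    rw [hp.count_eq]; exact h'.1
  · refine h'.2 a (hp.mem_iff.1 (by simp)) ?_
    rw [← hp.count_eq]; exact h.1

lemma cf_dual4 (x y : KK d) : cf (lt4 x) (bw4 y) = if x = y then 1 else 0 := by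
  obtain ⟨⟨a, b, c, e⟩, h⟩ := x
  obtain ⟨⟨a', b', c', e'⟩, h'⟩ := y
  simp only at h h'
  rcases h with h | h <;> rcases h' with h' | h'
  · have h1 : bw4 (⟨(a', b', c', e'), Or.inl h'⟩ : KK d) = [e', c', b'] ++ [a'] := by
      simp [bw4, lt4, h'.1]
    rw [h1]
    by_cases haa : a = a'
    · subst haa
      have h2 : lt4 (⟨(a, b, c, e), Or.inl h⟩ : KK d) = a :: [b, c, e] := rfl
      rw [h2, cf_root a [e', c', b'] [b, c, e] (by simp [h'.1, h'.2.1, h'.2.2.1])]
      simp [Subtype.ext_iff, Prod.ext_iff]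
    · have h2 : ((⟨(a, b, c, e), Or.inl h⟩ : KK d)) ≠ ⟨(a', b', c', e'), Or.inl h'⟩ := by
        intro h3
        exact haa (congrArg (fun z : KK d => z.1.1) h3)
      rw [if_neg h2]
      by_contra hne
      have hp := (cf_perm _ _ hne)
      have hp2 : [a, b, c, e].Perm [a', b', c', e'] :=
        hp.trans (List.reverse_perm [a', b', c', e'])
      exact haa (RootA_head _ _ _ _ _ _ _ _ h h' hp2)
  · obtain ⟨rfl, rfl, h'⟩ := h'
    have h2 : ((⟨(a, b, c, e), Or.inl h⟩ : KK d)) ≠ ⟨(a', a', c', c'), Or.inr ⟨rfl, rfl, h'⟩⟩ := by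
      intro h3
      have e1 := congrArg (fun z : KK d => z.1.1) h3
      have e2 := congrArg (fun z : KK d => z.1.2.1) h3
      exact h.1 (e1.trans e2.symm)
    rw [if_neg h2]
    by_contra hne
    have hp := (cf_perm _ _ hne)
    have h3 : bw4 (⟨(a', a', c', c'), Or.inr ⟨rfl, rfl, h'⟩⟩ : KK d) = [a', c', a', c'] := by
      simp [bw4]
    rw [h3] at hp
    have h4 := ((RootA_iff _ _ _ _).1 h).1
    have h5 := hp.count_eq a
    have h6 : (lt4 (⟨(a, b, c, e), Or.inl h⟩ : KK d)).count a = 1 := h4
    rw [h6] at h5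
    simp only [List.count_cons, List.count_nil] at h5
    split_ifs at h5 <;> omega
  · obtain ⟨rfl, rfl, h⟩ := h
    have h2 : ((⟨(a, a, c, c), Or.inr ⟨rfl, rfl, h⟩⟩ : KK d)) ≠ ⟨(a', b', c', e'), Or.inl h'⟩ := by
      intro h3
      have e1 := congrArg (fun z : KK d => z.1.1) h3
      have e2 := congrArg (fun z : KK d => z.1.2.1) h3
      exact h'.1 (e1.symm.trans e2)
    rw [if_neg h2]
    by_contra hne
    have hp := (cf_perm _ _ hne)
    have h3 : bw4 (⟨(a', b', c', e'), Or.inl h'⟩ : KK d) = [e', c', b', a'] := by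
      simp [bw4, lt4, h'.1]
    rw [h3] at hp
    have hp2 : [a, a, c, c].Perm [a', b', c', e'] := hp.trans (List.reverse_perm [a', b', c', e'])
    have h4 := ((RootA_iff _ _ _ _).1 h').1
    rw [← hp2.count_eq] at h4
    simp only [List.count_cons, List.count_nil] at h4
    split_ifs at h4 <;> omega
  · obtain ⟨rfl, rfl, h⟩ := h
    obtain ⟨rfl, rfl, h'⟩ := h'
    have h3 : bw4 (⟨(a', a', c', c'), Or.inr ⟨rfl, rfl, h'⟩⟩ : KK d) = [a', c', a', c'] := by
      simp [bw4]
    rw [h3]
    by_cases hac : a = a' ∧ c = c'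
    · obtain ⟨rfl, rfl⟩ := hac
      rw [if_pos rfl]
      have h4 : c ≠ a := h.ne
      simp [lt4, cf, h4, h4.symm]
    · have h2 : ((⟨(a, a, c, c), Or.inr ⟨rfl, rfl, h⟩⟩ : KK d)) ≠
          ⟨(a', a', c', c'), Or.inr ⟨rfl, rfl, h'⟩⟩ := by
        intro h3
        exact hac ⟨congrArg (fun z : KK d => z.1.1) h3, congrArg (fun z : KK d => z.1.2.2.1) h3⟩
      rw [if_neg h2]
      by_contra hne
      have hp := (cf_perm _ _ hne)
      have hp2 : [a, a, c, c].Perm [a', c', a', c'] := hp
      have m1 : a ∈ [a', c', a', c'] := hp2.mem_iff.1 (by simp)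
      have m2 : c ∈ [a', c', a', c'] := hp2.mem_iff.1 (by simp)
      simp only [List.mem_cons, List.not_mem_nil, or_false] at m1 m2
      have k1 : a = a' ∨ a = c' := by
        rcases m1 with h | h | h | h
        · exact Or.inl h
        · exact Or.inr h
        · exact Or.inl h
        · exact Or.inr h
      have k2 : c = a' ∨ c = c' := by
        rcases m2 with h | h | h | h
        · exact Or.inl h
        · exact Or.inr h
        · exact Or.inl h
        · exact Or.inr h
      rcases k1 with rfl | rfl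
      · rcases k2 with rfl | rfl
        · exact absurd h (lt_irrefl _)
        · exact hac ⟨rfl, rfl⟩
      · rcases k2 with rfl | rfl
        · exact absurd h (not_lt.2 h'.le)
        · exact absurd h (lt_irrefl _)

end

end Four

end GradedTop
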