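import Pool.Agent.Lib.GradedTop.Final

/-!
# Graded systems for class four: basic definitions
-/

namespace GradedTop

namespace Four

open IsLocalRing Submodule Module

/-- The linear map given by an integer matrix, over any commutative ring. -/
noncomputable def tl (A : Type) [CommRing A] {I J : Type} [Fintype I] (M : Matrix J I ℤ) :
    (I → A) →ₗ[A] (J → A) := (M.map (Int.cast : ℤ → A)).mulVecLin

lemma tl_apply {A : Type} [CommRing A] {I J : Type} [Fintype I] (M : Matrix J I ℤ)
    (v : I → A) (x : J) : tl A M v x = ∑ y, (M x y : A) * v y := rfl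

/-- The part of `v` on which `f` takes the value `c`. -/
def cut {A I : Type} [Zero A] (f : I → ℕ) (c : ℕ) (v : I → A) : I → A :=
  fun x => if f x = c then v x else 0

/-- `N` is homogeneous with respect to the grading `f`. -/
def Hmg {A : Type} [CommRing A] {I : Type} (f : I → ℕ) (N : Submodule A (I → A)) : Prop :=
  ∀ v ∈ N, ∀ c, cut f c v ∈ N

/-- A graded system with integer structure constants: `J` indexes the lower degrees (`lv` is the
degree), `K` the top degree, `T j` and `T4 j` are the brackets with `x_j`, and `w`, `w4`, `w0` are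
multidegrees encoded as natural numbers. -/
structure Sys4 (d : ℕ) (J K : Type) where
  T : Fin d → Matrix J J ℤ
  T4 : Fin d → Matrix K J ℤ
  lv : J → ℕ
  w0 : Fin d → ℕ
  w : J → ℕ
  w4 : K → ℕ
  hT : ∀ j x y, T j x y ≠ 0 → w x = w y + w0 j
  hT4 : ∀ j x y, T4 j x y ≠ 0 → w4 x = w y + w0 j
  hlv : ∀ x y, w x = w y → lv x = lv y

variable {d : ℕ} {J K : Type} [Fintype J] [Fintype K]

/-- Pairs of lattices over a ring `A` forming a graded ideal of index `n`. -/
def Sys4.P (S : Sys4 d J K) (A : Type) [CommRing A] (n : ℕ)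
    (N : Submodule A (J → A) × Submodule A (K → A)) : Prop :=
  Hmg S.lv N.1 ∧ (∀ j, N.1.map (tl A (S.T j)) ≤ N.1) ∧ (∀ j, N.1.map (tl A (S.T4 j)) ≤ N.2) ∧
    cardQuot N.1 * cardQuot N.2 = n

/-- The shift `X` on `(F[X]/X^e)^I`. -/
def sh (F : Type) [Field F] (e : ℕ) (I : Type) : (Fin e × I → F) →ₗ[F] (Fin e × I → F) where
  toFun v p := if h : (p.1 : ℕ) = 0 then 0 else v (⟨(p.1 : ℕ) - 1, by omega⟩, p.2)
  map_add' v v' := by funext p; by_cases h : (p.1 : ℕ) = 0 <;> simp [h]
  map_smul' r v := by funext p; by_cases h : (p.1 : ℕ) = 0 <;> simp [h]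

/-- The levelwise action of an integer matrix on `(F[X]/X^e)^I`. -/
noncomputable def lw (F : Type) [Field F] (e : ℕ) {I I' : Type} [Fintype I] (M : Matrix I' I ℤ) :
    (Fin e × I → F) →ₗ[F] (Fin e × I' → F) where
  toFun v p := tl F M (fun y => v (p.1, y)) p.2
  map_add' v v' := by
    funext p
    have : (fun y => (v + v') (p.1, y)) = (fun y => v (p.1, y)) + fun y => v' (p.1, y) := rfl
    rw [this, map_add]; rfl
  map_smul' r v := by
    funext p
    have : (fun y => (r • v) (p.1, y)) = r • fun y => v (p.1, y) := rfl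
    rw [this, map_smul]; rfl

/-- Pairs of subspaces of `(F[X]/X^e)^J`, `(F[X]/X^e)^K` forming a graded ideal of codimension
`k`. -/
structure Sys4.PF (S : Sys4 d J K) (F : Type) [Field F] (e k : ℕ)
    (V : Submodule F (Fin e × J → F) × Submodule F (Fin e × K → F)) : Prop where
  hom : Hmg (fun p : Fin e × J => S.lv p.2) V.1
  sh1 : V.1.map (sh F e J) ≤ V.1
  sh2 : V.2.map (sh F e K) ≤ V.2
  t : ∀ j, V.1.map (lw F e (S.T j)) ≤ V.1
  t4 : ∀ j, V.1.map (lw F e (S.T4 j)) ≤ V.2
  card : finrank F ((Fin e × J → F) ⧸ V.1) + finrank F ((Fin e × K → F) ⧸ V.2) = k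

/-- The total codimension of a sequence of subspaces. -/
noncomputable def codim {F : Type} [Field F] {e : ℕ} {I : Type}
    (G : Fin e → Submodule F (I → F)) : ℕ := ∑ n, finrank F ((I → F) ⧸ G n)

/-- Filtrations by multigraded ideals of total codimension `k` (no homogeneity in top degree). -/
structure Sys4.PG (S : Sys4 d J K) (F : Type) [Field F] (e k : ℕ)
    (G : (Fin e → Submodule F (J → F)) × (Fin e → Submodule F (K → F))) : Prop where
  mono1 : Monotone G.1
  mono2 : Monotone G.2
  hom : ∀ n, Hmg S.w (G.1 n)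
  t : ∀ n j, (G.1 n).map (tl F (S.T j)) ≤ G.1 n
  t4 : ∀ n j, (G.1 n).map (tl F (S.T4 j)) ≤ G.2 n
  card : codim G.1 + codim G.2 = k

/-- Lines in the plane. -/
abbrev Ln (F : Type) [Field F] : Type := {H : Submodule F (Fin 2 → F) // finrank F H = 1}

/-- The filtration of the plane with jumps at `a ≤ b` and line `H` in between. -/
noncomputable def seg {F : Type} [Field F] (a b : ℕ) (H : Submodule F (Fin 2 → F)) (n : ℕ) :
    Submodule F (Fin 2 → F) := if n < a then ⊥ else if n < b then H else ⊤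

variable {M T : Type}

/-- The `n`-th subspace of the multigraded filtration with data `E, ab, l`. -/
noncomputable def Fil {F : Type} [Field F] (E : M → ℕ) (ab : T → ℕ × ℕ) (l : T → Ln F) (n : ℕ) :
    Submodule F (M ⊕ T × Fin 2 → F) where
  carrier := {v | (∀ m, n < E m → v (Sum.inl m) = 0) ∧
    ∀ s, (fun c => v (Sum.inr (s, c))) ∈ seg (ab s).1 (ab s).2 (l s).1 n}
  add_mem' := by
    rintro v v' ⟨h1, h2⟩ ⟨h1', h2'⟩
    refine ⟨fun m hm => by rw [Pi.add_apply, h1 m hm, h1' m hm, add_zero], fun s => ?_⟩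
    exact Submodule.add_mem _ (h2 s) (h2' s)
  zero_mem' := ⟨fun _ _ => rfl, fun _ => Submodule.zero_mem _⟩
  smul_mem' := by
    rintro r v ⟨h1, h2⟩
    refine ⟨fun m hm => by rw [Pi.smul_apply, h1 m hm, smul_zero], fun s => ?_⟩
    exact Submodule.smul_mem _ r (h2 s)

end Four

end GradedTop
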