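import Pool.Agent.Lib.GradedFour.Basic

/-!
# Blocks in top degree: definitions
-/

namespace GradedTop

namespace Four

open Submodule Module

variable {d : ℕ} {K : Type} [Fintype K]

/-- projection to a block -/
def cutL (F : Type) [Field F] (w : K → ℕ) (b : ℕ) : (K → F) →ₗ[F] (K → F) where
  toFun v := cut w b v
  map_add' v v' := by funext x; simp only [cut, Pi.add_apply]; split_ifs <;> simp
  map_smul' r v := by funext x; simp only [cut, Pi.smul_apply]; split_ifs <;> simp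

variable {M T : Type}

/-- the bracket with `x_j` on the plane `s` -/
noncomputable def phi (F : Type) [Field F] (S : Sys4 d (M ⊕ T × Fin 2) K) (j : Fin d) (s : T) :
    (Fin 2 → F) →ₗ[F] (K → F) :=
  tl F (fun x c => S.T4 j x (Sum.inr (s, c)) : Matrix K (Fin 2) ℤ)

/-- block of type A: at most one pair `(s, j)` contributes -/
def BlkA (F : Type) [Field F] (S : Sys4 d (M ⊕ T × Fin 2) K) (b : ℕ) : Prop :=
  ∀ s j s' j', cutL F S.w4 b ∘ₗ phi F S j s ≠ 0 → cutL F S.w4 b ∘ₗ phi F S j' s' ≠ 0 →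
    s = s' ∧ j = j'

/-- block of type B: four planes with a common plane of relations -/
def BlkB (F : Type) [Field F] (S : Sys4 d (M ⊕ T × Fin 2) K) (b : ℕ) : Prop :=
  (∀ m j x, S.w4 x = b → S.T4 j x (Sum.inl m) = 0) ∧
  ∃ (σ : Fin 4 → T) (τ : Fin 4 → Fin d) (κ : Fin 4 → (Fin 2 → F) ≃ₗ[F] (Fin 2 → F)),
    Function.Injective σ ∧
    (∀ s j, cutL F S.w4 b ∘ₗ phi F S j s ≠ 0 → ∃ t, s = σ t ∧ j = τ t) ∧
    ∀ v : Fin 4 → Fin 2 → F, (∑ t, cutL F S.w4 b (phi F S (τ t) (σ t) (v t)) = 0 ↔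
      ∃ y, ∀ t, v t = κ t y)

end Four

end GradedTop
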