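import Pool.Agent.Lib.GradedFour.Elim
import Pool.Agent.Lib.GradedFour.BlockDef

/-!
# Rank conditions of a block are closed conditions
-/

namespace GradedTop
namespace Four

open Submodule Module

section H

variable {d : ℕ} {K : Type} [Fintype K]
variable {F : Type} [Field F] {M T : Type} [Fintype M] [Fintype T]

lemma IsCl.congr {T : Type} {Z Z' : Set (T → Ln F)} (h : IsCl Z) (hZ : ∀ l, l ∈ Z' ↔ l ∈ Z) :
    IsCl Z' := by
  have : Z' = Z := Set.ext hZ
  rw [this]; exact h

/-! ### Decomposition of the filtration -/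

/-- embedding of the coordinates of the first kind -/
def embM (F : Type) [Field F] (M T : Type) : (M → F) →ₗ[F] (M ⊕ T × Fin 2 → F) where
  toFun v := Sum.elim v 0
  map_add' v v' := by funext x; cases x <;> simp
  map_smul' r v := by funext x; cases x <;> simp

open Classical in
/-- embedding of the plane `s` -/
noncomputable def embT (F : Type) [Field F] (M : Type) {T : Type} (s : T) :
    (Fin 2 → F) →ₗ[F] (M ⊕ T × Fin 2 → F) where
  toFun v := Sum.elim 0 (fun p => if p.1 = s then v p.2 else 0)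
  map_add' v v' := by
    funext x
    rcases x with x | ⟨x, c⟩
    · simp
    · by_cases h : x = s <;> simp [h]
  map_smul' r v := by
    funext x
    rcases x with x | ⟨x, c⟩
    · simp
    · by_cases h : x = s <;> simp [h]

/-- the part of the filtration of the first kind -/
def filM {F : Type} [Field F] {M : Type} (E : M → ℕ) (n : ℕ) : Submodule F (M → F) where
  carrier := {v | ∀ m, n < E m → v m = 0}
  add_mem' := by
    intro v v' h h' m hm
    rw [Pi.add_apply, h m hm, h' m hm, add_zero]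
  zero_mem' := fun _ _ => rfl
  smul_mem' := by
    intro r v h m hm
    rw [Pi.smul_apply, h m hm, smul_zero]

omit [Fintype M] in
lemma Fil_eq (E : M → ℕ) (ab : T → ℕ × ℕ) (l : T → Ln F) (n : ℕ) :
    Fil E ab l n = (filM E n).map (embM F M T) ⊔
      ⨆ s, (seg (ab s).1 (ab s).2 (l s).1 n).map (embT F M s) := by
  classical
  apply le_antisymm
  · rintro v ⟨h1, h2⟩
    have hv : v = embM F M T (fun m => v (Sum.inl m)) +
        ∑ s, embT F M s (fun c => v (Sum.inr (s, c))) := by
      funext x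
      rw [Pi.add_apply, Finset.sum_apply]
      rcases x with x | ⟨x, c⟩
      · simp [embM, embT]
      · simp [embM, embT]
    rw [hv]
    refine Submodule.add_mem_sup ?_ ?_
    · exact Submodule.mem_map_of_mem (p := filM E n) (fun m hm => h1 m hm)
    · refine Submodule.sum_mem _ fun s _ => ?_
      exact Submodule.mem_iSup_of_mem s (Submodule.mem_map_of_mem (h2 s))
  · apply sup_le
    · rintro _ ⟨v, hv, rfl⟩
      refine ⟨fun m hm => hv m hm, fun s => ?_⟩
      exact Submodule.zero_mem _
    · apply iSup_le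
      rintro s _ ⟨v, hv, rfl⟩
      refine ⟨fun m hm => rfl, fun s' => ?_⟩
      by_cases h : s' = s
      · subst h
        have : (fun c => (embT F M s') v (Sum.inr (s', c))) = v := by
          funext c; simp [embT]
        rw [this]; exact hv
      · have : (fun c => (embT F M s) v (Sum.inr (s', c))) = 0 := by
          funext c; simp [embT, h]
        rw [this]; exact Submodule.zero_mem _

lemma phi_apply (S : Sys4 d (M ⊕ T × Fin 2) K) (j : Fin d) (s : T) (v : Fin 2 → F) (x : K) :
    phi F S j s v x = ∑ c, (S.T4 j x (Sum.inr (s, c)) : F) * v c := rfl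

lemma tl_embT (S : Sys4 d (M ⊕ T × Fin 2) K) (j : Fin d) (s : T) :
    tl F (S.T4 j) ∘ₗ embT F M s = phi F S j s := by
  classical
  refine LinearMap.ext fun v => funext fun x => ?_
  rw [LinearMap.comp_apply, phi_apply, tl_apply, Fintype.sum_sum_type, Fintype.sum_prod_type]
  simp [embT]

lemma block_eq (S : Sys4 d (M ⊕ T × Fin 2) K) (b : ℕ) (E : M → ℕ) (ab : T → ℕ × ℕ)
    (l : T → Ln F) (n : ℕ) :
    (⨆ j, (Fil E ab l n).map (tl F (S.T4 j))).map (cutL F S.w4 b) =
      (⨆ j, (filM E n).map (cutL F S.w4 b ∘ₗ tl F (S.T4 j) ∘ₗ embM F M T)) ⊔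
      ⨆ j, ⨆ s, (seg (ab s).1 (ab s).2 (l s).1 n).map (cutL F S.w4 b ∘ₗ phi F S j s) := by
  rw [Submodule.map_iSup, ← iSup_sup_eq]
  congr 1
  funext j
  rw [Fil_eq, Submodule.map_sup, Submodule.map_sup, Submodule.map_iSup, Submodule.map_iSup]
  congr 1
  · rw [← Submodule.map_comp, ← Submodule.map_comp]; rfl
  · congr 1
    funext s
    rw [← tl_embT, ← Submodule.map_comp, ← Submodule.map_comp]; rfl

lemma seg_bot {a b n : ℕ} (H : Submodule F (Fin 2 → F)) (h : n < a) : seg a b H n = ⊥ := by
  unfold seg; rw [if_pos h]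

lemma seg_mid {a b n : ℕ} (H : Submodule F (Fin 2 → F)) (h : ¬ n < a) (h' : n < b) :
    seg a b H n = H := by
  unfold seg; rw [if_neg h, if_pos h']

lemma seg_top {a b n : ℕ} (H : Submodule F (Fin 2 → F)) (h : ¬ n < a) (h' : ¬ n < b) :
    seg a b H n = ⊤ := by
  unfold seg; rw [if_neg h, if_neg h']

/-! ### Type A -/

omit [Fintype T] in
lemma sup_line_closed [Finite F] (P : Submodule F (K → F)) (f : (Fin 2 → F) →ₗ[F] (K → F))
    (s : T) (r : ℕ) : IsCl {l : T → Ln F | finrank F ((P ⊔ (l s).1.map f : Submodule F (K → F))) ≤ r} := by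
  rcases lt_trichotomy r (finrank F P) with h | h | h
  · refine (IsCl.const False).congr fun l => ?_
    simp only [Set.mem_ofPred_eq, iff_false, not_le]
    exact lt_of_lt_of_le h (Submodule.finrank_mono le_sup_left)
  · refine (IsCl.le s (P.comap f)).congr fun l => ?_
    simp only [Set.mem_ofPred_eq]
    rw [← Submodule.map_le_iff_le_comap, h]
    constructor
    · intro h1
      have := Submodule.eq_of_le_of_finrank_le (le_sup_left : P ≤ P ⊔ (l s).1.map f) h1
      rw [this]; exact le_sup_right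
    · intro h1
      rw [sup_eq_left.2 h1]
  · refine (IsCl.const True).congr fun l => ?_
    simp only [Set.mem_ofPred_eq, iff_true]
    have h1 := Submodule.finrank_add_le_finrank_add_finrank P ((l s).1.map f)
    have h2 := Submodule.finrank_map_le f (l s).1
    rw [(l s).2] at h2
    omega

lemma blockA_closed [Finite F] (S : Sys4 d (M ⊕ T × Fin 2) K) (b : ℕ)
    (hb : BlkA F S b) (E : M → ℕ) (ab : T → ℕ × ℕ) (n r : ℕ) :
    IsCl {l : T → Ln F | finrank F ((⨆ j, (Fil E ab l n).map (tl F (S.T4 j))).map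
      (cutL F S.w4 b)) ≤ r} := by
  set P : Submodule F (K → F) :=
    ⨆ j, (filM E n).map (cutL F S.w4 b ∘ₗ tl F (S.T4 j) ∘ₗ embM F M T) with hP
  by_cases hex : ∃ s j, cutL F S.w4 b ∘ₗ phi F S j s ≠ 0
  · obtain ⟨s, j, hsj⟩ := hex
    have key : ∀ l : T → Ln F, (⨆ j, (Fil E ab l n).map (tl F (S.T4 j))).map (cutL F S.w4 b) =
        P ⊔ (seg (ab s).1 (ab s).2 (l s).1 n).map (cutL F S.w4 b ∘ₗ phi F S j s) := by
      intro l
      rw [block_eq, ← hP]
      congr 1
      apply le_antisymm
      · apply iSup_le; intro j'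
        apply iSup_le; intro s'
        by_cases h : cutL F S.w4 b ∘ₗ phi F S j' s' = 0
        · rw [h, Submodule.map_zero]; exact bot_le
        · obtain ⟨rfl, rfl⟩ := hb s j s' j' hsj h
          exact le_rfl
      · exact le_iSup₂_of_le j s le_rfl
    by_cases h1 : n < (ab s).1
    · refine (IsCl.const (finrank F ((P ⊔ (⊥ : Submodule F (Fin 2 → F)).map
        (cutL F S.w4 b ∘ₗ phi F S j s) : Submodule F (K → F))) ≤ r)).congr fun l => ?_
      simp only [Set.mem_ofPred_eq]
      rw [key l, seg_bot _ h1]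
    · by_cases h2 : n < (ab s).2
      · refine (sup_line_closed P (cutL F S.w4 b ∘ₗ phi F S j s) s r).congr fun l => ?_
        simp only [Set.mem_ofPred_eq]
        rw [key l, seg_mid _ h1 h2]
      · refine (IsCl.const (finrank F ((P ⊔ (⊤ : Submodule F (Fin 2 → F)).map
          (cutL F S.w4 b ∘ₗ phi F S j s) : Submodule F (K → F))) ≤ r)).congr fun l => ?_
        simp only [Set.mem_ofPred_eq]
        rw [key l, seg_top _ h1 h2]
  · push Not at hex
    refine (IsCl.const (finrank F P ≤ r)).congr fun l => ?_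
    simp only [Set.mem_ofPred_eq]
    rw [block_eq, ← hP]
    have : (⨆ j, ⨆ s, (seg (ab s).1 (ab s).2 (l s).1 n).map (cutL F S.w4 b ∘ₗ phi F S j s)) = ⊥ := by
      rw [eq_bot_iff]
      apply iSup_le; intro j'
      apply iSup_le; intro s'
      rw [hex s' j', Submodule.map_zero]
    rw [this, sup_bot_eq]

/-! ### Type B -/

lemma rank_formula {V : Type} [AddCommGroup V] [Module F V]
    (f : Fin 4 → (Fin 2 → F) →ₗ[F] V) (κ : Fin 4 → (Fin 2 → F) ≃ₗ[F] (Fin 2 → F))
    (hκ : ∀ v : Fin 4 → Fin 2 → F, (∑ t, f t (v t) = 0 ↔ ∃ y, ∀ t, v t = κ t y))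
    (G : Fin 4 → Submodule F (Fin 2 → F)) :
    finrank F ((⨆ t, (G t).map (f t) : Submodule F V)) +
      finrank F ((⨅ t, (G t).comap (κ t : (Fin 2 → F) →ₗ[F] (Fin 2 → F)) :
        Submodule F (Fin 2 → F))) = ∑ t, finrank F (G t) := by
  classical
  let Φ : (∀ t, G t) →ₗ[F] V := ∑ t, f t ∘ₗ (G t).subtype ∘ₗ LinearMap.proj t
  have hΦ : ∀ x, Φ x = ∑ t, f t (x t) := by
    intro x; simp [Φ]
  have h1 : LinearMap.range Φ = ⨆ t, (G t).map (f t) := by
    apply le_antisymm
    · rintro _ ⟨x, rfl⟩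
      rw [hΦ]
      exact Submodule.sum_mem _ fun t _ =>
        Submodule.mem_iSup_of_mem t (Submodule.mem_map_of_mem (x t).2)
    · apply iSup_le
      rintro t _ ⟨x, hx, rfl⟩
      refine ⟨Pi.single t ⟨x, hx⟩, ?_⟩
      rw [hΦ, Finset.sum_eq_single t]
      · simp
      · intro t' _ ht'
        rw [Pi.single_eq_of_ne ht']; simp
      · simp
  let Ψ : ((⨅ t, (G t).comap (κ t : (Fin 2 → F) →ₗ[F] (Fin 2 → F)) :
        Submodule F (Fin 2 → F))) →ₗ[F] LinearMap.ker Φ :=
    { toFun := fun y => ⟨fun t => ⟨κ t y.1, (Submodule.mem_iInf _).1 y.2 t⟩, by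
        rw [LinearMap.mem_ker, hΦ]
        exact (hκ (fun t => κ t y.1)).2 ⟨y.1, fun t => rfl⟩⟩
      map_add' := by
        intro y y'; apply Subtype.ext; funext t; apply Subtype.ext; simp
      map_smul' := by
        intro r y; apply Subtype.ext; funext t; apply Subtype.ext; simp }
  have hbij : Function.Bijective Ψ := by
    constructor
    · intro y y' h
      apply Subtype.ext
      apply (κ 0).injective
      have := congrArg (fun z => ((z.1 0).1 : Fin 2 → F)) h
      exact this
    · rintro ⟨x, hx⟩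
      rw [LinearMap.mem_ker, hΦ] at hx
      obtain ⟨y, hy⟩ := (hκ (fun t => (x t).1)).1 hx
      refine ⟨⟨y, ?_⟩, ?_⟩
      · rw [Submodule.mem_iInf]
        intro t
        rw [Submodule.mem_comap]
        have : (κ t : (Fin 2 → F) →ₗ[F] (Fin 2 → F)) y = (x t).1 := (hy t).symm
        rw [this]; exact (x t).2
      · apply Subtype.ext; funext t; apply Subtype.ext
        exact (hy t).symm
  rw [← h1, (LinearEquiv.ofBijective Ψ hbij).finrank_eq, LinearMap.finrank_range_add_finrank_ker,
    Module.finrank_pi_fintype]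

omit [Fintype T] in
lemma inf_closed [Finite F] (σ : Fin 4 → T) (κ : Fin 4 → (Fin 2 → F) ≃ₗ[F] (Fin 2 → F))
    (ab : T → ℕ × ℕ) (n c : ℕ) :
    IsCl {l : T → Ln F | c ≤ finrank F ((⨅ t, (seg (ab (σ t)).1 (ab (σ t)).2 (l (σ t)).1 n).comap
      (κ t : (Fin 2 → F) →ₗ[F] (Fin 2 → F)) : Submodule F (Fin 2 → F)))} := by
  by_cases h0 : ∃ t, n < (ab (σ t)).1
  · obtain ⟨t, ht⟩ := h0
    refine (IsCl.const (c ≤ 0)).congr fun l => ?_
    simp only [Set.mem_ofPred_eq]
    have : (⨅ t, (seg (ab (σ t)).1 (ab (σ t)).2 (l (σ t)).1 n).comap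
      (κ t : (Fin 2 → F) →ₗ[F] (Fin 2 → F)) : Submodule F (Fin 2 → F)) = ⊥ := by
      rw [eq_bot_iff]
      refine (iInf_le _ t).trans ?_
      rw [seg_bot _ ht]
      intro y hy
      rw [Submodule.mem_comap, Submodule.mem_bot] at hy
      rw [Submodule.mem_bot]
      exact (κ t).injective (by rw [map_zero]; exact hy)
    rw [this, finrank_bot]
  · push Not at h0
    have h0' : ∀ t, ¬ n < (ab (σ t)).1 := fun t => not_lt.2 (h0 t)
    by_cases h1 : ∃ t, n < (ab (σ t)).2
    · obtain ⟨t0, ht0⟩ := h1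
      rcases c with _ | _ | c
      · exact (IsCl.const True).congr fun l => by simp
      · have hcl : IsCl {l : T → Ln F | ∀ t : {t : Fin 4 // n < (ab (σ t)).2},
            l ∈ {l : T → Ln F | l (σ t.1) = (l (σ t0)).map ((κ t0).symm.trans (κ t.1))}} :=
          IsCl.forall_finite fun t => IsCl.map _ _ _
        refine hcl.congr fun l => ?_
        simp only [Set.mem_ofPred_eq]
        have e1 : ∀ t, n < (ab (σ t)).2 →
            (seg (ab (σ t)).1 (ab (σ t)).2 (l (σ t)).1 n) = (l (σ t)).1 := by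
          intro t ht
          exact seg_mid _ (h0' t) ht
        have e2 : ∀ t, ¬ n < (ab (σ t)).2 →
            (seg (ab (σ t)).1 (ab (σ t)).2 (l (σ t)).1 n) = ⊤ := by
          intro t ht
          exact seg_top _ (h0' t) ht
        have e3 : ∀ t (H : Ln F), (H.1).comap (κ t : (Fin 2 → F) →ₗ[F] (Fin 2 → F)) =
            (H.map (κ t).symm).1 := by
          intro t H
          simp only [Ln.map]
          ext y
          rw [Submodule.mem_comap, Submodule.mem_map]
          constructor
          · intro h; exact ⟨_, h, (κ t).symm_apply_apply y⟩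
          · rintro ⟨z, hz, rfl⟩
            have : (κ t : (Fin 2 → F) →ₗ[F] (Fin 2 → F)) (((κ t).symm :
              (Fin 2 → F) →ₗ[F] (Fin 2 → F)) z) = z := (κ t).apply_symm_apply z
            rw [this]; exact hz
        have e4 : (⨅ t, (seg (ab (σ t)).1 (ab (σ t)).2 (l (σ t)).1 n).comap
            (κ t : (Fin 2 → F) →ₗ[F] (Fin 2 → F)) : Submodule F (Fin 2 → F)) =
            ⨅ t : {t : Fin 4 // n < (ab (σ t)).2}, ((l (σ t.1)).map (κ t.1).symm).1 := by
          apply le_antisymm
          · apply le_iInf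
            rintro ⟨t, ht⟩
            refine (iInf_le _ t).trans ?_
            rw [e1 t ht, e3]
          · apply le_iInf
            intro t
            by_cases ht : n < (ab (σ t)).2
            · refine (iInf_le _ ⟨t, ht⟩).trans ?_
              rw [e1 t ht, e3]
            · rw [e2 t ht, Submodule.comap_top]; exact le_top
        rw [e4]
        constructor
        · intro h t
          have key : ∀ t : {t : Fin 4 // n < (ab (σ t)).2},
              (⨅ t : {t : Fin 4 // n < (ab (σ t)).2}, ((l (σ t.1)).map (κ t.1).symm).1) =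
                ((l (σ t.1)).map (κ t.1).symm).1 := by
            intro t
            apply Submodule.eq_of_le_of_finrank_le (iInf_le _ t)
            rw [((l (σ t.1)).map (κ t.1).symm).2]
            simpa using h
          have h5 : (l (σ t.1)).map (κ t.1).symm = (l (σ t0)).map (κ t0).symm :=
            Subtype.ext ((key t).symm.trans (key ⟨t0, ht0⟩))
          rw [← Ln.map_map, ← h5, Ln.map_map_symm]
        · intro h
          have h6 : ∀ t : {t : Fin 4 // n < (ab (σ t)).2},
              (l (σ t.1)).map (κ t.1).symm = (l (σ t0)).map (κ t0).symm := by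
            intro t
            rw [h t, ← Ln.map_map, Ln.map_symm_map]
          have h7 : (⨅ t : {t : Fin 4 // n < (ab (σ t)).2}, ((l (σ t.1)).map (κ t.1).symm).1) =
              ((l (σ t0)).map (κ t0).symm).1 := by
            apply le_antisymm
            · exact iInf_le (fun t : {t : Fin 4 // n < (ab (σ t)).2} =>
                ((l (σ t.1)).map (κ t.1).symm).1) ⟨t0, ht0⟩
            · apply le_iInf
              intro t
              rw [h6 t]
          rw [h7, ((l (σ t0)).map (κ t0).symm).2]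
      · refine (IsCl.const False).congr fun l => ?_
        simp only [Set.mem_ofPred_eq, iff_false, not_le]
        have h8 : (⨅ t, (seg (ab (σ t)).1 (ab (σ t)).2 (l (σ t)).1 n).comap
            (κ t : (Fin 2 → F) →ₗ[F] (Fin 2 → F)) : Submodule F (Fin 2 → F)) ≤
            ((l (σ t0)).1).comap (κ t0 : (Fin 2 → F) →ₗ[F] (Fin 2 → F)) := by
          refine (iInf_le _ t0).trans ?_
          rw [seg_mid _ (h0' t0) ht0]
        have h9 := Submodule.finrank_mono h8
        have h10 : finrank F (((l (σ t0)).1).comap (κ t0 : (Fin 2 → F) →ₗ[F] (Fin 2 → F))) = 1 :=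
          (LinearEquiv.finrank_eq ((κ t0).ofSubmodule' (l (σ t0)).1)).trans (l (σ t0)).2
        omega
    · push Not at h1
      refine (IsCl.const (c ≤ finrank F ((⨅ t, (⊤ : Submodule F (Fin 2 → F)).comap
        (κ t : (Fin 2 → F) →ₗ[F] (Fin 2 → F)) : Submodule F (Fin 2 → F))))).congr fun l => ?_
      simp only [Set.mem_ofPred_eq]
      have : (⨅ t, (seg (ab (σ t)).1 (ab (σ t)).2 (l (σ t)).1 n).comap
          (κ t : (Fin 2 → F) →ₗ[F] (Fin 2 → F)) : Submodule F (Fin 2 → F)) =
          ⨅ t, (⊤ : Submodule F (Fin 2 → F)).comap (κ t : (Fin 2 → F) →ₗ[F] (Fin 2 → F)) :=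
        iInf_congr fun t => by rw [seg_top _ (h0' t) (not_lt.2 (h1 t))]
      rw [this]

lemma seg_finrank (a b n : ℕ) (H : Ln F) :
    finrank F (seg a b H.1 n) = if n < a then 0 else if n < b then 1 else 2 := by
  by_cases h1 : n < a
  · rw [seg_bot _ h1, if_pos h1]; exact finrank_bot F (Fin 2 → F)
  · by_cases h2 : n < b
    · rw [seg_mid _ h1 h2, if_neg h1, if_pos h2]; exact H.2
    · rw [seg_top _ h1 h2, if_neg h1, if_neg h2, finrank_top]; simp

lemma blockB_closed [Finite F] (S : Sys4 d (M ⊕ T × Fin 2) K) (b : ℕ)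
    (hb : BlkB F S b) (E : M → ℕ) (ab : T → ℕ × ℕ) (n r : ℕ) :
    IsCl {l : T → Ln F | finrank F ((⨆ j, (Fil E ab l n).map (tl F (S.T4 j))).map
      (cutL F S.w4 b)) ≤ r} := by
  obtain ⟨hM, σ, τ, κ, hσ, hnz, hκ⟩ := hb
  have hP : (⨆ j, (filM E n).map (cutL F S.w4 b ∘ₗ tl F (S.T4 j) ∘ₗ embM F M T)) = ⊥ := by
    rw [eq_bot_iff]
    apply iSup_le; intro j
    have : cutL F S.w4 b ∘ₗ tl F (S.T4 j) ∘ₗ embM F M T = 0 := by
      ext v x
      simp only [LinearMap.comp_apply, cutL, LinearMap.coe_mk, AddHom.coe_mk, cut, tl_apply]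
      split_ifs with hx
      · rw [Fintype.sum_sum_type]
        simp [embM, hM _ _ _ hx]
      · rfl
    rw [this, Submodule.map_zero]
  have key : ∀ l : T → Ln F, (⨆ j, (Fil E ab l n).map (tl F (S.T4 j))).map (cutL F S.w4 b) =
      ⨆ t, (seg (ab (σ t)).1 (ab (σ t)).2 (l (σ t)).1 n).map
        (cutL F S.w4 b ∘ₗ phi F S (τ t) (σ t)) := by
    intro l
    rw [block_eq, hP, bot_sup_eq]
    apply le_antisymm
    · apply iSup_le; intro j
      apply iSup_le; intro s
      by_cases h : cutL F S.w4 b ∘ₗ phi F S j s = 0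
      · rw [h, Submodule.map_zero]; exact bot_le
      · obtain ⟨t, rfl, rfl⟩ := hnz s j h
        exact le_iSup (fun t => (seg (ab (σ t)).1 (ab (σ t)).2 (l (σ t)).1 n).map
          (cutL F S.w4 b ∘ₗ phi F S (τ t) (σ t))) t
    · apply iSup_le; intro t
      exact le_iSup₂_of_le (τ t) (σ t) le_rfl
  set D : ℕ := ∑ t, (if n < (ab (σ t)).1 then 0 else if n < (ab (σ t)).2 then 1 else 2) with hD
  refine (inf_closed σ κ ab n (D - r)).congr fun l => ?_
  simp only [Set.mem_ofPred_eq]
  rw [key]
  have h := rank_formula (fun t => cutL F S.w4 b ∘ₗ phi F S (τ t) (σ t)) κ hκ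
    (fun t => seg (ab (σ t)).1 (ab (σ t)).2 (l (σ t)).1 n)
  simp only [seg_finrank] at h
  rw [← hD] at h
  omega

theorem block_closed [Finite F] (S : Sys4 d (M ⊕ T × Fin 2) K) (b : ℕ)
    (hb : BlkA F S b ∨ BlkB F S b) (E : M → ℕ) (ab : T → ℕ × ℕ) (n r : ℕ) :
    IsCl {l : T → Ln F | finrank F ((⨆ j, (Fil E ab l n).map (tl F (S.T4 j))).map
      (cutL F S.w4 b)) ≤ r} := by
  rcases hb with hb | hb
  · exact blockA_closed S b hb E ab n r
  · exact blockB_closed S b hb E ab n r

end H

end Four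
end GradedTop
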