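import Pool.Agent.Lib.GradedFour.Basic
import Mathlib.LinearAlgebra.Projectivization.Cardinality

/-!
# Closed conditions on families of lines of a finite plane

Families of lines of the plane over a field with `q` elements which are cut out by conditions
`l s ∈ A` (with `A` everything or of at most two elements) and `l s' = g (l s)`. Their number is
congruent modulo `q - 1` to a natural number between `0` and `2 ^ |T|`.
-/

namespace GradedTop
namespace Four

open Submodule Module

section G

variable {F : Type} [Field F] {T : Type}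

/-- image of a line -/
noncomputable def Ln.map (g : (Fin 2 → F) ≃ₗ[F] (Fin 2 → F)) (l : Ln F) : Ln F :=
  ⟨l.1.map (g : (Fin 2 → F) →ₗ[F] (Fin 2 → F)), by rw [LinearEquiv.finrank_map_eq]; exact l.2⟩

/-- Elementary closed conditions on a family of lines. -/
inductive Con (F : Type) [Field F] (T : Type) : Type
  | bot : Con F T
  | un (s : T) (A : Set (Ln F)) : Con F T
  | eq (s s' : T) (g : (Fin 2 → F) ≃ₗ[F] (Fin 2 → F)) : Con F T

/-- the condition holds -/
def Con.Holds : Con F T → (T → Ln F) → Prop
  | .bot, _ => False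
  | .un s A, l => l s ∈ A
  | .eq s s' g, l => l s' = (l s).map g

/-- unary conditions allow all lines or at most two -/
def Con.Good : Con F T → Prop
  | .bot => True
  | .un _ A => A = Set.univ ∨ A.ncard ≤ 2
  | .eq _ _ _ => True

/-- sets of families of lines defined by finitely many elementary closed conditions -/
def IsCl (Z : Set (T → Ln F)) : Prop :=
  ∃ C : List (Con F T), (∀ c ∈ C, c.Good) ∧ ∀ l, l ∈ Z ↔ ∀ c ∈ C, c.Holds l

/-! ### Lines -/

lemma Ln.map_map (g h : (Fin 2 → F) ≃ₗ[F] (Fin 2 → F)) (l : Ln F) :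
    (l.map g).map h = l.map (g.trans h) := by
  apply Subtype.ext
  simp only [Ln.map]
  rw [← Submodule.map_comp]
  rfl

lemma Ln.map_refl (l : Ln F) : l.map (LinearEquiv.refl F (Fin 2 → F)) = l := by
  apply Subtype.ext
  simp only [Ln.map]
  exact Submodule.map_id _

lemma Ln.map_symm_map (g : (Fin 2 → F) ≃ₗ[F] (Fin 2 → F)) (l : Ln F) :
    (l.map g).map g.symm = l := by
  rw [Ln.map_map, LinearEquiv.self_trans_symm, Ln.map_refl]

lemma Ln.map_map_symm (g : (Fin 2 → F) ≃ₗ[F] (Fin 2 → F)) (l : Ln F) :
    (l.map g.symm).map g = l := by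
  rw [Ln.map_map, LinearEquiv.symm_trans_self, Ln.map_refl]

lemma Ln.map_injective (g : (Fin 2 → F) ≃ₗ[F] (Fin 2 → F)) :
    Function.Injective (Ln.map g : Ln F → Ln F) :=
  Function.LeftInverse.injective (Ln.map_symm_map g)

lemma Ln.eq_map_iff (g : (Fin 2 → F) ≃ₗ[F] (Fin 2 → F)) (l l' : Ln F) :
    l' = l.map g ↔ l = l'.map g.symm := by
  constructor
  · rintro rfl; rw [Ln.map_symm_map]
  · rintro rfl; rw [Ln.map_map_symm]

lemma Ln.eq_span (l : Ln F) {u : Fin 2 → F} (hu : u ∈ l.1) (h0 : u ≠ 0) :
    l.1 = Submodule.span F {u} := by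
  symm
  apply Submodule.eq_of_le_of_finrank_eq
  · rw [Submodule.span_singleton_le_iff_mem]; exact hu
  · rw [finrank_span_singleton h0, l.2]

lemma Ln.exists_ne (l : Ln F) : ∃ u ∈ l.1, u ≠ 0 := by
  by_contra hcon
  push Not at hcon
  have : l.1 = ⊥ := by
    rw [Submodule.eq_bot_iff]; exact hcon
  have h := l.2
  rw [this, finrank_bot] at h
  omega

/-- determinant of two vectors of the plane -/
def dt (u v : Fin 2 → F) : F := u 0 * v 1 - u 1 * v 0

lemma cramer (u v w : Fin 2 → F) : dt u v • w = dt w v • u + dt u w • v := by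
  funext i
  fin_cases i
  · simp [dt]; ring
  · simp [dt]; ring

lemma dt_ne_zero {a b : Ln F} (hab : a ≠ b) {u v : Fin 2 → F} (hu : u ∈ a.1) (hu0 : u ≠ 0)
    (hv : v ∈ b.1) (hv0 : v ≠ 0) : dt u v ≠ 0 := by
  intro h
  apply hab
  apply Subtype.ext
  have hva : v ∈ a.1 := by
    have h0 : v 0 * u 1 = u 0 * v 1 := by
      unfold dt at h; linear_combination -h
    by_cases hu' : u 0 = 0
    · have hu1 : u 1 ≠ 0 := by
        intro h1; apply hu0; funext i; fin_cases i <;> simp [hu', h1]
      have : v = (v 1 / u 1) • u := by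
        funext i
        fin_cases i
        · simp only [Fin.zero_eta, Pi.smul_apply, smul_eq_mul, hu', mul_zero]
          rw [hu', zero_mul] at h0
          exact (mul_eq_zero.1 h0).resolve_right hu1
        · simp only [Fin.mk_one, Pi.smul_apply, smul_eq_mul]
          field_simp
      rw [this]; exact Submodule.smul_mem _ _ hu
    · have : v = (v 0 / u 0) • u := by
        funext i
        fin_cases i
        · simp only [Fin.zero_eta, Pi.smul_apply, smul_eq_mul]
          field_simp
        · simp only [Fin.mk_one, Pi.smul_apply, smul_eq_mul]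
          field_simp
          linear_combination -h0
      rw [this]; exact Submodule.smul_mem _ _ hu
  rw [a.eq_span hva hv0, b.eq_span hv hv0]

/-- the lines fixed by a linear automorphism of the plane -/
lemma Ln.fix_small [Finite F] (g : (Fin 2 → F) ≃ₗ[F] (Fin 2 → F)) :
    {x : Ln F | x = x.map g} = Set.univ ∨ {x : Ln F | x = x.map g}.ncard ≤ 2 := by
  by_contra hcon
  push Not at hcon
  obtain ⟨h1, h2⟩ := hcon
  rw [Set.two_lt_ncard_iff (Set.toFinite _)] at h2
  obtain ⟨a, b, c, ha, hb, hc, hab, hac, hbc⟩ := h2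
  apply h1
  have key : ∀ x : Ln F, x = x.map g → ∀ u ∈ x.1, u ≠ 0 → ∃ α : F, g u = α • u := by
    intro x hx u hu hu0
    have h3 : g u ∈ x.1 := by
      rw [hx]; exact Submodule.mem_map_of_mem hu
    rw [x.eq_span hu hu0, Submodule.mem_span_singleton] at h3
    obtain ⟨α, hα⟩ := h3
    exact ⟨α, hα.symm⟩
  obtain ⟨u, hu, hu0⟩ := a.exists_ne
  obtain ⟨v, hv, hv0⟩ := b.exists_ne
  obtain ⟨w, hw, hw0⟩ := c.exists_ne
  obtain ⟨α, hα⟩ := key a ha u hu hu0
  obtain ⟨β, hβ⟩ := key b hb v hv hv0
  obtain ⟨γ, hγ⟩ := key c hc w hw hw0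
  have huv := dt_ne_zero hab hu hu0 hv hv0
  have huw := dt_ne_zero hac hu hu0 hw hw0
  have hvw := dt_ne_zero hbc hv hv0 hw hw0
  have hwv : dt w v ≠ 0 := by
    intro h; apply hvw; unfold dt at h ⊢; linear_combination -h
  have e1 : dt u v • γ • w = dt w v • α • u + dt u w • β • v := by
    have := congrArg g (cramer u v w)
    rw [map_smul, map_add, map_smul, map_smul, hα, hβ, hγ] at this
    exact this
  have e2 : dt u v • γ • w = dt w v • γ • u + dt u w • γ • v := by
    have := congrArg (fun z => γ • z) (cramer u v w)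
    simp only [smul_add] at this
    rw [smul_comm γ, smul_comm γ, smul_comm γ] at this
    exact this
  have e3 : (dt w v * (α - γ)) • u + (dt u w * (β - γ)) • v = 0 := by
    have := e1.symm.trans e2
    have h4 := sub_eq_zero.2 this
    rw [← h4]
    module
  have p0 := congrFun e3 0
  have p1 := congrFun e3 1
  simp only [Pi.add_apply, Pi.smul_apply, smul_eq_mul, Pi.zero_apply] at p0 p1
  have q1 : dt w v * (α - γ) * dt u v = 0 := by
    have : dt w v * (α - γ) * dt u v = (dt w v * (α - γ) * u 0 + dt u w * (β - γ) * v 0) * v 1 -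
      (dt w v * (α - γ) * u 1 + dt u w * (β - γ) * v 1) * v 0 := by
      simp only [dt]; ring
    rw [this, p0, p1]; ring
  have q2 : dt u w * (β - γ) * dt u v = 0 := by
    have : dt u w * (β - γ) * dt u v = (dt w v * (α - γ) * u 1 + dt u w * (β - γ) * v 1) * u 0 -
      (dt w v * (α - γ) * u 0 + dt u w * (β - γ) * v 0) * u 1 := by
      simp only [dt]; ring
    rw [this, p0, p1]; ring
  have hαγ : α = γ := by
    rcases mul_eq_zero.1 q1 with h | h
    · rcases mul_eq_zero.1 h with h | h
      · exact absurd h hwv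
      · exact sub_eq_zero.1 h
    · exact absurd h huv
  have hβγ : β = γ := by
    rcases mul_eq_zero.1 q2 with h | h
    · rcases mul_eq_zero.1 h with h | h
      · exact absurd h huw
      · exact sub_eq_zero.1 h
    · exact absurd h huv
  subst hαγ
  subst hβγ
  have hg : ∀ x, g x = β • x := by
    intro x
    have := congrArg g (cramer u v x)
    rw [map_smul, map_add, map_smul, map_smul, hα, hβ] at this
    have h5 : dt u v • (g x - β • x) = 0 := by
      rw [smul_sub, this, smul_comm (dt u v) β x, cramer u v x]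
      module
    rcases smul_eq_zero.1 h5 with h | h
    · exact absurd h huv
    · exact sub_eq_zero.1 h
  rw [Set.eq_univ_iff_forall]
  intro x
  simp only [Set.mem_ofPred_eq]
  apply Subtype.ext
  symm
  apply Submodule.eq_of_le_of_finrank_eq
  · rintro y ⟨z, hz, rfl⟩
    have : (g : (Fin 2 → F) →ₗ[F] (Fin 2 → F)) z = β • z := hg z
    rw [this]
    exact Submodule.smul_mem _ _ hz
  · rw [(x.map g).2, x.2]

theorem card_Ln [Finite F] : Nat.card (Ln F) = Nat.card F + 1 := by
  rw [← Projectivization.card_of_finrank_two F (Fin 2 → F) (by simp)]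
  exact (Nat.card_congr (Projectivization.equivSubmodule F (Fin 2 → F))).symm

/-! ### Closure properties -/

theorem IsCl.const (p : Prop) : IsCl {_l : T → Ln F | p} := by
  by_cases hp : p
  · exact ⟨[], by simp, by simp [hp]⟩
  · exact ⟨[Con.bot], by simp [Con.Good], by simp [hp, Con.Holds]⟩

theorem IsCl.inter {Z Z' : Set (T → Ln F)} (h : IsCl Z) (h' : IsCl Z') : IsCl (Z ∩ Z') := by
  obtain ⟨C, h1, h2⟩ := h
  obtain ⟨C', h1', h2'⟩ := h'
  refine ⟨C ++ C', ?_, ?_⟩
  · intro c hc
    rcases List.mem_append.1 hc with hc | hc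
    · exact h1 c hc
    · exact h1' c hc
  · intro l
    rw [Set.mem_inter_iff, h2, h2']
    constructor
    · rintro ⟨h3, h4⟩ c hc
      rcases List.mem_append.1 hc with hc | hc
      · exact h3 c hc
      · exact h4 c hc
    · intro h
      exact ⟨fun c hc => h c (List.mem_append.2 (Or.inl hc)),
        fun c hc => h c (List.mem_append.2 (Or.inr hc))⟩

theorem IsCl.forall_finite {ι : Type} [Finite ι] {Z : ι → Set (T → Ln F)} (h : ∀ i, IsCl (Z i)) :
    IsCl {l | ∀ i, l ∈ Z i} := by
  classical
  have := Fintype.ofFinite ι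
  choose C h1 h2 using h
  refine ⟨(Finset.univ : Finset ι).toList.flatMap C, ?_, ?_⟩
  · intro c hc
    obtain ⟨i, -, hi⟩ := List.mem_flatMap.1 hc
    exact h1 i c hi
  · intro l
    constructor
    · intro h c hc
      obtain ⟨i, -, hi⟩ := List.mem_flatMap.1 hc
      exact (h2 i l).1 (h i) c hi
    · intro h i
      rw [h2 i l]
      intro c hc
      exact h c (List.mem_flatMap.2 ⟨i, by simp, hc⟩)

lemma IsCl.unary (s : T) (A : Set (Ln F)) (hA : A = Set.univ ∨ A.ncard ≤ 2) :
    IsCl {l : T → Ln F | l s ∈ A} :=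
  ⟨[Con.un s A], by simpa [Con.Good] using hA, by simp [Con.Holds]⟩

lemma ncard_le_two_of_subsingleton {α : Type} {A : Set α} (h : A.Subsingleton) :
    A.ncard ≤ 2 := by
  rcases h.eq_empty_or_singleton with h | ⟨x, h⟩
  · rw [h]; simp
  · rw [h]; simp

theorem IsCl.le [Finite F] (s : T) (W : Submodule F (Fin 2 → F)) :
    IsCl {l : T → Ln F | (l s).1 ≤ W} := by
  apply IsCl.unary s {x | x.1 ≤ W}
  by_cases hW : W = ⊤
  · left; rw [hW]; simp
  · right
    apply ncard_le_two_of_subsingleton
    have hlt : finrank F W < 2 := by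
      have := Submodule.finrank_lt (s := W) hW
      simpa using this
    have key : ∀ x : Ln F, x.1 ≤ W → x.1 = W := by
      intro x hx
      apply Submodule.eq_of_le_of_finrank_le hx
      rw [x.2]; omega
    intro x hx y hy
    apply Subtype.ext
    rw [key x hx, key y hy]

theorem IsCl.mem [Finite F] (s : T) (v : Fin 2 → F) : IsCl {l : T → Ln F | v ∈ (l s).1} := by
  apply IsCl.unary s {x | v ∈ x.1}
  by_cases hv : v = 0
  · left; rw [hv]; simp
  · right
    apply ncard_le_two_of_subsingleton
    intro x hx y hy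
    apply Subtype.ext
    rw [x.eq_span hx hv, y.eq_span hy hv]

theorem IsCl.pt [Finite F] (s : T) (l0 : Ln F) : IsCl {l : T → Ln F | l s = l0} := by
  apply IsCl.unary s {l0}
  right; simp

theorem IsCl.map (s s' : T) (g : (Fin 2 → F) ≃ₗ[F] (Fin 2 → F)) :
    IsCl {l : T → Ln F | l s' = (l s).map g} :=
  ⟨[Con.eq s s' g], by simp [Con.Good], by simp [Con.Holds]⟩

/-! ### Substitution -/

/-- substitution of variables in a condition -/
noncomputable def Con.subst {T' : Type} (σ : T → T') (h : T → ((Fin 2 → F) ≃ₗ[F] (Fin 2 → F))) :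
    Con F T → Con F T'
  | .bot => .bot
  | .un s A => .un (σ s) {x | x.map (h s) ∈ A}
  | .eq s s' g => .eq (σ s) (σ s') (((h s).trans g).trans (h s').symm)

lemma Con.subst_good {T' : Type} (σ : T → T') (h : T → ((Fin 2 → F) ≃ₗ[F] (Fin 2 → F)))
    (c : Con F T) (hc : c.Good) : (c.subst σ h).Good := by
  cases c with
  | bot => trivial
  | un s A =>
    simp only [Con.Good, Con.subst] at hc ⊢
    rcases hc with rfl | hc
    · left; simp
    · right
      have : {x : Ln F | x.map (h s) ∈ A} = (Ln.map (h s).symm) '' A := by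
        ext x
        constructor
        · intro hx
          exact ⟨_, hx, Ln.map_symm_map _ _⟩
        · rintro ⟨y, hy, rfl⟩
          simpa [Ln.map_map_symm] using hy
      rw [this, Set.ncard_image_of_injective _ (Ln.map_injective _)]
      exact hc
  | eq s s' g => trivial

lemma Con.subst_holds {T' : Type} (σ : T → T') (h : T → ((Fin 2 → F) ≃ₗ[F] (Fin 2 → F)))
    (c : Con F T) (l : T' → Ln F) :
    (c.subst σ h).Holds l ↔ c.Holds (fun s => (l (σ s)).map (h s)) := by
  cases c with
  | bot => rfl
  | un s A => rfl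
  | eq s s' g =>
    simp only [Con.Holds, Con.subst]
    rw [← Ln.map_map, ← Ln.map_map, ← Ln.eq_map_iff]
    exact eq_comm

lemma IsCl.subst {T' : Type} (σ : T → T') (h : T → ((Fin 2 → F) ≃ₗ[F] (Fin 2 → F)))
    {Z : Set (T → Ln F)} (hZ : IsCl Z) :
    IsCl {l : T' → Ln F | (fun s => (l (σ s)).map (h s)) ∈ Z} := by
  obtain ⟨C, h1, h2⟩ := hZ
  refine ⟨C.map (Con.subst σ h), ?_, ?_⟩
  · intro c hc
    obtain ⟨c', hc', rfl⟩ := List.mem_map.1 hc
    exact Con.subst_good σ h c' (h1 c' hc')
  · intro l
    simp only [Set.mem_ofPred_eq]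
    rw [h2]
    constructor
    · intro h3 c hc
      obtain ⟨c', hc', rfl⟩ := List.mem_map.1 hc
      rw [Con.subst_holds]
      exact h3 c' hc'
    · intro h3 c hc
      rw [← Con.subst_holds]
      exact h3 _ (List.mem_map_of_mem hc)

/-! ### Elimination of one variable -/

/-- the part of a condition which concerns the old variables -/
def Con.res : Con F (Option T) → List (Con F T)
  | .bot => [.bot]
  | .un (some s) A => [.un s A]
  | .eq (some s) (some s') g => [.eq s s' g]
  | _ => []

/-- the part of a condition which concerns the new variable -/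
def Con.top : Con F (Option T) → Set (Ln F)
  | .un none A => A
  | .eq none none g => {x | x = x.map g}
  | _ => Set.univ

/-- the condition links the new variable and an old one -/
def Con.Mixed : Con F (Option T) → Prop
  | .eq none (some _) _ => True
  | .eq (some _) none _ => True
  | _ => False

lemma Con.res_good (c : Con F (Option T)) (hc : c.Good) : ∀ c' ∈ c.res, c'.Good := by
  intro c' hc'
  rcases c with _ | ⟨_ | s, A⟩ | ⟨_ | s, _ | s', g⟩ <;>
    simp only [Con.res, List.mem_singleton, List.not_mem_nil] at hc' <;>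
    first
    | exact hc'.elim
    | (subst hc'; exact hc)

lemma Con.top_small [Finite F] (c : Con F (Option T)) (hc : c.Good) :
    c.top = Set.univ ∨ c.top.ncard ≤ 2 := by
  rcases c with _ | ⟨_ | s, A⟩ | ⟨_ | s, _ | s', g⟩ <;> simp only [Con.top]
  · left; trivial
  · exact hc
  · left; trivial
  · exact Ln.fix_small g
  · left; trivial
  · left; trivial
  · left; trivial

lemma Con.holds_iff (c : Con F (Option T)) (hc : ¬ c.Mixed) (l : Option T → Ln F) :
    c.Holds l ↔ l none ∈ c.top ∧ ∀ c' ∈ c.res, c'.Holds (fun s => l (some s)) := by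
  rcases c with _ | ⟨_ | s, A⟩ | ⟨_ | s, _ | s', g⟩ <;>
    simp [Con.Holds, Con.top, Con.res, Con.Mixed] at hc ⊢

lemma inter_small [Finite F] {ι : Type} (L : List ι) (A : ι → Set (Ln F))
    (h : ∀ i ∈ L, A i = Set.univ ∨ (A i).ncard ≤ 2) :
    {x | ∀ i ∈ L, x ∈ A i} = Set.univ ∨ {x | ∀ i ∈ L, x ∈ A i}.ncard ≤ 2 := by
  by_cases hall : ∀ i ∈ L, A i = Set.univ
  · left
    rw [Set.eq_univ_iff_forall]
    intro x i hi
    rw [hall i hi]; trivial
  · right
    push Not at hall
    obtain ⟨i, hi, hne⟩ := hall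
    refine le_trans (Set.ncard_le_ncard ?_ (Set.toFinite _)) ((h i hi).resolve_left hne)
    intro x hx
    exact hx i hi

lemma small_mod [Finite F] (A : Set (Ln F)) (h : A = Set.univ ∨ A.ncard ≤ 2) :
    ∃ ν ≤ 2, A.ncard ≡ ν [MOD Nat.card F - 1] := by
  rcases h with rfl | h
  · refine ⟨2, le_rfl, ?_⟩
    rw [Set.ncard_univ, card_Ln]
    have h1 : 1 ≤ Nat.card F := Nat.card_pos
    have h2 : Nat.card F + 1 = 2 + (Nat.card F - 1) := by omega
    rw [h2]
    simp [Nat.ModEq]
  · exact ⟨_, h, rfl⟩

theorem IsCl.count [Finite F] [Fintype T] {Z : Set (T → Ln F)} (h : IsCl Z) :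
    ∃ ν ≤ 2 ^ Fintype.card T, Nat.card Z ≡ ν [MOD Nat.card F - 1] := by
  classical
  rw [← Nat.card_eq_fintype_card]
  have hfin : Finite T := inferInstance
  revert Z
  induction T using Finite.induction_empty_option with
  | @of_equiv α β e ih =>
    intro Z hZ
    have hfin' := Finite.of_equiv _ e.symm
    obtain ⟨ν, h1, h2⟩ := ih hfin' (IsCl.subst e.symm (fun _ => LinearEquiv.refl F _) hZ)
    refine ⟨ν, by rwa [← Nat.card_congr e], ?_⟩
    have hcard : Nat.card Z = Nat.card {l : α → Ln F |
        (fun s => (l (e.symm s)).map (LinearEquiv.refl F _)) ∈ Z} := by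
      refine Nat.card_congr (Equiv.subtypeEquiv (Equiv.arrowCongr e.symm (Equiv.refl _)) ?_)
      intro l
      have : (fun s => (((Equiv.arrowCongr e.symm (Equiv.refl _)) l) (e.symm s)).map
          (LinearEquiv.refl F _)) = l := by
        funext s
        rw [Ln.map_refl]
        simp
      rw [Set.mem_ofPred_eq, this]
    rw [hcard]
    exact h2
  | h_empty =>
    intro Z hZ
    refine ⟨Nat.card Z, ?_, rfl⟩
    have h1 : Nat.card Z ≤ 1 := by
      rw [Finite.card_le_one_iff_subsingleton]
      infer_instance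
    exact h1.trans Nat.one_le_two_pow
  | @h_option α _ ih =>
    intro Z hZ
    have hfin' : Finite α := inferInstance
    have hc1 : Nat.card (Option α) = Nat.card α + 1 := Finite.card_option
    obtain ⟨C, hC1, hC2⟩ := hZ
    by_cases hmix : ∃ c ∈ C, c.Mixed
    · obtain ⟨c, hc, hm⟩ := hmix
      have key : ∃ (s : α) (g : (Fin 2 → F) ≃ₗ[F] (Fin 2 → F)),
          ∀ l ∈ Z, l none = (l (some s)).map g := by
        rcases c with _ | ⟨_ | s, A⟩ | ⟨_ | s, _ | s', g⟩ <;> simp only [Con.Mixed] at hm
        · refine ⟨s', g.symm, fun l hl => ?_⟩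
          have := (hC2 l).1 hl _ hc
          rw [← Ln.eq_map_iff]
          exact this
        · refine ⟨s, g, fun l hl => ?_⟩
          exact (hC2 l).1 hl _ hc
      obtain ⟨s, g, hs⟩ := key
      let σ : Option α → α := fun o => o.getD s
      let h : Option α → ((Fin 2 → F) ≃ₗ[F] (Fin 2 → F)) :=
        fun o => if o = none then g else LinearEquiv.refl F _
      obtain ⟨ν, h1, h2⟩ := ih hfin' (IsCl.subst σ h ⟨C, hC1, hC2⟩)
      refine ⟨ν, h1.trans (Nat.pow_le_pow_right (by norm_num) (by omega)), ?_⟩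
      have hinv : ∀ l ∈ Z, (fun o => ((fun t => l (some t)) (σ o)).map (h o)) = l := by
        intro l hl
        funext o
        cases o with
        | none => simp only [σ, h, Option.getD_none, if_true]; exact (hs l hl).symm
        | some t => simp only [σ, h, Option.getD_some, reduceCtorEq, if_false, Ln.map_refl]
      have hcard : Nat.card Z = Nat.card {l : α → Ln F | (fun o => (l (σ o)).map (h o)) ∈ Z} := by
        refine Nat.card_congr ⟨fun l => ⟨fun t => l.1 (some t), ?_⟩,
          fun l => ⟨fun o => (l.1 (σ o)).map (h o), l.2⟩, ?_, ?_⟩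
        · rw [Set.mem_ofPred_eq, hinv l.1 l.2]; exact l.2
        · rintro ⟨l, hl⟩
          apply Subtype.ext
          exact hinv l hl
        · rintro ⟨l, hl⟩
          apply Subtype.ext
          funext t
          simp only [σ, h, Option.getD_some, reduceCtorEq, if_false, Ln.map_refl]
      rw [hcard]
      exact h2
    · push Not at hmix
      obtain ⟨ν0, h10, h20⟩ := small_mod {x : Ln F | ∀ c ∈ C, x ∈ c.top}
        (inter_small C (fun c => c.top) fun c hc => c.top_small (hC1 c hc))
      obtain ⟨ν, h1, h2⟩ := ih hfin'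
        (Z := {l : α → Ln F | ∀ c' ∈ C.flatMap Con.res, c'.Holds l})
        ⟨C.flatMap Con.res, by
          intro c' hc'
          obtain ⟨c, hc, hcc⟩ := List.mem_flatMap.1 hc'
          exact c.res_good (hC1 c hc) c' hcc, fun l => Iff.rfl⟩
      refine ⟨ν0 * ν, ?_, ?_⟩
      · rw [hc1, pow_succ, mul_comm _ 2]
        exact Nat.mul_le_mul h10 h1
      · have hmem : ∀ l : Option α → Ln F, l ∈ Z ↔ l none ∈ {x : Ln F | ∀ c ∈ C, x ∈ c.top} ∧
            (fun t => l (some t)) ∈ {l : α → Ln F | ∀ c' ∈ C.flatMap Con.res, c'.Holds l} := by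
          intro l
          rw [hC2, Set.mem_ofPred_eq, Set.mem_ofPred_eq]
          constructor
          · intro h
            refine ⟨fun c hc => ((c.holds_iff (hmix c hc) l).1 (h c hc)).1, ?_⟩
            intro c' hc'
            obtain ⟨c, hc, hcc⟩ := List.mem_flatMap.1 hc'
            exact ((c.holds_iff (hmix c hc) l).1 (h c hc)).2 c' hcc
          · rintro ⟨h3, h4⟩ c hc
            rw [c.holds_iff (hmix c hc) l]
            exact ⟨h3 c hc, fun c' hc' => h4 c' (List.mem_flatMap.2 ⟨c, hc, hc'⟩)⟩
        have hcard : Nat.card Z = {x : Ln F | ∀ c ∈ C, x ∈ c.top}.ncard *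
            Nat.card {l : α → Ln F | ∀ c' ∈ C.flatMap Con.res, c'.Holds l} := by
          rw [← Nat.card_coe_set_eq, ← Nat.card_prod]
          refine Nat.card_congr ⟨fun l => (⟨l.1 none, ((hmem l.1).1 l.2).1⟩,
            ⟨fun t => l.1 (some t), ((hmem l.1).1 l.2).2⟩),
            fun l => ⟨fun o => o.elim l.1.1 l.2.1, ?_⟩, ?_, ?_⟩
          · rw [hmem]; exact ⟨l.1.2, l.2.2⟩
          · rintro ⟨l, hl⟩
            apply Subtype.ext
            funext o
            cases o <;> rfl
          · rintro ⟨⟨x, hx⟩, ⟨l, hl⟩⟩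
            rfl
        rw [hcard]
        exact Nat.ModEq.mul h20 h2

end G

end Four
end GradedTop
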