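import Pool.Agent.Lib.GradedFour.Basic

/-!
# Monotone homogeneous filtrations and their data
-/

namespace GradedTop
namespace Four

open Submodule Module

section E

variable {M T : Type} {F : Type} [Field F]

/-- admissible data -/
def Adm (e : ℕ) (l0 : Ln F) (E : M → ℕ) (ab : T → ℕ × ℕ) (l : T → Ln F) : Prop :=
  (∀ m, E m ≤ e) ∧ ∀ s, (ab s).1 ≤ (ab s).2 ∧ (ab s).2 ≤ e ∧ ((ab s).1 = (ab s).2 → l s = l0)

lemma mem_Fil {E : M → ℕ} {ab : T → ℕ × ℕ} {l : T → Ln F} {n : ℕ} {v : M ⊕ T × Fin 2 → F} :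
    v ∈ Fil E ab l n ↔ (∀ m, n < E m → v (Sum.inl m) = 0) ∧
      ∀ s, (fun c => v (Sum.inr (s, c))) ∈ seg (ab s).1 (ab s).2 (l s).1 n := Iff.rfl

lemma seg_mono (a b : ℕ) (_hab : a ≤ b) (H : Submodule F (Fin 2 → F)) : Monotone (seg a b H) := by
  intro n n' hn
  unfold seg
  by_cases h1 : n < a
  · rw [if_pos h1]
    exact bot_le
  · rw [if_neg h1, if_neg (show ¬ n' < a by omega)]
    by_cases h2 : n < b
    · rw [if_pos h2]
      by_cases h3 : n' < b
      · rw [if_pos h3]
      · rw [if_neg h3]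
        exact le_top
    · rw [if_neg h2, if_neg (show ¬ n' < b by omega)]

theorem Fil_mono (E : M → ℕ) (ab : T → ℕ × ℕ) (l : T → Ln F) (hab : ∀ s, (ab s).1 ≤ (ab s).2) :
    Monotone (Fil E ab l) := by
  intro n n' hn v hv
  rw [mem_Fil] at hv ⊢
  exact ⟨fun m hm => hv.1 m (by omega), fun s => seg_mono _ _ (hab s) _ hn (hv.2 s)⟩

theorem Fil_hmg (E : M → ℕ) (ab : T → ℕ × ℕ) (l : T → Ln F) (w : M ⊕ T × Fin 2 → ℕ)
    (hT' : ∀ s c c', w (Sum.inr (s, c)) = w (Sum.inr (s, c'))) (n : ℕ) :
    Hmg w (Fil E ab l n) := by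
  intro v hv c
  rw [mem_Fil] at hv ⊢
  constructor
  · intro m hm
    unfold cut
    split_ifs
    · exact hv.1 m hm
    · rfl
  · intro s
    by_cases h : w (Sum.inr (s, 0)) = c
    · have h1 : (fun c' => cut w c v (Sum.inr (s, c'))) = fun c' => v (Sum.inr (s, c')) := by
        funext c'
        unfold cut
        rw [if_pos (by rw [hT' s c' 0, h])]
      rw [h1]
      exact hv.2 s
    · have h1 : (fun c' => cut w c v (Sum.inr (s, c'))) = 0 := by
        funext c'
        unfold cut
        rw [if_neg (by rw [hT' s c' 0]; exact h)]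
        rfl
      rw [h1]
      exact Submodule.zero_mem _

lemma finrank_seg {a b : ℕ} (hab : a ≤ b) (l : Ln F) (n : ℕ) :
    finrank F (seg a b l.1 n) = (if a ≤ n then 1 else 0) + if b ≤ n then 1 else 0 := by
  unfold seg
  by_cases h1 : n < a
  · have h3 : ¬ a ≤ n := by omega
    have h4 : ¬ b ≤ n := by omega
    rw [if_pos h1, if_neg h3, if_neg h4, finrank_bot]
  · have h3 : a ≤ n := by omega
    rw [if_neg h1, if_pos h3]
    by_cases h2 : n < b
    · have h4 : ¬ b ≤ n := by omega
      rw [if_pos h2, if_neg h4, l.2]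
    · have h4 : b ≤ n := by omega
      rw [if_neg h2, if_pos h4, finrank_top, finrank_fin_fun]

variable [DecidableEq M] [DecidableEq T]

/-- The embedding of the plane `s`. -/
def embP (F : Type) [Field F] (M : Type) {T : Type} [DecidableEq T] (s : T) :
    (Fin 2 → F) →ₗ[F] (M ⊕ T × Fin 2 → F) where
  toFun x := Sum.elim (fun _ => 0) fun q => if q.1 = s then x q.2 else 0
  map_add' x y := by
    funext q
    rcases q with m | q
    · simp
    · by_cases h : q.1 = s <;> simp [h]
  map_smul' r x := by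
    funext q
    rcases q with m | q
    · simp
    · by_cases h : q.1 = s <;> simp [h]

omit [DecidableEq M] in
@[simp] lemma embP_inl (s : T) (x : Fin 2 → F) (m : M) : embP F M s x (Sum.inl m) = 0 := rfl

omit [DecidableEq M] in
lemma embP_inr (s s' : T) (x : Fin 2 → F) (c : Fin 2) :
    embP F M s x (Sum.inr (s', c)) = if s' = s then x c else 0 := rfl

lemma single_mem_Fil {E : M → ℕ} {ab : T → ℕ × ℕ} {l : T → Ln F} {n : ℕ} {m : M} :
    (Pi.single (Sum.inl m) 1 : M ⊕ T × Fin 2 → F) ∈ Fil E ab l n ↔ E m ≤ n := by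
  rw [mem_Fil]
  constructor
  · intro h
    by_contra h1
    have h2 := h.1 m (by omega)
    rw [Pi.single_eq_same] at h2
    exact one_ne_zero h2
  · intro h
    constructor
    · intro m' hm'
      have h1 : m' ≠ m := by
        rintro rfl
        omega
      rw [Pi.single_eq_of_ne]
      exact fun h2 => h1 (Sum.inl.inj h2)
    · intro s
      have h1 : (fun c => (Pi.single (Sum.inl m) 1 : M ⊕ T × Fin 2 → F) (Sum.inr (s, c))) = 0 := by
        funext c
        rw [Pi.single_eq_of_ne (by simp)]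
        rfl
      rw [h1]
      exact Submodule.zero_mem _

omit [DecidableEq M] in
lemma embP_mem_Fil {E : M → ℕ} {ab : T → ℕ × ℕ} {l : T → Ln F} {n : ℕ} {s : T} {x : Fin 2 → F} :
    embP F M s x ∈ Fil E ab l n ↔ x ∈ seg (ab s).1 (ab s).2 (l s).1 n := by
  rw [mem_Fil]
  constructor
  · intro h
    have h1 := h.2 s
    have h2 : (fun c => embP F M s x (Sum.inr (s, c))) = x := by
      funext c
      rw [embP_inr, if_pos rfl]
    rw [h2] at h1
    exact h1
  · intro h
    refine ⟨fun m _ => rfl, fun s' => ?_⟩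
    by_cases h1 : s' = s
    · subst h1
      have h2 : (fun c => embP F M s' x (Sum.inr (s', c))) = x := by
        funext c
        rw [embP_inr, if_pos rfl]
      rw [h2]
      exact h
    · have h2 : (fun c => embP F M s x (Sum.inr (s', c))) = 0 := by
        funext c
        rw [embP_inr, if_neg h1]
        rfl
      rw [h2]
      exact Submodule.zero_mem _

lemma eq_of_lt_iff {e a a' : ℕ} (h : a ≤ e) (h' : a' ≤ e) (hh : ∀ n < e, (a ≤ n ↔ a' ≤ n)) :
    a = a' := by
  rcases lt_trichotomy a a' with h1 | h1 | h1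
  · have := (hh a (by omega)).1 le_rfl
    omega
  · exact h1
  · have := (hh a' (by omega)).2 le_rfl
    omega

omit [DecidableEq M] [DecidableEq T] in
theorem Fil_inj (e : ℕ) (l0 : Ln F) (E : M → ℕ) (ab : T → ℕ × ℕ) (l : T → Ln F)
    (E' : M → ℕ) (ab' : T → ℕ × ℕ) (l' : T → Ln F) (h : Adm e l0 E ab l) (h' : Adm e l0 E' ab' l')
    (heq : ∀ n : Fin e, Fil E ab l n = Fil E' ab' l' n) : E = E' ∧ ab = ab' ∧ l = l' := by
  classical
  have hE : E = E' := by
    funext m
    refine eq_of_lt_iff (h.1 m) (h'.1 m) fun n hn => ?_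
    have h1 := heq ⟨n, hn⟩
    rw [← single_mem_Fil (E := E) (ab := ab) (l := l), ← single_mem_Fil (E := E') (ab := ab') (l := l')]
    rw [show Fil E ab l n = Fil E' ab' l' n from h1]
  have hseg : ∀ s, ∀ n < e, seg (ab s).1 (ab s).2 (l s).1 n = seg (ab' s).1 (ab' s).2 (l' s).1 n := by
    intro s n hn
    have h1 : Fil E ab l n = Fil E' ab' l' n := heq ⟨n, hn⟩
    ext x
    rw [← embP_mem_Fil (M := M) (E := E), ← embP_mem_Fil (M := M) (E := E'), h1]
  have hfr : ∀ s, ∀ n < e, ((if (ab s).1 ≤ n then 1 else 0) + if (ab s).2 ≤ n then 1 else 0)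
      = (if (ab' s).1 ≤ n then 1 else 0) + if (ab' s).2 ≤ n then 1 else 0 := by
    intro s n hn
    rw [← finrank_seg (h.2 s).1 (l s), ← finrank_seg (h'.2 s).1 (l' s), hseg s n hn]
  have hab1 : ∀ s, (ab s).1 = (ab' s).1 := by
    intro s
    refine eq_of_lt_iff (e := e) (le_trans (h.2 s).1 (h.2 s).2.1)
      (le_trans (h'.2 s).1 (h'.2 s).2.1) fun n hn => ?_
    have h1 := hfr s n hn
    have h2 := (h.2 s).1
    have h3 := (h'.2 s).1
    split_ifs at h1 <;> omega
  have hab2 : ∀ s, (ab s).2 = (ab' s).2 := by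
    intro s
    refine eq_of_lt_iff (e := e) (h.2 s).2.1 (h'.2 s).2.1 fun n hn => ?_
    have h1 := hfr s n hn
    have h2 := (h.2 s).1
    have h3 := (h'.2 s).1
    split_ifs at h1 <;> omega
  refine ⟨hE, funext fun s => Prod.ext (hab1 s) (hab2 s), funext fun s => ?_⟩
  by_cases h1 : (ab s).1 = (ab s).2
  · rw [(h.2 s).2.2 h1, (h'.2 s).2.2 (by rw [← hab1, ← hab2, h1])]
  · have h2 := (h.2 s).1
    have h3 := (h.2 s).2.1
    have h4 := hseg s (ab s).1 (by omega)
    rw [← hab1, ← hab2] at h4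
    unfold seg at h4
    rw [if_neg (lt_irrefl _), if_pos (by omega), if_neg (lt_irrefl _), if_pos (by omega)] at h4
    exact Subtype.ext h4

/-- A vector is the sum of its pieces. -/
lemma sum_pieces [Fintype M] [Fintype T] (v : M ⊕ T × Fin 2 → F) :
    v = ∑ m, v (Sum.inl m) • (Pi.single (Sum.inl m) 1 : M ⊕ T × Fin 2 → F) +
      ∑ s, embP F M s fun c => v (Sum.inr (s, c)) := by
  funext q
  rw [Pi.add_apply, Finset.sum_apply, Finset.sum_apply]
  rcases q with m | ⟨s, c⟩
  · rw [Finset.sum_eq_single m]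
    · simp
    · intro m' _ hm'
      rw [Pi.smul_apply, Pi.single_eq_of_ne (fun h => hm' (Sum.inl.inj h).symm), smul_zero]
    · intro h
      exact absurd (Finset.mem_univ m) h
  · rw [Finset.sum_eq_zero, zero_add, Finset.sum_eq_single s]
    · rw [embP_inr, if_pos rfl]
    · intro s' _ hs'
      rw [embP_inr, if_neg (Ne.symm hs')]
    · intro h
      exact absurd (Finset.mem_univ s) h
    · intro m _
      rw [Pi.smul_apply, Pi.single_eq_of_ne (by simp), smul_zero]

/-- Submodules containing a vector contain its pieces, and conversely. -/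
lemma mem_iff_pieces [Fintype M] [Fintype T] {w : M ⊕ T × Fin 2 → ℕ}
    (hM : ∀ m y, w (Sum.inl m) = w y → y = Sum.inl m)
    (hT : ∀ s c s' c', w (Sum.inr (s, c)) = w (Sum.inr (s', c')) → s = s')
    {N : Submodule F (M ⊕ T × Fin 2 → F)} (hN : Hmg w N) (v : M ⊕ T × Fin 2 → F) :
    v ∈ N ↔ (∀ m, v (Sum.inl m) • (Pi.single (Sum.inl m) 1 : M ⊕ T × Fin 2 → F) ∈ N) ∧
      ∀ s, (embP F M s fun c => v (Sum.inr (s, c))) ∈ N := by
  constructor
  · intro hv
    constructor
    · intro m
      have h1 := hN v hv (w (Sum.inl m))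
      have h2 : cut w (w (Sum.inl m)) v
          = v (Sum.inl m) • (Pi.single (Sum.inl m) 1 : M ⊕ T × Fin 2 → F) := by
        funext q
        unfold cut
        by_cases h : q = Sum.inl m
        · subst h
          simp
        · rw [if_neg (fun h3 => h (hM m q h3.symm)), Pi.smul_apply, Pi.single_eq_of_ne h, smul_zero]
      rw [← h2]
      exact h1
    · intro s
      have hmix : ∀ m c, w (Sum.inl m) ≠ w (Sum.inr (s, c)) := by
        intro m c h3
        have h4 := hM m _ h3
        simp at h4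
      by_cases h : w (Sum.inr (s, 0)) = w (Sum.inr (s, 1))
      · have h1 := hN v hv (w (Sum.inr (s, 0)))
        have h2 : cut w (w (Sum.inr (s, 0))) v = embP F M s fun c => v (Sum.inr (s, c)) := by
          funext q
          unfold cut
          rcases q with m | ⟨s', c⟩
          · rw [if_neg (hmix m 0), embP_inl]
          · rw [embP_inr]
            by_cases h3 : s' = s
            · subst h3
              rw [if_pos rfl, if_pos]
              fin_cases c
              · rfl
              · exact h.symm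
            · rw [if_neg h3, if_neg (fun h4 => h3 (hT _ _ _ _ h4))]
        rw [← h2]
        exact h1
      · have h1 := N.add_mem (hN v hv (w (Sum.inr (s, 0)))) (hN v hv (w (Sum.inr (s, 1))))
        have h2 : cut w (w (Sum.inr (s, 0))) v + cut w (w (Sum.inr (s, 1))) v
            = embP F M s fun c => v (Sum.inr (s, c)) := by
          funext q
          rw [Pi.add_apply]
          unfold cut
          rcases q with m | ⟨s', c⟩
          · rw [if_neg (hmix m 0), if_neg (hmix m 1), embP_inl, add_zero]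
          · rw [embP_inr]
            by_cases h3 : s' = s
            · subst h3
              rw [if_pos rfl]
              fin_cases c
              · show (if w (Sum.inr (s', 0)) = w (Sum.inr (s', 0)) then v (Sum.inr (s', 0)) else 0)
                  + (if w (Sum.inr (s', 0)) = w (Sum.inr (s', 1)) then v (Sum.inr (s', 0)) else 0)
                  = v (Sum.inr (s', 0))
                rw [if_pos rfl, if_neg h, add_zero]
              · show (if w (Sum.inr (s', 1)) = w (Sum.inr (s', 0)) then v (Sum.inr (s', 1)) else 0)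
                  + (if w (Sum.inr (s', 1)) = w (Sum.inr (s', 1)) then v (Sum.inr (s', 1)) else 0)
                  = v (Sum.inr (s', 1))
                rw [if_pos rfl, if_neg (Ne.symm h), zero_add]
            · rw [if_neg h3, if_neg (fun h4 => h3 (hT _ _ _ _ h4)),
                if_neg (fun h4 => h3 (hT _ _ _ _ h4)), add_zero]
        rw [← h2]
        exact h1
  · rintro ⟨h1, h2⟩
    rw [sum_pieces v]
    exact N.add_mem (N.sum_mem fun m _ => h1 m) (N.sum_mem fun s _ => h2 s)

/-- Thresholds of a monotone predicate on `Fin e`. -/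
lemma exists_thr (e : ℕ) (P : Fin e → Prop) (hP : ∀ n n', n ≤ n' → P n → P n') :
    ∃ a ≤ e, ∀ n : Fin e, P n ↔ a ≤ n := by
  classical
  by_cases h : ∃ n, P n
  · obtain ⟨n0, hn0⟩ := h
    have h1 : ∃ k : ℕ, ∃ hk : k < e, P ⟨k, hk⟩ := ⟨n0, n0.2, hn0⟩
    refine ⟨Nat.find h1, ?_, ?_⟩
    · obtain ⟨h2, _⟩ := Nat.find_spec h1
      exact h2.le
    · intro n
      constructor
      · intro h2
        exact Nat.find_min' h1 ⟨n.2, h2⟩
      · intro h2
        obtain ⟨h3, h4⟩ := Nat.find_spec h1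
        exact hP _ _ h2 h4
  · refine ⟨e, le_rfl, fun n => ⟨fun h1 => absurd ⟨n, h1⟩ h, fun h1 => ?_⟩⟩
    have := n.2
    omega

omit [DecidableEq M] [DecidableEq T] in
theorem Fil_surj [Fintype M] [Fintype T] (e : ℕ) (l0 : Ln F) (w : M ⊕ T × Fin 2 → ℕ)
    (hM : ∀ m y, w (Sum.inl m) = w y → y = Sum.inl m)
    (hT : ∀ s c s' c', w (Sum.inr (s, c)) = w (Sum.inr (s', c')) → s = s')
    (G : Fin e → Submodule F (M ⊕ T × Fin 2 → F)) (hG : Monotone G) (hw : ∀ n, Hmg w (G n)) :
    ∃ E ab l, Adm e l0 E ab l ∧ ∀ n : Fin e, G n = Fil E ab l n := by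
  classical
  have hE : ∀ m, ∃ a ≤ e, ∀ n : Fin e,
      (Pi.single (Sum.inl m) 1 : M ⊕ T × Fin 2 → F) ∈ G n ↔ a ≤ n :=
    fun m => exists_thr e _ fun n n' hn h => hG hn h
  choose E hE1 hE2 using hE
  set P : T → Fin e → Submodule F (Fin 2 → F) := fun s n => (G n).comap (embP F M s) with hPd
  have hPm : ∀ s, Monotone (P s) := fun s n n' hn x hx => hG hn hx
  have hA : ∀ s, ∃ a ≤ e, ∀ n : Fin e, P s n ≠ ⊥ ↔ a ≤ n :=
    fun s => exists_thr e _ fun n n' hn h h' => h (le_bot_iff.1 (h' ▸ hPm s hn))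
  have hB : ∀ s, ∃ b ≤ e, ∀ n : Fin e, P s n = ⊤ ↔ b ≤ n :=
    fun s => exists_thr e _ fun n n' hn h => top_le_iff.1 (h ▸ hPm s hn)
  choose A hA1 hA2 using hA
  choose B hB1 hB2 using hB
  have hAB : ∀ s, A s ≤ B s := by
    intro s
    by_contra h
    have h1 : B s < e := lt_of_lt_of_le (by omega) (hA1 s)
    have h2 := (hB2 s ⟨B s, h1⟩).2 le_rfl
    have h3 : P s ⟨B s, h1⟩ ≠ ⊥ := by
      rw [h2]
      exact top_ne_bot
    have h4 := (hA2 s ⟨B s, h1⟩).1 h3
    exact h h4
  have hline : ∀ s, ∀ n : Fin e, A s ≤ n → (n : ℕ) < B s → finrank F (P s n) = 1 := by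
    intro s n h1 h2
    have h3 := (hA2 s n).2 h1
    have h4 : P s n ≠ ⊤ := fun h => by
      have := (hB2 s n).1 h
      omega
    have h5 : 0 < finrank F (P s n) := by
      rw [Module.finrank_pos_iff]
      exact (Submodule.nontrivial_iff_ne_bot).2 h3
    have h6 : finrank F (P s n) < 2 := by
      have h7 := Submodule.finrank_lt h4
      rw [finrank_fin_fun] at h7
      exact h7
    omega
  have hl : ∀ s, ∃ l : Ln F, (A s = B s → l = l0) ∧
      ∀ n : Fin e, A s ≤ n → (n : ℕ) < B s → P s n = l.1 := by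
    intro s
    by_cases h : A s = B s
    · exact ⟨l0, fun _ => rfl, fun n h1 h2 => by omega⟩
    · have h1 : A s < e := lt_of_lt_of_le (lt_of_le_of_ne (hAB s) h) (hB1 s)
      refine ⟨⟨P s ⟨A s, h1⟩, hline s ⟨A s, h1⟩ le_rfl (lt_of_le_of_ne (hAB s) h)⟩,
        fun h2 => absurd h2 h, fun n h2 h3 => ?_⟩
      symm
      refine Submodule.eq_of_le_of_finrank_eq (hPm s h2) ?_
      rw [hline s n h2 h3, hline s ⟨A s, h1⟩ le_rfl (lt_of_le_of_ne (hAB s) h)]
  choose l hl1 hl2 using hl
  refine ⟨E, fun s => (A s, B s), l, ⟨hE1, fun s => ⟨hAB s, hB1 s, hl1 s⟩⟩, fun n => ?_⟩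
  have hPseg : ∀ s, P s n = seg (A s) (B s) (l s).1 n := by
    intro s
    unfold seg
    by_cases h1 : (n : ℕ) < A s
    · rw [if_pos h1]
      by_contra h2
      have := (hA2 s n).1 h2
      omega
    · rw [if_neg h1]
      by_cases h2 : (n : ℕ) < B s
      · rw [if_pos h2]
        exact hl2 s n (by omega) h2
      · rw [if_neg h2]
        exact (hB2 s n).2 (by omega)
  ext v
  rw [mem_iff_pieces hM hT (hw n) v, mem_Fil]
  refine and_congr (forall_congr' fun m => ?_) (forall_congr' fun s => ?_)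
  · constructor
    · intro h1 h2
      by_contra h3
      have h4 := (G n).smul_mem (v (Sum.inl m))⁻¹ h1
      rw [smul_smul, inv_mul_cancel₀ h3, one_smul] at h4
      have h5 := (hE2 m n).1 h4
      omega
    · intro h1
      by_cases h2 : (n : ℕ) < E m
      · rw [h1 h2, zero_smul]
        exact Submodule.zero_mem _
      · exact (G n).smul_mem _ ((hE2 m n).2 (by omega))
  · rw [← hPseg]
    rfl

omit [DecidableEq M] [DecidableEq T] in
lemma sum_thr (e k : ℕ) (hk : k ≤ e) : ∑ n : Fin e, (if (n : ℕ) < k then 1 else 0) = k := by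
  rw [Fin.sum_univ_eq_sum_range (fun n => if n < k then 1 else 0), ← Finset.sum_filter]
  have h : (Finset.range e).filter (fun n => n < k) = Finset.range k := by
    ext n
    rw [Finset.mem_filter, Finset.mem_range, Finset.mem_range]
    omega
  rw [h, Finset.sum_const, Finset.card_range, smul_eq_mul, mul_one]

omit [DecidableEq M] [DecidableEq T] in
lemma finrank_quot_Fil [Fintype M] [Fintype T] (E : M → ℕ) (ab : T → ℕ × ℕ)
    (l : T → Ln F) (hab : ∀ s, (ab s).1 ≤ (ab s).2) (n : ℕ) :
    finrank F ((M ⊕ T × Fin 2 → F) ⧸ Fil E ab l n) = ∑ m, (if n < E m then 1 else 0) +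
      ∑ s, ((if n < (ab s).1 then 1 else 0) + if n < (ab s).2 then 1 else 0) := by
  classical
  let W : T → Submodule F (Fin 2 → F) := fun s => seg (ab s).1 (ab s).2 (l s).1 n
  let Φ1 : (M ⊕ T × Fin 2 → F) →ₗ[F] ({m // n < E m} → F) :=
    LinearMap.pi fun m => LinearMap.proj (Sum.inl m.1)
  let Φ2 : (M ⊕ T × Fin 2 → F) →ₗ[F] (∀ s, (Fin 2 → F) ⧸ W s) :=
    LinearMap.pi fun s => (W s).mkQ ∘ₗ LinearMap.pi fun c => LinearMap.proj (Sum.inr (s, c))
  let Φ := Φ1.prod Φ2
  have hker : LinearMap.ker Φ = Fil E ab l n := by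
    ext v
    rw [LinearMap.mem_ker, mem_Fil]
    have h1 : Φ v = 0 ↔ Φ1 v = 0 ∧ Φ2 v = 0 := by
      constructor
      · intro h
        exact ⟨congrArg Prod.fst h, congrArg Prod.snd h⟩
      · rintro ⟨h1, h2⟩
        exact Prod.ext h1 h2
    rw [h1]
    refine and_congr ?_ ?_
    · constructor
      · intro h m hm
        exact congrFun h ⟨m, hm⟩
      · intro h
        funext m
        exact h m.1 m.2
    · constructor
      · intro h s
        have h2 := congrFun h s
        exact (Submodule.Quotient.mk_eq_zero _).1 h2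
      · intro h
        funext s
        exact (Submodule.Quotient.mk_eq_zero _).2 (h s)
  have hsurj : Function.Surjective Φ := by
    rintro ⟨x, y⟩
    have h1 : ∀ s, ∃ z : Fin 2 → F, (W s).mkQ z = y s := fun s => (W s).mkQ_surjective (y s)
    choose z hz using h1
    refine ⟨Sum.elim (fun m => if h : n < E m then x ⟨m, h⟩ else 0) fun q => z q.1 q.2, ?_⟩
    refine Prod.ext ?_ ?_
    · funext m
      show (if h : n < E m.1 then x ⟨m.1, h⟩ else 0) = x m
      rw [dif_pos m.2]
    · funext s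
      exact hz s
  have h2 := LinearEquiv.finrank_eq (Φ.quotKerEquivOfSurjective hsurj)
  rw [hker] at h2
  rw [h2, Module.finrank_prod, Module.finrank_fintype_fun_eq_card, Module.finrank_pi_fintype]
  congr 1
  · rw [Fintype.card_subtype, Finset.card_filter]
  · refine Finset.sum_congr rfl fun s _ => ?_
    have h3 := Submodule.finrank_quotient_add_finrank (W s)
    rw [finrank_fin_fun, finrank_seg (hab s)] at h3
    have h4 := hab s
    split_ifs at h3 ⊢ <;> omega

omit [DecidableEq M] [DecidableEq T] in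
theorem codim_Fil [Fintype M] [Fintype T] (e : ℕ) (l0 : Ln F) (E : M → ℕ) (ab : T → ℕ × ℕ)
    (l : T → Ln F) (h : Adm e l0 E ab l) :
    codim (fun n : Fin e => Fil E ab l n) = ∑ m, E m + ∑ s, ((ab s).1 + (ab s).2) := by
  unfold codim
  have h1 : ∀ n : Fin e, finrank F ((M ⊕ T × Fin 2 → F) ⧸ Fil E ab l n)
      = ∑ m, (if (n : ℕ) < E m then 1 else 0) +
      ∑ s, ((if (n : ℕ) < (ab s).1 then 1 else 0) + if (n : ℕ) < (ab s).2 then 1 else 0) :=
    fun n => finrank_quot_Fil E ab l (fun s => (h.2 s).1) n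
  rw [Finset.sum_congr rfl fun n _ => h1 n, Finset.sum_add_distrib, Finset.sum_comm]
  congr 1
  · exact Finset.sum_congr rfl fun m _ => sum_thr e _ (h.1 m)
  · rw [Finset.sum_comm]
    refine Finset.sum_congr rfl fun s _ => ?_
    rw [Finset.sum_add_distrib, sum_thr e _ ((h.2 s).1.trans (h.2 s).2.1), sum_thr e _ (h.2 s).2.1]

end E

end Four
end GradedTop
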