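import Pool.Agent.Lib.GradedFour.Basic

/-!
# Module D: torus and rotation
-/

namespace GradedTop

namespace Four

open IsLocalRing Submodule Module

section general

variable {F : Type} [Field F] {I I' : Type}

lemma sep_sub_ne {u : Fˣ} {W : ℕ} (h : Sep u W) {a b : ℕ} (ha : a < W) (hb : b < W)
    (hab : a ≠ b) : ((u ^ a : Fˣ) : F) - ((u ^ b : Fˣ) : F) ≠ 0 := by
  have key : ∀ a b : ℕ, a < b → b < W → ((u ^ b : Fˣ) : F) - ((u ^ a : Fˣ) : F) ≠ 0 := by
    intro a b hab hb h0
    have h1 := h (b - a) (by omega) (by omega)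
    have h2 : ((u ^ b : Fˣ) : F) = ((u ^ a : Fˣ) : F) * ((u ^ (b - a) : Fˣ) : F) := by
      rw [← Units.val_mul, ← pow_add, Nat.add_sub_cancel' hab.le]
    have h3 : ((u ^ a : Fˣ) : F) * (((u ^ (b - a) : Fˣ) : F) - 1) = 0 := by
      rw [mul_sub, mul_one, ← h2, h0]
    rcases mul_eq_zero.1 h3 with h4 | h4
    · exact (u ^ a).ne_zero h4
    · exact h1.ne_zero h4
  rcases Nat.lt_or_gt_of_ne hab with h1 | h1
  · intro h0
    exact key a b h1 hb (by rw [← neg_sub, h0, neg_zero])
  · exact key b a h1 ha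

lemma cut_dg (f c : I → ℕ) (u : Fˣ) (b : ℕ) (v : I → F) :
    cut f b (dg c u v) = dg c u (cut f b v) := by
  funext x
  rw [dg_apply]
  unfold cut
  split_ifs
  · rfl
  · rw [mul_zero]

lemma Hmg.lact {f : I → ℕ} {N : Submodule F (I → F)} (h : Hmg f N) (c : I → ℕ) (u : Fˣ) :
    Hmg f (GradedTop.lact c u N) := by
  rintro _ ⟨v, hv, rfl⟩ b
  exact ⟨cut f b v, h v hv b, (cut_dg f c u b v).symm⟩

/-- a subspace stable under a diagonal operator with separated weights is homogeneous -/
lemma stable_hmg [Fintype I] (c : I → ℕ) {u : Fˣ} {W : ℕ} (h : Sep u W) (hc : ∀ x, c x < W)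
    (N : Submodule F (I → F)) (hN : ∀ v ∈ N, dg c u v ∈ N) : Hmg c N := by
  classical
  intro v hv b
  have key : ∀ s : Finset ℕ,
      (fun k => (∏ j ∈ s, (((u ^ c k : Fˣ) : F) - ((u ^ j : Fˣ) : F))) * v k) ∈ N := by
    intro s
    induction s using Finset.induction_on with
    | empty => simpa using hv
    | insert j s hj ih =>
      have h1 := N.sub_mem (hN _ ih) (N.smul_mem (((u ^ j : Fˣ) : F)) ih)
      convert h1 using 1
      funext k
      rw [Finset.prod_insert hj, Pi.sub_apply, Pi.smul_apply, dg_apply, smul_eq_mul]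
      ring
  by_cases hb : ∃ x, c x = b
  · obtain ⟨x0, hx0⟩ := hb
    have h2 := key ((Finset.univ.image c).erase b)
    have hne : (∏ j ∈ (Finset.univ.image c).erase b,
        (((u ^ b : Fˣ) : F) - ((u ^ j : Fˣ) : F))) ≠ 0 := by
      rw [Finset.prod_ne_zero_iff]
      intro j hj
      rw [Finset.mem_erase, Finset.mem_image] at hj
      obtain ⟨hj1, y, -, hy⟩ := hj
      exact sep_sub_ne h (hx0 ▸ hc x0) (hy ▸ hc y) (Ne.symm hj1)
    have h3 := N.smul_mem (∏ j ∈ (Finset.univ.image c).erase b,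
        (((u ^ b : Fˣ) : F) - ((u ^ j : Fˣ) : F)))⁻¹ h2
    convert h3 using 1
    funext k
    rw [Pi.smul_apply, smul_eq_mul]
    unfold cut
    by_cases hk : c k = b
    · rw [if_pos hk, hk, ← mul_assoc, inv_mul_cancel₀ hne, one_mul]
    · have hz : (∏ j ∈ (Finset.univ.image c).erase b,
          (((u ^ c k : Fˣ) : F) - ((u ^ j : Fˣ) : F))) = 0 :=
        Finset.prod_eq_zero (i := c k)
          (Finset.mem_erase.2 ⟨hk, Finset.mem_image.2 ⟨k, Finset.mem_univ _, rfl⟩⟩) (sub_self _)
      rw [if_neg hk, hz]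
      simp
  · have h4 : cut c b v = 0 := by
      funext x
      unfold cut
      rw [if_neg (fun h => hb ⟨x, h⟩)]; rfl
    rw [h4]; exact N.zero_mem

lemma mem_lact {c : I → ℕ} {u : Fˣ} {N : Submodule F (I → F)} {v : I → F} (hv : v ∈ N) :
    dg c u v ∈ GradedTop.lact c u N := ⟨v, hv, rfl⟩

lemma map_equivar {A : (I → F) →ₗ[F] (I' → F)} {c : I → ℕ} {c' : I' → ℕ} {u : Fˣ} (r : Fˣ)
    (hA : ∀ v, dg c' u (A v) = (r : F) • A (dg c u v)) {N : Submodule F (I → F)}
    {N' : Submodule F (I' → F)} (h : N.map A ≤ N') :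
    (GradedTop.lact c u N).map A ≤ GradedTop.lact c' u N' := by
  rintro _ ⟨_, ⟨v, hv, rfl⟩, rfl⟩
  have h1 : dg c' u (A v) ∈ GradedTop.lact c' u N' := mem_lact (h ⟨v, hv, rfl⟩)
  rw [hA] at h1
  have h2 := (GradedTop.lact c' u N').smul_mem ((r⁻¹ : Fˣ) : F) h1
  rw [smul_smul, ← Units.val_mul, inv_mul_cancel, Units.val_one, one_smul] at h2
  exact h2

lemma finrank_quot_lact (c : I → ℕ) (u : Fˣ) (N : Submodule F (I → F)) :
    finrank F ((I → F) ⧸ GradedTop.lact c u N) = finrank F ((I → F) ⧸ N) :=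
  (LinearEquiv.finrank_eq (Submodule.Quotient.equiv N _ (dg c u) rfl)).symm

lemma lact_mono (c : I → ℕ) (u : Fˣ) {N N' : Submodule F (I → F)} (h : N ≤ N') :
    GradedTop.lact c u N ≤ GradedTop.lact c u N' := Submodule.map_mono h

/-- the torus action on pairs -/
def pact (c : I → ℕ) (c' : I' → ℕ) :
    Fˣ →* Equiv.Perm (Submodule F (I → F) × Submodule F (I' → F)) :=
  MonoidHom.mk' (fun u => Equiv.prodCongr (GradedTop.lact c u) (GradedTop.lact c' u)) (by
    intro u u'
    refine Equiv.ext fun N => ?_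
    exact Prod.ext (by
      change GradedTop.lact c (u * u') N.1 = GradedTop.lact c u (GradedTop.lact c u' N.1)
      rw [map_mul]; rfl) (by
      change GradedTop.lact c' (u * u') N.2 = GradedTop.lact c' u (GradedTop.lact c' u' N.2)
      rw [map_mul]; rfl))

lemma pact_apply (c : I → ℕ) (c' : I' → ℕ) (u : Fˣ)
    (V : Submodule F (I → F) × Submodule F (I' → F)) :
    pact c c' u V = (GradedTop.lact c u V.1, GradedTop.lact c' u V.2) := rfl

/-- the torus action on pairs of sequences -/
def sact (e : ℕ) (c : I → ℕ) (c' : I' → ℕ) :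
    Fˣ →* Equiv.Perm ((Fin e → Submodule F (I → F)) × (Fin e → Submodule F (I' → F))) :=
  MonoidHom.mk' (fun u => Equiv.prodCongr (Equiv.piCongrRight fun _ => GradedTop.lact c u)
    (Equiv.piCongrRight fun _ => GradedTop.lact c' u)) (by
    intro u u'
    refine Equiv.ext fun N => ?_
    exact Prod.ext (funext fun n => by
      change GradedTop.lact c (u * u') (N.1 n) = GradedTop.lact c u (GradedTop.lact c u' (N.1 n))
      rw [map_mul]; rfl) (funext fun n => by
      change GradedTop.lact c' (u * u') (N.2 n) =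
        GradedTop.lact c' u (GradedTop.lact c' u' (N.2 n))
      rw [map_mul]; rfl))

lemma sact_apply (e : ℕ) (c : I → ℕ) (c' : I' → ℕ) (u : Fˣ)
    (G : (Fin e → Submodule F (I → F)) × (Fin e → Submodule F (I' → F))) :
    sact e c c' u G = (fun n => GradedTop.lact c u (G.1 n), fun n => GradedTop.lact c' u (G.2 n)) :=
  rfl

end general

section levels

variable {F : Type} [Field F] {I I' : Type} {e : ℕ}

/-- inclusion of a level -/
def inc (F : Type) [Field F] (I : Type) {e : ℕ} (n : Fin e) : (I → F) →ₗ[F] (Fin e × I → F) where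
  toFun v p := if p.1 = n then v p.2 else 0
  map_add' v v' := by funext p; by_cases h : p.1 = n <;> simp [h]
  map_smul' r v := by funext p; by_cases h : p.1 = n <;> simp [h]

/-- projection to a level -/
def lev (F : Type) [Field F] (I : Type) {e : ℕ} (n : Fin e) : (Fin e × I → F) →ₗ[F] (I → F) where
  toFun v x := v (n, x)
  map_add' _ _ := rfl
  map_smul' _ _ := rfl

lemma inc_apply (n : Fin e) (v : I → F) (p : Fin e × I) :
    inc F I n v p = if p.1 = n then v p.2 else 0 := rfl

lemma lev_apply (n : Fin e) (v : Fin e × I → F) (x : I) : lev F I n v x = v (n, x) := rfl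

lemma lev_inc_self (n : Fin e) (v : I → F) : lev F I n (inc F I n v) = v := by
  funext x; rw [lev_apply, inc_apply, if_pos rfl]

lemma lev_inc_ne {n n' : Fin e} (h : n' ≠ n) (v : I → F) : lev F I n' (inc F I n v) = 0 := by
  funext x; rw [lev_apply, inc_apply, if_neg h]; rfl

lemma sum_inc_lev (v : Fin e × I → F) : ∑ n, inc F I n (lev F I n v) = v := by
  funext p
  rw [Finset.sum_apply, Finset.sum_eq_single p.1]
  · rw [inc_apply, if_pos rfl, lev_apply]
  · intro n _ hn
    rw [inc_apply, if_neg (Ne.symm hn)]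
  · intro h; exact absurd (Finset.mem_univ _) h

/-- the subspace with given levels -/
def pack (G : Fin e → Submodule F (I → F)) : Submodule F (Fin e × I → F) :=
  ⨅ n, (G n).comap (lev F I n)

lemma mem_pack {G : Fin e → Submodule F (I → F)} {v : Fin e × I → F} :
    v ∈ pack G ↔ ∀ n, lev F I n v ∈ G n := by
  simp only [pack, Submodule.mem_iInf, Submodule.mem_comap]

/-- the levels of a subspace -/
def unp (N : Submodule F (Fin e × I → F)) (n : Fin e) : Submodule F (I → F) :=
  N.comap (inc F I n)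

lemma mem_unp {N : Submodule F (Fin e × I → F)} {n : Fin e} {v : I → F} :
    v ∈ unp N n ↔ inc F I n v ∈ N := Iff.rfl

lemma inc_mem_pack {G : Fin e → Submodule F (I → F)} {n : Fin e} {v : I → F} :
    inc F I n v ∈ pack G ↔ v ∈ G n := by
  rw [mem_pack]
  constructor
  · intro h
    have := h n
    rwa [lev_inc_self] at this
  · intro h n'
    by_cases hn : n' = n
    · subst hn; rwa [lev_inc_self]
    · rw [lev_inc_ne hn]; exact Submodule.zero_mem _

lemma unp_pack (G : Fin e → Submodule F (I → F)) : unp (pack G) = G := by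
  funext n
  ext v
  rw [mem_unp, inc_mem_pack]

/-- the combined weight -/
def cw (e : ℕ) (w : I → ℕ) (p : Fin e × I) : ℕ := (p.1 : ℕ) + e * w p.2

lemma cw_mod (w : I → ℕ) (p : Fin e × I) : cw e w p % e = (p.1 : ℕ) := by
  unfold cw
  rw [Nat.add_mul_mod_self_left, Nat.mod_eq_of_lt p.1.2]

lemma cw_lt (w : I → ℕ) (p : Fin e × I) : cw e w p < e * (w p.2 + 1) := by
  unfold cw
  have := p.1.2
  rw [mul_add]
  omega

lemma inc_lev_mem [Fintype I] {w : I → ℕ} {N : Submodule F (Fin e × I → F)}
    (h : Hmg (cw e w) N) {v : Fin e × I → F} (hv : v ∈ N) (n : Fin e) :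
    inc F I n (lev F I n v) ∈ N := by
  classical
  have h1 : inc F I n (lev F I n v) =
      ∑ b ∈ (Finset.univ.image (cw e w)).filter (fun b => b % e = (n : ℕ)), cut (cw e w) b v := by
    funext p
    rw [Finset.sum_apply, inc_apply]
    by_cases hp : p.1 = n
    · rw [if_pos hp, lev_apply, ← hp, Finset.sum_eq_single (cw e w p)]
      · unfold cut; rw [if_pos rfl]
      · intro b _ hb
        unfold cut; rw [if_neg (Ne.symm hb)]
      · intro hb
        exfalso
        apply hb
        rw [Finset.mem_filter, Finset.mem_image]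
        exact ⟨⟨p, Finset.mem_univ _, rfl⟩, cw_mod w p⟩
    · rw [if_neg hp, Finset.sum_eq_zero]
      intro b hb
      rw [Finset.mem_filter] at hb
      unfold cut
      rw [if_neg]
      rintro rfl
      rw [cw_mod] at hb
      exact hp (Fin.ext hb.2)
  rw [h1]
  exact N.sum_mem fun b _ => h v hv b

lemma pack_unp [Fintype I] {w : I → ℕ} {N : Submodule F (Fin e × I → F)}
    (h : Hmg (cw e w) N) : pack (unp N) = N := by
  ext v
  rw [mem_pack]
  constructor
  · intro hv
    rw [← sum_inc_lev v]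
    exact N.sum_mem fun n _ => hv n
  · intro hv n
    exact inc_lev_mem h hv n

lemma sh_inc {n n' : Fin e} (h : (n' : ℕ) = n + 1) (v : I → F) :
    sh F e I (inc F I n v) = inc F I n' v := by
  funext p
  change (if h : (p.1 : ℕ) = 0 then 0 else
    inc F I n v (⟨(p.1 : ℕ) - 1, by have := p.1.2; omega⟩, p.2)) = _
  rw [inc_apply n' v p]
  by_cases h0 : (p.1 : ℕ) = 0
  · rw [dif_pos h0, if_neg]
    intro h1
    rw [h1] at h0
    omega
  · rw [dif_neg h0, inc_apply]
    by_cases h1 : p.1 = n'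
    · rw [if_pos h1, if_pos]
      apply Fin.ext
      change (p.1 : ℕ) - 1 = n
      rw [h1]; omega
    · rw [if_neg h1, if_neg]
      intro h2
      apply h1
      apply Fin.ext
      have h3 : (p.1 : ℕ) - 1 = n := congrArg Fin.val h2
      omega

lemma unp_mono {N : Submodule F (Fin e × I → F)} (h : N.map (sh F e I) ≤ N) :
    Monotone (unp N) := by
  have key : ∀ k : ℕ, ∀ n n' : Fin e, (n' : ℕ) = n + k → unp N n ≤ unp N n' := by
    intro k
    induction k with
    | zero =>
      intro n n' hn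
      have : n' = n := Fin.ext (by omega)
      rw [this]
    | succ k ih =>
      intro n n' hn
      have hk : (n : ℕ) + k < e := by have := n'.2; omega
      refine (ih n ⟨(n : ℕ) + k, hk⟩ rfl).trans ?_
      intro v hv
      rw [mem_unp] at hv ⊢
      rw [← sh_inc (n := ⟨(n : ℕ) + k, hk⟩) (n' := n') (by rw [hn]; rfl) v]
      exact h ⟨_, hv, rfl⟩
  intro n n' hn
  exact key ((n' : ℕ) - n) n n' (by have := Fin.le_def.1 hn; omega)

lemma pack_sh {G : Fin e → Submodule F (I → F)} (h : Monotone G) :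
    (pack G).map (sh F e I) ≤ pack G := by
  rintro _ ⟨v, hv, rfl⟩
  rw [mem_pack]
  intro n
  have hv' := mem_pack.1 hv
  by_cases h0 : (n : ℕ) = 0
  · have : lev F I n (sh F e I v) = 0 := by
      funext x
      change (if h : (n : ℕ) = 0 then 0 else v (⟨(n : ℕ) - 1, by have := n.2; omega⟩, x)) = 0
      rw [dif_pos h0]
    rw [this]; exact Submodule.zero_mem _
  · have h1 : (n : ℕ) - 1 < e := by have := n.2; omega
    have : lev F I n (sh F e I v) = lev F I ⟨(n : ℕ) - 1, h1⟩ v := by
      funext x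
      change (if h : (n : ℕ) = 0 then 0 else v (⟨(n : ℕ) - 1, by have := n.2; omega⟩, x)) = _
      rw [dif_neg h0]; rfl
    rw [this]
    exact h (Fin.le_def.2 (by change (n : ℕ) - 1 ≤ n; omega)) (hv' _)

lemma lev_lw [Fintype I] (M : Matrix I' I ℤ) (n : Fin e) (v : Fin e × I → F) :
    lev F I' n (lw F e M v) = tl F M (lev F I n v) := rfl

lemma lw_inc [Fintype I] (M : Matrix I' I ℤ) (n : Fin e) (v : I → F) :
    lw F e M (inc F I n v) = inc F I' n (tl F M v) := by
  funext p
  change tl F M (lev F I p.1 (inc F I n v)) p.2 = _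
  rw [inc_apply]
  by_cases h : p.1 = n
  · rw [if_pos h, h, lev_inc_self]
  · rw [if_neg h, lev_inc_ne h, map_zero]; rfl

lemma pack_lw [Fintype I] (M : Matrix I' I ℤ) {G : Fin e → Submodule F (I → F)}
    {G' : Fin e → Submodule F (I' → F)} (h : ∀ n, (G n).map (tl F M) ≤ G' n) :
    (pack G).map (lw F e M) ≤ pack G' := by
  rintro _ ⟨v, hv, rfl⟩
  rw [mem_pack]
  intro n
  rw [lev_lw]
  exact h n ⟨_, mem_pack.1 hv n, rfl⟩

lemma unp_lw [Fintype I] (M : Matrix I' I ℤ) {N : Submodule F (Fin e × I → F)}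
    {N' : Submodule F (Fin e × I' → F)} (h : N.map (lw F e M) ≤ N') (n : Fin e) :
    (unp N n).map (tl F M) ≤ unp N' n := by
  rintro _ ⟨v, hv, rfl⟩
  rw [mem_unp, ← lw_inc]
  exact h ⟨_, hv, rfl⟩

lemma pack_hmg_snd {f : I → ℕ} {G : Fin e → Submodule F (I → F)} (h : ∀ n, Hmg f (G n)) :
    Hmg (fun p : Fin e × I => f p.2) (pack G) := by
  intro v hv b
  rw [mem_pack]
  intro n
  exact h n _ (mem_pack.1 hv n) b

lemma pack_hmg {w : I → ℕ} {G : Fin e → Submodule F (I → F)} (h : ∀ n, Hmg w (G n)) :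
    Hmg (cw e w) (pack G) := by
  intro v hv b
  rw [mem_pack]
  intro n
  have he : 0 < e := lt_of_le_of_lt (Nat.zero_le _) n.2
  by_cases hx : ∃ x, cw e w (n, x) = b
  · obtain ⟨x, hx⟩ := hx
    have h1 : lev F I n (cut (cw e w) b v) = cut w (w x) (lev F I n v) := by
      funext y
      rw [lev_apply]
      unfold cut
      have h2 : cw e w (n, y) = b ↔ w y = w x := by
        rw [← hx]
        unfold cw
        constructor
        · intro h3
          have h4 : e * w y = e * w x := by
            have h5 : (n : ℕ) + e * w y = n + e * w x := h3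
            omega
          exact Nat.eq_of_mul_eq_mul_left he h4
        · intro h3
          change (n : ℕ) + e * w y = n + e * w x
          rw [h3]
      by_cases h3 : w y = w x
      · rw [if_pos (h2.2 h3), if_pos h3, lev_apply]
      · rw [if_neg (fun h4 => h3 (h2.1 h4)), if_neg h3]
    rw [h1]
    exact h n _ (mem_pack.1 hv n) _
  · have h1 : lev F I n (cut (cw e w) b v) = 0 := by
      funext y
      rw [lev_apply]
      unfold cut
      rw [if_neg (fun h4 => hx ⟨y, h4⟩)]; rfl
    rw [h1]; exact Submodule.zero_mem _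

lemma unp_hmg {w : I → ℕ} {N : Submodule F (Fin e × I → F)} (h : Hmg (cw e w) N) (n : Fin e) :
    Hmg w (unp N n) := by
  intro v hv a
  rw [mem_unp] at hv ⊢
  have he : 0 < e := lt_of_le_of_lt (Nat.zero_le _) n.2
  have h1 : inc F I n (cut w a v) = cut (cw e w) ((n : ℕ) + e * a) (inc F I n v) := by
    funext p
    rw [inc_apply]
    unfold cut
    by_cases hp : p.1 = n
    · rw [if_pos hp]
      have h2 : cw e w p = (n : ℕ) + e * a ↔ w p.2 = a := by
        unfold cw
        rw [hp]
        constructor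
        · intro h3
          exact Nat.eq_of_mul_eq_mul_left he (by omega)
        · intro h3; rw [h3]
      by_cases h3 : w p.2 = a
      · rw [if_pos h3, if_pos (h2.2 h3), inc_apply, if_pos hp]
      · rw [if_neg h3, if_neg (fun h4 => h3 (h2.1 h4))]
    · rw [if_neg hp, inc_apply, if_neg hp, ite_self]
  rw [h1]
  exact h _ hv _

lemma Hmg.coarsen [Fintype I] {w f : I → ℕ} (hf : ∀ x y, w x = w y → f x = f y)
    {N : Submodule F (I → F)} (h : Hmg w N) : Hmg f N := by
  classical
  intro v hv b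
  have h1 : cut f b v = ∑ a ∈ (Finset.univ.filter (fun x => f x = b)).image w, cut w a v := by
    funext x
    rw [Finset.sum_apply]
    by_cases hx : f x = b
    · rw [Finset.sum_eq_single (w x)]
      · unfold cut; rw [if_pos hx, if_pos rfl]
      · intro a _ ha
        unfold cut; rw [if_neg (Ne.symm ha)]
      · intro ha
        exact absurd (Finset.mem_image.2 ⟨x, Finset.mem_filter.2 ⟨Finset.mem_univ _, hx⟩, rfl⟩) ha
    · rw [Finset.sum_eq_zero]
      · unfold cut; rw [if_neg hx]
      · intro a ha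
        rw [Finset.mem_image] at ha
        obtain ⟨y, hy, rfl⟩ := ha
        rw [Finset.mem_filter] at hy
        unfold cut
        rw [if_neg]
        intro h2
        exact hx ((hf x y h2).trans hy.2)
  rw [h1]
  exact N.sum_mem fun a _ => h v hv a

/-- all levels modulo `G` -/
noncomputable def levQ (G : Fin e → Submodule F (I → F)) :
    (Fin e × I → F) →ₗ[F] ((n : Fin e) → ((I → F) ⧸ G n)) :=
  LinearMap.pi fun n => (G n).mkQ.comp (lev F I n)

lemma ker_levQ (G : Fin e → Submodule F (I → F)) : LinearMap.ker (levQ G) = pack G := by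
  ext v
  rw [LinearMap.mem_ker, mem_pack]
  constructor
  · intro h n
    exact (Submodule.Quotient.mk_eq_zero _).1 (congrFun h n)
  · intro h
    funext n
    exact (Submodule.Quotient.mk_eq_zero _).2 (h n)

lemma surj_levQ (G : Fin e → Submodule F (I → F)) : Function.Surjective (levQ G) := by
  intro g
  choose g' hg' using fun n => Submodule.mkQ_surjective _ (g n)
  refine ⟨fun p => g' p.1 p.2, ?_⟩
  funext n
  exact hg' n

lemma finrank_quot_pack [Fintype I] (G : Fin e → Submodule F (I → F)) :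
    finrank F ((Fin e × I → F) ⧸ pack G) = codim G := by
  rw [← ker_levQ, LinearEquiv.finrank_eq
    (LinearMap.quotKerEquivOfSurjective _ (surj_levQ G)), Module.finrank_pi_fintype]
  rfl

end levels

variable {d : ℕ} {J K : Type} [Fintype J] [Fintype K]

lemma dg_sh {F : Type} [Field F] {e : ℕ} {I : Type} (w : I → ℕ) (u : Fˣ) (v : Fin e × I → F) :
    dg (cw e w) u (sh F e I v) = ((u : Fˣ) : F) • sh F e I (dg (cw e w) u v) := by
  funext p
  rw [dg_apply, Pi.smul_apply, smul_eq_mul]
  change _ * (if h : (p.1 : ℕ) = 0 then 0 else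
    v (⟨(p.1 : ℕ) - 1, by have := p.1.2; omega⟩, p.2)) = _ * (if h : (p.1 : ℕ) = 0 then 0 else
    dg (cw e w) u v (⟨(p.1 : ℕ) - 1, by have := p.1.2; omega⟩, p.2))
  by_cases h0 : (p.1 : ℕ) = 0
  · rw [dif_pos h0, dif_pos h0, mul_zero, mul_zero]
  · rw [dif_neg h0, dif_neg h0, dg_apply, ← mul_assoc, ← Units.val_mul, ← pow_succ']
    have h1 : cw e w p = cw e w (⟨(p.1 : ℕ) - 1, by have := p.1.2; omega⟩, p.2) + 1 := by
      change (p.1 : ℕ) + e * w p.2 = (p.1 : ℕ) - 1 + e * w p.2 + 1
      omega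
    rw [h1]

lemma dg_tl {F : Type} [Field F] {I I' : Type} [Fintype I] (M : Matrix I' I ℤ) (w : I → ℕ)
    (w' : I' → ℕ) (w0 : ℕ) (hM : ∀ x y, M x y ≠ 0 → w' x = w y + w0) (u : Fˣ) (v : I → F) :
    dg w' u (tl F M v) = ((u ^ w0 : Fˣ) : F) • tl F M (dg w u v) := by
  funext x
  rw [dg_apply, Pi.smul_apply, smul_eq_mul, tl_apply, tl_apply, Finset.mul_sum, Finset.mul_sum]
  refine Finset.sum_congr rfl fun y _ => ?_
  by_cases h : M x y = 0
  · rw [h]; simp
  · rw [dg_apply, hM x y h, pow_add, Units.val_mul]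
    ring

lemma dg_lw {F : Type} [Field F] {e : ℕ} {I I' : Type} [Fintype I] (M : Matrix I' I ℤ)
    (w : I → ℕ) (w' : I' → ℕ) (w0 : ℕ) (hM : ∀ x y, M x y ≠ 0 → w' x = w y + w0) (u : Fˣ)
    (v : Fin e × I → F) :
    dg (cw e w') u (lw F e M v) = ((u ^ (e * w0) : Fˣ) : F) • lw F e M (dg (cw e w) u v) := by
  funext p
  rw [dg_apply, Pi.smul_apply, smul_eq_mul]
  change _ * tl F M (fun y => v (p.1, y)) p.2 =
    _ * tl F M (fun y => dg (cw e w) u v (p.1, y)) p.2
  rw [tl_apply, tl_apply, Finset.mul_sum, Finset.mul_sum]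
  refine Finset.sum_congr rfl fun y _ => ?_
  by_cases h : M p.2 y = 0
  · rw [h]; simp
  · rw [dg_apply]
    have h1 : cw e w' p = e * w0 + cw e w (p.1, y) := by
      unfold cw
      rw [hM _ _ h]
      ring
    rw [h1, pow_add, Units.val_mul]
    ring

lemma PF_act (S : Sys4 d J K) (F : Type) [Field F] (e k : ℕ) (u : Fˣ)
    (V : Submodule F (Fin e × J → F) × Submodule F (Fin e × K → F)) (h : S.PF F e k V) :
    S.PF F e k (pact (cw e S.w) (cw e S.w4) u V) := by
  rw [pact_apply]
  exact
    { hom := h.hom.lact _ u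
      sh1 := map_equivar u (dg_sh S.w u) h.sh1
      sh2 := map_equivar u (dg_sh S.w4 u) h.sh2
      t := fun j => map_equivar _ (dg_lw (S.T j) S.w S.w (S.w0 j) (S.hT j) u) (h.t j)
      t4 := fun j => map_equivar _ (dg_lw (S.T4 j) S.w S.w4 (S.w0 j) (S.hT4 j) u) (h.t4 j)
      card := by
        rw [finrank_quot_lact, finrank_quot_lact]
        exact h.card }

lemma PG_act (S : Sys4 d J K) (F : Type) [Field F] (e k : ℕ) (u : Fˣ)
    (G : (Fin e → Submodule F (J → F)) × (Fin e → Submodule F (K → F))) (h : S.PG F e k G) :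
    S.PG F e k (sact e S.w S.w4 u G) := by
  rw [sact_apply]
  exact
    { mono1 := fun n n' hn => lact_mono _ _ (h.mono1 hn)
      mono2 := fun n n' hn => lact_mono _ _ (h.mono2 hn)
      hom := fun n => (h.hom n).lact _ u
      t := fun n j => map_equivar _ (dg_tl (S.T j) S.w S.w (S.w0 j) (S.hT j) u) (h.t n j)
      t4 := fun n j => map_equivar _ (dg_tl (S.T4 j) S.w S.w4 (S.w0 j) (S.hT4 j) u) (h.t4 n j)
      card := by
        have h1 := h.card
        unfold codim at h1 ⊢
        simp only [finrank_quot_lact]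
        exact h1 }

theorem card_PF_Q (S : Sys4 d J K) (F : Type) [Field F] (e k : ℕ) :
    Nat.card {V : Submodule F (Fin e × J → F) × Submodule F (Fin e × K → F) //
      S.PF F e k V ∧ (Hmg (cw e S.w) V.1 ∧ Hmg (cw e S.w4) V.2)} =
    Nat.card {G : (Fin e → Submodule F (J → F)) × (Fin e → Submodule F (K → F)) //
      S.PG F e k G ∧ ∀ n, Hmg S.w4 (G.2 n)} := by
  refine Nat.card_congr
    { toFun := fun V => ⟨(unp V.1.1, unp V.1.2),
        { mono1 := unp_mono V.2.1.sh1
          mono2 := unp_mono V.2.1.sh2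
          hom := fun n => unp_hmg V.2.2.1 n
          t := fun n j => unp_lw _ (V.2.1.t j) n
          t4 := fun n j => unp_lw _ (V.2.1.t4 j) n
          card := by
            rw [← finrank_quot_pack, ← finrank_quot_pack]
            change finrank F ((Fin e × J → F) ⧸ pack (unp V.1.1)) +
              finrank F ((Fin e × K → F) ⧸ pack (unp V.1.2)) = k
            rw [pack_unp V.2.2.1, pack_unp V.2.2.2]
            exact V.2.1.card },
        fun n => unp_hmg V.2.2.2 n⟩
      invFun := fun G => ⟨(pack G.1.1, pack G.1.2),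
        { hom := pack_hmg_snd fun n => (G.2.1.hom n).coarsen S.hlv
          sh1 := pack_sh G.2.1.mono1
          sh2 := pack_sh G.2.1.mono2
          t := fun j => pack_lw _ fun n => G.2.1.t n j
          t4 := fun j => pack_lw _ fun n => G.2.1.t4 n j
          card := by
            change finrank F ((Fin e × J → F) ⧸ pack G.1.1) +
              finrank F ((Fin e × K → F) ⧸ pack G.1.2) = k
            rw [finrank_quot_pack, finrank_quot_pack]
            exact G.2.1.card },
        pack_hmg fun n => G.2.1.hom n, pack_hmg fun n => G.2.2 n⟩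
      left_inv := fun V => Subtype.ext (Prod.ext (pack_unp V.2.2.1) (pack_unp V.2.2.2))
      right_inv := fun G => Subtype.ext (Prod.ext (unp_pack _) (unp_pack _)) }

lemma finite_sub (F : Type) [Field F] [Finite F] (I : Type) [Finite I] :
    Finite (Submodule F (I → F)) :=
  Finite.of_injective (fun N : Submodule F (I → F) => (N : Set (I → F))) SetLike.coe_injective

theorem fix (S : Sys4 d J K) (F : Type) [Field F] [Finite F] (e k : ℕ) (u : Fˣ) (ℓ : ℕ)
    (hℓ : ℓ.Prime) (m κ : ℕ) (hu : u ^ (ℓ ^ m) = 1) (W : ℕ) (hsep : Sep (u ^ (ℓ ^ κ)) W)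
    (hW : ∀ x, e * (S.w x + 1) ≤ W) (hW4 : ∀ x, e * (S.w4 x + 1) ≤ W) :
    Nat.card {V // S.PF F e k V} ≡ Nat.card {G // S.PG F e k G} [MOD ℓ ^ (κ + 1)] := by
  have f1 := finite_sub F (Fin e × J)
  have f2 := finite_sub F (Fin e × K)
  have f3 := finite_sub F J
  have f4 := finite_sub F K
  have s1 := card_modEq_sub (pact (F := F) (cw e S.w) (cw e S.w4)) (fun V => S.PF F e k V)
    (fun V => Hmg (cw e S.w) V.1 ∧ Hmg (cw e S.w4) V.2) (PF_act S F e k)
    (fun g V h => ⟨h.1.lact _ g, h.2.lact _ g⟩) u ℓ hℓ m κ hu (by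
      intro V _ hV
      rw [pact_apply] at hV
      have h1 : GradedTop.lact (cw e S.w) (u ^ ℓ ^ κ) V.1 = V.1 := congrArg Prod.fst hV
      have h2 : GradedTop.lact (cw e S.w4) (u ^ ℓ ^ κ) V.2 = V.2 := congrArg Prod.snd hV
      refine ⟨stable_hmg _ hsep (fun p => (cw_lt S.w p).trans_le (hW p.2)) _ fun v hv => ?_,
        stable_hmg _ hsep (fun p => (cw_lt S.w4 p).trans_le (hW4 p.2)) _ fun v hv => ?_⟩
      · have := mem_lact (c := cw e S.w) (u := u ^ ℓ ^ κ) hv
        rwa [h1] at this
      · have := mem_lact (c := cw e S.w4) (u := u ^ ℓ ^ κ) hv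
        rwa [h2] at this)
  have s2 := card_modEq_sub (sact (F := F) e S.w S.w4) (fun G => S.PG F e k G)
    (fun G => ∀ n, Hmg S.w4 (G.2 n)) (PG_act S F e k)
    (fun g G h n => (h n).lact _ g) u ℓ hℓ m κ hu (by
      intro G _ hG n
      rw [sact_apply] at hG
      have h1 : GradedTop.lact S.w4 (u ^ ℓ ^ κ) (G.2 n) = G.2 n :=
        congrFun (congrArg Prod.snd hG) n
      refine stable_hmg _ hsep (fun x => ?_) _ fun v hv => ?_
      · have he : 0 < e := lt_of_le_of_lt (Nat.zero_le _) n.2
        have h2 := hW4 x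
        have h3 : S.w4 x + 1 ≤ e * (S.w4 x + 1) := Nat.le_mul_of_pos_left _ he
        omega
      · have := mem_lact (c := S.w4) (u := u ^ ℓ ^ κ) hv
        rwa [h1] at this)
  rw [card_PF_Q] at s1
  exact s1.trans s2.symm

end Four

end GradedTop
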