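import Pool.Agent.Lib.GradedFour.LieDef

/-!
# The encoded multidegree determines the word up to order
-/

namespace GradedTop

namespace Four

lemma ofDigits_ofFn (b : ℕ) : ∀ {n : ℕ} (f : Fin n → ℕ),
    Nat.ofDigits b (List.ofFn f) = ∑ i, f i * b ^ (i : ℕ)
  | 0, f => by simp
  | n + 1, f => by
    rw [List.ofFn_succ, Nat.ofDigits_cons, ofDigits_ofFn b (fun i => f i.succ),
      Fin.sum_univ_succ, Finset.mul_sum]
    simp only [Fin.val_zero, pow_zero, mul_one, Fin.val_succ, pow_succ]
    congr 1
    refine Finset.sum_congr rfl fun i _ => ?_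
    ring

lemma wtl_eq_count {d : ℕ} (v : List (Fin d)) : wtl v = ∑ i, v.count i * 5 ^ (i : ℕ) := by
  induction v with
  | nil => simp [wtl]
  | cons x v ih =>
    have h1 : wtl (x :: v) = 5 ^ (x : ℕ) + wtl v := by simp [wtl]
    rw [h1, ih]
    have h2 : ∀ i : Fin d, (x :: v).count i * 5 ^ (i : ℕ) =
        v.count i * 5 ^ (i : ℕ) + (if x = i then 5 ^ (i : ℕ) else 0) := by
      intro i
      rw [List.count_cons, add_mul]
      congr 1
      by_cases h : x = i
      · simp [h]
      · simp [h]
    rw [Finset.sum_congr rfl fun i _ => h2 i, Finset.sum_add_distrib, Finset.sum_ite_eq]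
    simp [add_comm]

/-- the encoded multidegree of a word of length at most four determines its letters -/
lemma perm_of_wtl {d : ℕ} {v w : List (Fin d)} (hv : v.length ≤ 4) (hw : w.length ≤ 4)
    (h : wtl v = wtl w) : v.Perm w := by
  rw [wtl_eq_count, wtl_eq_count, ← ofDigits_ofFn, ← ofDigits_ofFn] at h
  have h1 := Nat.ofDigits_inj_of_len_eq (b := 5) (by norm_num) (by simp) ?_ ?_ h
  · rw [List.perm_iff_count]
    intro a
    exact congrFun (List.ofFn_injective h1) a
  · intro l hl
    rw [List.mem_ofFn] at hl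
    obtain ⟨i, rfl⟩ := hl
    have := List.count_le_length (a := i) (l := v)
    omega
  · intro l hl
    rw [List.mem_ofFn] at hl
    obtain ⟨i, rfl⟩ := hl
    have := List.count_le_length (a := i) (l := w)
    omega

lemma perm_of_cf {d : ℕ} {b : ℕ} {v v' w w' : List (Fin d)} (h : cf w v ≠ 0) (h' : cf w' v' ≠ 0)
    (hw : wtl w = b) (hw' : wtl w' = b) (hl : v.length ≤ 4) (hl' : v'.length ≤ 4) :
    v.Perm v' := by
  apply perm_of_wtl hl hl'
  rw [← wtl_perm (cf_perm _ _ h), ← wtl_perm (cf_perm _ _ h'), hw, hw']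

end Four

end GradedTop
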