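import Pool.Agent.Lib.GradedFour.BlockDef
import Pool.Agent.Lib.GradedFour.Wt

/-!
# The blocks of the free nilpotent Lie ring of class four
-/

namespace GradedTop

namespace Four

open Submodule Module

variable {d : ℕ}

lemma perm2 {α : Type} {r t c e : α} (h : [r, t].Perm [c, e]) :
    (r = c ∧ t = e) ∨ (r = e ∧ t = c) := by
  have hr : r ∈ [c, e] := h.mem_iff.1 (by simp)
  simp only [List.mem_cons, List.not_mem_nil, or_false] at hr
  rcases hr with rfl | rfl
  · left
    have := h.cons_inv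
    rw [List.perm_singleton] at this
    simpa using this
  · right
    have := (h.trans (List.Perm.swap _ _ _)).cons_inv
    rw [List.perm_singleton] at this
    simpa using this

lemma perm3 {α : Type} {q r t b c e : α} (h : [q, r, t].Perm [b, c, e]) :
    (q = b ∧ r = c ∧ t = e) ∨ (q = b ∧ r = e ∧ t = c) ∨ (q = c ∧ r = b ∧ t = e) ∨
      (q = c ∧ r = e ∧ t = b) ∨ (q = e ∧ r = b ∧ t = c) ∨ (q = e ∧ r = c ∧ t = b) := by
  have hq : q ∈ [b, c, e] := h.mem_iff.1 (by simp)
  simp only [List.mem_cons, List.not_mem_nil, or_false] at hq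
  rcases hq with rfl | rfl | rfl
  · rcases perm2 h.cons_inv with ⟨h1, h2⟩ | ⟨h1, h2⟩
    · exact Or.inl ⟨rfl, h1, h2⟩
    · exact Or.inr (Or.inl ⟨rfl, h1, h2⟩)
  · rcases perm2 (h.trans (List.Perm.swap _ _ _)).cons_inv with ⟨h1, h2⟩ | ⟨h1, h2⟩
    · exact Or.inr (Or.inr (Or.inl ⟨rfl, h1, h2⟩))
    · exact Or.inr (Or.inr (Or.inr (Or.inl ⟨rfl, h1, h2⟩)))
  · have h3 : [b, c, q].Perm [q, b, c] :=
      ((List.Perm.swap q c []).cons b).trans (List.Perm.swap q b [c])
    rcases perm2 (h.trans h3).cons_inv with ⟨h1, h2⟩ | ⟨h1, h2⟩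
    · exact Or.inr (Or.inr (Or.inr (Or.inr (Or.inl ⟨rfl, h1, h2⟩))))
    · exact Or.inr (Or.inr (Or.inr (Or.inr (Or.inr ⟨rfl, h1, h2⟩))))

lemma TT_eq {s s' : TT d} (h : [s.1.1, s.1.2.1, s.1.2.2].Perm [s'.1.1, s'.1.2.1, s'.1.2.2]) :
    s = s' := by
  have h1 := List.Perm.eq_of_pairwise (le := (· < ·))
    (fun a b _ _ hab hba => absurd hba (lt_asymm hab)) ?_ ?_ h
  · simp only [List.cons.injEq, and_true] at h1
    apply Subtype.ext
    exact Prod.ext h1.1 (Prod.ext h1.2.1 h1.2.2)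
  · simp [s.2.1, s.2.2, s.2.1.trans s.2.2]
  · simp [s'.2.1, s'.2.2, s'.2.1.trans s'.2.2]

section

variable (F : Type) [Field F]

lemma phiL_apply (j : Fin d) (s : TT d) (u : Fin 2 → F) (x : KK d) :
    phi F (lieSys d) j s u x = (cf (lt4 x) [j, s.1.2.2, s.1.2.1, s.1.1] : F) * u 0 +
      (cf (lt4 x) [j, s.1.2.1, s.1.2.2, s.1.1] : F) * u 1 := by
  refine (tl_apply (A := F)
    (fun x c => (lieSys d).T4 j x (Sum.inr (s, c)) : Matrix (KK d) (Fin 2) ℤ) u x).trans ?_
  rw [Fin.sum_univ_two]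
  rfl

lemma cutL_apply {K : Type} [Fintype K] (w : K → ℕ) (b : ℕ) (v : K → F) (x : K) :
    cutL F w b v x = if w x = b then v x else 0 := rfl

variable {F}

lemma wtl4 (a b c e : Fin d) : wtl [a, b, c, e] =
    5 ^ (a : ℕ) + 5 ^ (b : ℕ) + 5 ^ (c : ℕ) + 5 ^ (e : ℕ) := by
  simp [wtl, add_assoc]

lemma phi_ne {j : Fin d} {s : TT d} {b : ℕ}
    (h : cutL F (lieSys d).w4 b ∘ₗ phi F (lieSys d) j s ≠ 0) :
    wtl [j, s.1.1, s.1.2.1, s.1.2.2] = b := by
  by_contra hb
  apply h
  refine LinearMap.ext fun u => ?_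
  funext x
  rw [LinearMap.comp_apply, cutL_apply]
  by_cases hx : (lieSys d).w4 x = b
  · rw [if_pos hx, phiL_apply]
    have hx' : wtl (lt4 x) = b := hx
    have h1 : cf (lt4 x) [j, s.1.2.2, s.1.2.1, s.1.1] = 0 := by
      by_contra h1
      apply hb
      rw [← hx', wtl_perm (cf_perm _ _ h1), wtl4, wtl4]
      ring
    have h2 : cf (lt4 x) [j, s.1.2.1, s.1.2.2, s.1.1] = 0 := by
      by_contra h1
      apply hb
      rw [← hx', wtl_perm (cf_perm _ _ h1), wtl4, wtl4]
      ring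
    rw [h1, h2]
    simp
  · rw [if_neg hx]; rfl

end

lemma mem_of_not {b : ℕ}
    (hA : ¬ ∃ a₁ a₂ a₃ a₄ : Fin d, a₁ < a₂ ∧ a₂ < a₃ ∧ a₃ < a₄ ∧ wtl [a₁, a₂, a₃, a₄] = b)
    {j : Fin d} {s : TT d} (h : wtl [j, s.1.1, s.1.2.1, s.1.2.2] = b) :
    j ∈ [s.1.1, s.1.2.1, s.1.2.2] := by
  by_contra hj
  apply hA
  simp only [List.mem_cons, List.not_mem_nil, or_false, not_or] at hj
  rw [wtl4] at h
  rcases lt_or_gt_of_ne hj.1 with h1 | h1
  · exact ⟨_, _, _, _, h1, s.2.1, s.2.2, by rw [wtl4, h]⟩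
  rcases lt_or_gt_of_ne hj.2.1 with h2 | h2
  · exact ⟨_, _, _, _, h1, h2, s.2.2, by rw [wtl4, ← h]; ring⟩
  rcases lt_or_gt_of_ne hj.2.2 with h3 | h3
  · exact ⟨_, _, _, _, s.2.1, h2, h3, by rw [wtl4, ← h]; ring⟩
  · exact ⟨_, _, _, _, s.2.1, s.2.2, h3, by rw [wtl4, ← h]; ring⟩

lemma TT_nodup (s : TT d) : [s.1.1, s.1.2.1, s.1.2.2].Nodup := by
  simp [s.2.1.ne, s.2.2.ne, (s.2.1.trans s.2.2).ne]

lemma blkA_of_not (F : Type) [Field F] {b : ℕ}
    (hA : ¬ ∃ a₁ a₂ a₃ a₄ : Fin d, a₁ < a₂ ∧ a₂ < a₃ ∧ a₃ < a₄ ∧ wtl [a₁, a₂, a₃, a₄] = b) :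
    BlkA F (lieSys d) b := by
  intro s j s' j' h h'
  have h1 := phi_ne h
  have h2 := phi_ne h'
  have m1 := mem_of_not hA h1
  have m2 := mem_of_not hA h2
  have hp : [j, s.1.1, s.1.2.1, s.1.2.2].Perm [j', s'.1.1, s'.1.2.1, s'.1.2.2] :=
    perm_of_wtl (by simp) (by simp) (h1.trans h2.symm)
  have hj : j = j' := by
    by_contra hne
    have c1 := hp.count_eq j
    have c2 : 1 ≤ [s.1.1, s.1.2.1, s.1.2.2].count j := List.count_pos_iff.2 m1
    have c3 : [s'.1.1, s'.1.2.1, s'.1.2.2].count j ≤ 1 := List.nodup_iff_count_le_one.1 (TT_nodup s') j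
    rw [List.count_cons, List.count_cons (b := j')] at c1
    have e1 : (j == j) = true := by simp
    have e2 : ¬ ((j' == j) = true) := by simpa using fun h => hne h.symm
    rw [if_pos e1, if_neg e2] at c1
    omega
  subst hj
  exact ⟨TT_eq hp.cons_inv, rfl⟩

/-- the four identifications of the relation plane -/
def kap1 (F : Type) [Field F] : (Fin 2 → F) ≃ₗ[F] (Fin 2 → F) where
  toFun y := ![y 1, y 0]
  map_add' y z := by funext i; fin_cases i <;> simp
  map_smul' r y := by funext i; fin_cases i <;> simp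
  invFun y := ![y 1, y 0]
  left_inv y := by funext i; fin_cases i <;> simp
  right_inv y := by funext i; fin_cases i <;> simp

/-- the third identification -/
def kap2 (F : Type) [Field F] : (Fin 2 → F) ≃ₗ[F] (Fin 2 → F) where
  toFun y := ![y 1, - y 0 - y 1]
  map_add' y z := by funext i; fin_cases i <;> simp; ring
  map_smul' r y := by funext i; fin_cases i <;> simp; ring
  invFun y := ![- y 0 - y 1, y 0]
  left_inv y := by funext i; fin_cases i <;> simp; ring
  right_inv y := by funext i; fin_cases i <;> simp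

/-- the fourth identification -/
def kap3 (F : Type) [Field F] : (Fin 2 → F) ≃ₗ[F] (Fin 2 → F) where
  toFun y := ![y 0, - y 0 - y 1]
  map_add' y z := by funext i; fin_cases i <;> simp; ring
  map_smul' r y := by funext i; fin_cases i <;> simp; ring
  invFun y := ![y 0, - y 0 - y 1]
  left_inv y := by funext i; fin_cases i <;> simp
  right_inv y := by funext i; fin_cases i <;> simp

lemma six {a b c e : Fin d} (hab : a < b) (hbc : b < c) (hce : c < e) (x : KK d)
    (hx : wtl (lt4 x) = wtl [a, b, c, e]) :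
    lt4 x = [a, b, c, e] ∨ lt4 x = [a, b, e, c] ∨ lt4 x = [a, c, b, e] ∨ lt4 x = [a, c, e, b] ∨
      lt4 x = [a, e, b, c] ∨ lt4 x = [a, e, c, b] := by
  obtain ⟨⟨p, q, r, t⟩, hR⟩ := x
  have hp : [p, q, r, t].Perm [a, b, c, e] :=
    perm_of_wtl (v := [p, q, r, t]) (w := [a, b, c, e]) (by simp) (by simp) hx
  have hac := hab.trans hbc
  have hae := hac.trans hce
  have hbe := hbc.trans hce
  have hnd : [p, q, r, t].Nodup := hp.nodup_iff.2 (by simp [hab.ne, hac.ne, hae.ne, hbc.ne, hbe.ne, hce.ne])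
  simp only [List.nodup_cons, List.mem_cons, List.not_mem_nil, or_false, not_or, not_false_eq_true,
    and_true, List.nodup_nil] at hnd
  obtain ⟨⟨hpq, hpr, hpt⟩, ⟨hqr, hqt⟩, hrt⟩ := hnd
  have hpa : p = a := by
    have hm : a ∈ [p, q, r, t] := hp.mem_iff.2 (by simp)
    have hp' : p ∈ [a, b, c, e] := hp.mem_iff.1 (by simp)
    simp only [List.mem_cons, List.not_mem_nil, or_false] at hm hp'
    have hap : a ≤ p := by
      rcases hp' with h | h | h | h <;> rw [h]
      · exact hab.le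
      · exact hac.le
      · exact hae.le
    simp only [Root4] at hR
    rcases hR with hR | hR
    · obtain ⟨_, _, _, h1, h2, h3⟩ := hR
      have h1 := h1 hqr hqt
      have h2 := h2 (Ne.symm hqr) hrt
      have h3 := h3 (Ne.symm hqt) (Ne.symm hrt)
      rcases hm with h | h | h | h
      · exact h.symm
      · exact absurd h1 (by rw [← h]; exact not_lt.2 hap)
      · exact absurd h2 (by rw [← h]; exact not_lt.2 hap)
      · exact absurd h3 (by rw [← h]; exact not_lt.2 hap)
    · exact absurd hR.1 hpq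
  subst hpa
  change [p, q, r, t] = _ ∨ [p, q, r, t] = _ ∨ [p, q, r, t] = _ ∨ [p, q, r, t] = _ ∨
    [p, q, r, t] = _ ∨ [p, q, r, t] = _
  rcases perm3 hp.cons_inv with ⟨h1, h2, h3⟩ | ⟨h1, h2, h3⟩ | ⟨h1, h2, h3⟩ | ⟨h1, h2, h3⟩ |
    ⟨h1, h2, h3⟩ | ⟨h1, h2, h3⟩ <;> simp [h1, h2, h3]

section

variable {F : Type} [Field F]

/-- the four values at a word -/
def val4 (F : Type) [Field F] (w : List (Fin d)) (a b c e : Fin d) (v : Fin 4 → Fin 2 → F) : F :=
  ((cf w [a, e, c, b] : F) * v 0 0 + (cf w [a, c, e, b] : F) * v 0 1) +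
  ((cf w [b, e, c, a] : F) * v 1 0 + (cf w [b, c, e, a] : F) * v 1 1) +
  ((cf w [c, e, b, a] : F) * v 2 0 + (cf w [c, b, e, a] : F) * v 2 1) +
  ((cf w [e, c, b, a] : F) * v 3 0 + (cf w [e, b, c, a] : F) * v 3 1)

set_option linter.unusedSimpArgs false in
lemma val4_six {a b c e : Fin d} (hab : a < b) (hbc : b < c) (hce : c < e)
    (v : Fin 4 → Fin 2 → F) :
    val4 F [a, b, c, e] a b c e v = - v 0 0 + v 3 0 ∧
    val4 F [a, c, b, e] a b c e v = v 0 0 + v 0 1 + v 3 1 ∧
    val4 F [a, b, e, c] a b c e v = - v 0 1 + v 2 0 ∧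
    val4 F [a, e, b, c] a b c e v = v 0 0 + v 0 1 + v 2 1 ∧
    val4 F [a, c, e, b] a b c e v = - v 0 1 + v 1 0 ∧
    val4 F [a, e, c, b] a b c e v = - v 0 0 + v 1 1 := by
  have hac := hab.trans hbc
  have hae := hac.trans hce
  have hbe := hbc.trans hce
  refine ⟨?_, ?_, ?_, ?_, ?_, ?_⟩ <;>
    simp [val4, cf, hab.ne, hac.ne, hae.ne, hbc.ne, hbe.ne, hce.ne, hab.ne', hac.ne', hae.ne',
      hbc.ne', hbe.ne', hce.ne']

lemma blkB_of (F : Type) [Field F] {b₀ : ℕ} {a b c e : Fin d} (hab : a < b) (hbc : b < c)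
    (hce : c < e) (hb : wtl [a, b, c, e] = b₀) : BlkB F (lieSys d) b₀ := by
  have hac := hab.trans hbc
  have hae := hac.trans hce
  have hbe := hbc.trans hce
  have hnd : [a, b, c, e].Nodup := by simp [hab.ne, hac.ne, hae.ne, hbc.ne, hbe.ne, hce.ne]
  constructor
  · intro m j x hx
    by_contra h
    have hx' : wtl (lt4 x) = b₀ := hx
    have h1 : cf (lt4 x) (j :: (lt (Sum.inl m)).reverse) ≠ 0 := h
    have h2 := cf_perm _ _ h1
    have h3 : (lt4 x).Perm [a, b, c, e] := perm_of_wtl (by simp [lt4]) (by simp) (hx'.trans hb.symm)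
    have h4 : (j :: (lt (Sum.inl m)).reverse).Nodup := (h2.symm.trans h3).nodup_iff.2 hnd
    have h5 : (lt (Sum.inl m)).length = 3 := by
      have := h2.length_eq
      simp [lt4] at this
      omega
    rcases m with i | p | p
    · simp [lt] at h5
    · simp [lt] at h5
    · simp [lt] at h4
  · refine ⟨![⟨(b, c, e), hbc, hce⟩, ⟨(a, c, e), hac, hce⟩, ⟨(a, b, e), hab, hbe⟩,
      ⟨(a, b, c), hab, hbc⟩], ![a, b, c, e],
      ![LinearEquiv.refl F _, kap1 F, kap2 F, kap3 F], ?_, ?_, ?_⟩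
    · intro i i' h
      fin_cases i <;> fin_cases i' <;> first
        | rfl
        | (exfalso; simp [hab.ne, hab.ne', hbc.ne, hbc.ne', hce.ne, hce.ne'] at h)
    · intro s j h
      have h1 := phi_ne h
      have h2 : [j, s.1.1, s.1.2.1, s.1.2.2].Perm [a, b, c, e] :=
        perm_of_wtl (by simp) (by simp) (h1.trans hb.symm)
      have h3 : j ∈ [a, b, c, e] := h2.mem_iff.1 (by simp)
      simp only [List.mem_cons, List.not_mem_nil, or_false] at h3
      rcases h3 with rfl | rfl | rfl | rfl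
      · exact ⟨0, TT_eq h2.cons_inv, rfl⟩
      · exact ⟨1, TT_eq (s' := ⟨(a, c, e), hac, hce⟩)
          (h2.trans (List.Perm.swap _ _ _)).cons_inv, rfl⟩
      · exact ⟨2, TT_eq (s' := ⟨(a, b, e), hab, hbe⟩)
          (h2.trans (((List.Perm.swap j b [e]).cons a).trans (List.Perm.swap j a [b, e]))).cons_inv,
            rfl⟩
      · exact ⟨3, TT_eq (s' := ⟨(a, b, c), hab, hbc⟩)
          (h2.trans (List.perm_append_comm (l₁ := [a, b, c]) (l₂ := [j]))).cons_inv, rfl⟩
    · intro v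
      have key : ∀ x : KK d, (∑ t, cutL F (lieSys d).w4 b₀ (phi F (lieSys d)
          ((![a, b, c, e] : Fin 4 → Fin d) t)
          ((![⟨(b, c, e), hbc, hce⟩, ⟨(a, c, e), hac, hce⟩, ⟨(a, b, e), hab, hbe⟩,
            ⟨(a, b, c), hab, hbc⟩] : Fin 4 → TT d) t) (v t))) x =
          if wtl (lt4 x) = b₀ then val4 F (lt4 x) a b c e v else 0 := by
        intro x
        rw [Finset.sum_apply, Fin.sum_univ_four]
        simp only [cutL_apply, phiL_apply]
        change (if wtl (lt4 x) = b₀ then _ else 0) + (if wtl (lt4 x) = b₀ then _ else 0) +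
          (if wtl (lt4 x) = b₀ then _ else 0) + (if wtl (lt4 x) = b₀ then _ else 0) = _
        by_cases hx : wtl (lt4 x) = b₀
        · simp only [if_pos hx]
          rfl
        · simp only [if_neg hx, add_zero]
      obtain ⟨e1, e2, e3, e4, e5, e6⟩ := val4_six (F := F) hab hbc hce v
      constructor
      · intro h
        have key' : ∀ (p q r : Fin d) (hR : Root4 a p q r), wtl [a, p, q, r] = b₀ →
            val4 F [a, p, q, r] a b c e v = 0 := by
          intro p q r hR hw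
          have h1 := key ⟨(a, p, q, r), hR⟩
          rw [h] at h1
          have hw' : wtl (lt4 (⟨(a, p, q, r), hR⟩ : KK d)) = b₀ := hw
          rw [if_pos hw'] at h1
          exact h1.symm
        have hR : ∀ p q r : Fin d, a < p → a < q → a < r → Root4 a p q r :=
          fun p q r hp hq hr => Or.inl ⟨hp.ne, hq.ne, hr.ne, fun _ _ => hp, fun _ _ => hq,
            fun _ _ => hr⟩
        have hb' := hb
        rw [wtl4] at hb'
        have f1 := key' b c e (hR _ _ _ hab hac hae) hb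
        have f2 := key' c b e (hR _ _ _ hac hab hae) (by rw [wtl4, ← hb']; ring)
        have f3 := key' b e c (hR _ _ _ hab hae hac) (by rw [wtl4, ← hb']; ring)
        have f4 := key' e b c (hR _ _ _ hae hab hac) (by rw [wtl4, ← hb']; ring)
        have f5 := key' c e b (hR _ _ _ hac hae hab) (by rw [wtl4, ← hb']; ring)
        have f6 := key' e c b (hR _ _ _ hae hac hab) (by rw [wtl4, ← hb']; ring)
        rw [e1] at f1
        rw [e2] at f2
        rw [e3] at f3
        rw [e4] at f4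
        rw [e5] at f5
        rw [e6] at f6
        refine ⟨v 0, fun t => ?_⟩
        fin_cases t
        · rfl
        · funext i; fin_cases i
          · change v 1 0 = v 0 1
            linear_combination f5
          · change v 1 1 = v 0 0
            linear_combination f6
        · funext i; fin_cases i
          · change v 2 0 = v 0 1
            linear_combination f3
          · change v 2 1 = - v 0 0 - v 0 1
            linear_combination f4
        · funext i; fin_cases i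
          · change v 3 0 = v 0 0
            linear_combination f1
          · change v 3 1 = - v 0 0 - v 0 1
            linear_combination f2
      · rintro ⟨y, hy⟩
        have g0 : v 0 = y := hy 0
        have g1 : v 1 = ![y 1, y 0] := hy 1
        have g2 : v 2 = ![y 1, - y 0 - y 1] := hy 2
        have g3 : v 3 = ![y 0, - y 0 - y 1] := hy 3
        funext x
        rw [key, Pi.zero_apply]
        by_cases hx : wtl (lt4 x) = b₀
        · rw [if_pos hx]
          rcases six hab hbc hce x (hx.trans hb.symm) with h | h | h | h | h | h <;> rw [h]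
          · rw [e1, g0, g3]; simp
          · rw [e3, g0, g2]; simp
          · rw [e2, g0, g3]; simp
          · rw [e5, g0, g1]; simp
          · rw [e4, g0, g2]; simp
          · rw [e6, g0, g1]; simp
        · rw [if_neg hx]

end

theorem lieSys_blocks (d : ℕ) (F : Type) [Field F] (b : ℕ) :
    BlkA F (lieSys d) b ∨ BlkB F (lieSys d) b := by
  by_cases hA : ∃ a₁ a₂ a₃ a₄ : Fin d, a₁ < a₂ ∧ a₂ < a₃ ∧ a₃ < a₄ ∧ wtl [a₁, a₂, a₃, a₄] = b
  · obtain ⟨a₁, a₂, a₃, a₄, h1, h2, h3, h4⟩ := hA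
    exact Or.inr (blkB_of F h1 h2 h3 h4)
  · exact Or.inl (blkA_of_not F hA)

end Four

end GradedTop
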