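import Pool.Agent.Lib.GradedFour.LieFour

/-!
# The number of graded ideals of class four in coordinates
-/

namespace GradedTop

namespace Four

open Submodule

section

variable {R : Type} [CommRing R] {d : ℕ}

variable (R) in
/-- the pair of coordinate lattices -/
noncomputable def toN (Λ : Fin 4 → Submodule R (FreeLieAlgebra R (Fin d))) :
    Submodule R (MM d ⊕ TT d × Fin 2 → R) × Submodule R (KK d → R) :=
  (⨅ i : Fin 3, (Λ i.castSucc).comap (Lm R (i + 1)), (Λ 3).comap (LC4 R))

lemma mem_toN (Λ : Fin 4 → Submodule R (FreeLieAlgebra R (Fin d)))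
    (v : MM d ⊕ TT d × Fin 2 → R) :
    v ∈ (toN R Λ).1 ↔ ∀ i : Fin 3, Lm R (i + 1) v ∈ Λ i.castSucc := by
  simp only [toN, Submodule.mem_iInf, Submodule.mem_comap]

variable (R d) in
/-- decomposition in homogeneous components -/
noncomputable def FF : (MM d ⊕ TT d × Fin 2 → R) →ₗ[R] (∀ i : Fin 3, comp R d (i + 1)) :=
  LinearMap.pi fun i : Fin 3 =>
    (Lm R ((i : ℕ) + 1)).codRestrict (comp R d (i + 1)) (fun v => Lm_mem _ (Nat.succ_ne_zero _) v)

lemma FF_apply (v : MM d ⊕ TT d × Fin 2 → R) (i : Fin 3) :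
    ((FF R d v i : comp R d (i + 1)) : FreeLieAlgebra R (Fin d)) = Lm R (i + 1) v := rfl

lemma FF_bijective : Function.Bijective (FF R d) := by
  constructor
  · intro v v' h
    refine eq_of_Lm v v' fun i => ?_
    rw [← FF_apply, ← FF_apply, h]
  · intro z
    have h1 : ∀ i : Fin 3, ∃ c : MM d ⊕ TT d × Fin 2 → R, Lm R (i + 1) c = z i ∧
        ∀ k, k ≠ (i : ℕ) + 1 → Lm R k c = 0 := fun i => exists_Lm _ (by omega) _ (z i).2
    choose c hc hc' using h1
    refine ⟨∑ i, c i, ?_⟩
    funext k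
    apply Subtype.ext
    rw [FF_apply, map_sum, Finset.sum_eq_single k]
    · exact hc k
    · intro i _ hi
      refine hc' i _ ?_
      intro h
      exact hi (Fin.ext (by omega))
    · intro h; exact absurd (Finset.mem_univ k) h

lemma relIndex_comp (L : Submodule R (FreeLieAlgebra R (Fin d))) (n : ℕ) :
    L.toAddSubgroup.relIndex (comp R d n).toAddSubgroup =
      cardQuot (L.comap (comp R d n).subtype) := rfl

lemma cardQuot_toN1 (Λ : Fin 4 → Submodule R (FreeLieAlgebra R (Fin d))) :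
    cardQuot (toN R Λ).1 = ∏ i : Fin 3,
      (Λ i.castSucc).toAddSubgroup.relIndex (comp R d (i + 1)).toAddSubgroup := by
  set p : ∀ i : Fin 3, Submodule R (comp R d (i + 1)) :=
    fun i => (Λ i.castSucc).comap (comp R d (i + 1)).subtype with hp
  set G := LinearEquiv.ofBijective (FF R d) FF_bijective with hG
  have h1 : (toN R Λ).1.map (G : (MM d ⊕ TT d × Fin 2 → R) →ₗ[R] (∀ i : Fin 3, comp R d (i + 1))) =
      Submodule.pi Set.univ p := by
    ext z
    obtain ⟨v, rfl⟩ := FF_bijective.2 z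
    constructor
    · rintro ⟨v', hv', h⟩
      have hv : v' = v := FF_bijective.1 h
      subst hv
      rw [Submodule.mem_pi]
      intro i _
      exact (mem_toN Λ _).1 hv' i
    · intro h
      refine ⟨v, ?_, rfl⟩
      rw [SetLike.mem_coe, mem_toN]
      intro i
      exact (Submodule.mem_pi.1 h) i trivial
  rw [cardQuot_apply, Nat.card_congr (Submodule.Quotient.equiv _ _ G h1).toEquiv,
    Nat.card_congr (Submodule.quotientPi p).toEquiv, Nat.card_pi]
  exact Finset.prod_congr rfl fun i _ => rfl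

lemma comp_four_eq : comp R d 4 = LinearMap.range (LC4 R) := by
  apply le_antisymm
  · rw [LC4, lc_range]; exact comp_le_b4
  · rw [LC4, lc_range, span_le]
    rintro _ ⟨x, rfl⟩
    refine lnb_mem_comp _ 3 ?_
    rw [bw4]
    split_ifs <;> rfl

lemma cardQuot_toN2 (Λ : Fin 4 → Submodule R (FreeLieAlgebra R (Fin d))) :
    cardQuot (toN R Λ).2 = (Λ 3).toAddSubgroup.relIndex (comp R d 4).toAddSubgroup := by
  have h := relIndex_comap_lc (b4 R) (Λ 3)
  have h2 : LinearMap.range (lc (b4 R)) = comp R d 4 := comp_four_eq.symm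
  rw [h2] at h
  exact h.symm

lemma idx_toN (Λ : Fin 4 → Submodule R (FreeLieAlgebra R (Fin d))) :
    idx R 4 d Λ = cardQuot (toN R Λ).1 * cardQuot (toN R Λ).2 := by
  rw [idx, Fin.prod_univ_castSucc, cardQuot_toN1, cardQuot_toN2]
  rfl

lemma lie_comp_one (L L' : Submodule R (FreeLieAlgebra R (Fin d)))
    (h : ∀ j, ∀ u ∈ L, brk j u ∈ L') : ∀ u ∈ L, ∀ v ∈ comp R d 1, ⁅u, v⁆ ∈ L' := by
  intro u hu v hv
  rw [comp_one] at hv
  obtain ⟨y, rfl⟩ := hv
  rw [lc_apply (b1 R d), lie_sum]
  refine L'.sum_mem fun j _ => ?_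
  rw [lie_smul]
  exact L'.smul_mem _ (h j u hu)

lemma key_iff (Λ : Fin 4 → Submodule R (FreeLieAlgebra R (Fin d))) (n : ℕ) (hn : n ≠ 0)
    (hle : ∀ i : Fin 4, Λ i ≤ comp R d (i + 1)) :
    (IsGradedIdeal R 4 d Λ ∧ idx R 4 d Λ = n) ↔ (lieSys d).P R n (toN R Λ) := by
  constructor
  · rintro ⟨hI, hidx⟩
    have hb : ∀ i k : Fin 4, (k : ℕ) = i + 1 → ∀ j : Fin d, ∀ u ∈ Λ i, brk j u ∈ Λ k := by
      intro i k hik j u hu
      exact hI.lie i k hik u hu _ (by rw [comp]; exact Submodule.subset_span ⟨j, rfl⟩)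
    refine ⟨?_, ?_, ?_, ?_⟩
    · intro v hv c
      rw [mem_toN] at hv ⊢
      intro i
      rw [Lm_apply, cut_cut]
      split_ifs
      · exact hv i
      · rw [map_zero]; exact Submodule.zero_mem _
    · intro j
      rw [Submodule.map_le_iff_le_comap]
      intro v hv
      rw [mem_toN] at hv
      rw [Submodule.mem_comap, mem_toN]
      intro i
      rcases i with ⟨i, hi⟩
      cases i with
      | zero =>
        have := Lm_T_one (R := R) j v
        change Lm R 1 _ ∈ _
        rw [this]; exact Submodule.zero_mem _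
      | succ i =>
        have h1 := Lm_T (R := R) (i + 1) (by omega) j v
        change Lm R (i + 1 + 1) _ ∈ _
        rw [h1]
        exact hb (⟨i, by omega⟩ : Fin 3).castSucc (⟨i + 1, hi⟩ : Fin 3).castSucc rfl j _
          (hv ⟨i, by omega⟩)
    · intro j
      rw [Submodule.map_le_iff_le_comap]
      intro v hv
      rw [mem_toN] at hv
      change LC4 R (tl R ((lieSys d).T4 j) v) ∈ Λ 3
      rw [LC4_T4]
      exact hb 2 3 rfl j _ (hv 2)
    · rw [← idx_toN]; exact hidx
  · rintro ⟨_, hT, hT4, hc⟩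
    have hidx : idx R 4 d Λ = n := by rw [idx_toN]; exact hc
    have hc' : ∀ (i : Fin 3) (u), u ∈ Λ i.castSucc → ∃ c ∈ (toN R Λ).1, Lm R (i + 1) c = u := by
      intro i u hu
      obtain ⟨c, h1, h2⟩ := exists_Lm (R := R) ((i : ℕ) + 1) (by omega) u (hle i.castSucc hu)
      refine ⟨c, ?_, h1⟩
      rw [mem_toN]
      intro k
      by_cases hk : k = i
      · subst hk; rw [h1]; exact hu
      · rw [h2 _ (by intro h; exact hk (Fin.ext (by omega)))]; exact Submodule.zero_mem _
    refine ⟨⟨hle, ?_, ?_⟩, hidx⟩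
    · intro i h0
      apply hn
      rw [← hidx, idx]
      exact Finset.prod_eq_zero (Finset.mem_univ i) h0
    · intro i k hik
      apply lie_comp_one
      intro j u hu
      rcases i with ⟨i, hi⟩
      rcases k with ⟨k, hk⟩
      simp only at hik
      subst hik
      obtain ⟨c, hcm, rfl⟩ := hc' ⟨i, by omega⟩ u hu
      have hi3 : i < 2 ∨ i = 2 := by omega
      rcases hi3 with h | h
      · have h1 := Lm_T (R := R) (i + 1) (by omega) j c
        change brk j (Lm R (i + 1) c) ∈ _
        rw [← h1]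
        have h2 := hT j ⟨c, hcm, rfl⟩
        rw [mem_toN] at h2
        exact h2 ⟨i + 1, by omega⟩
      · subst h
        change brk j (Lm R 3 c) ∈ Λ 3
        rw [← LC4_T4]
        exact hT4 j ⟨c, hcm, rfl⟩

lemma toN_injective (Λ Λ' : Fin 4 → Submodule R (FreeLieAlgebra R (Fin d)))
    (hle : ∀ i : Fin 4, Λ i ≤ comp R d (i + 1)) (hle' : ∀ i : Fin 4, Λ' i ≤ comp R d (i + 1))
    (h : toN R Λ = toN R Λ') : Λ = Λ' := by
  have key : ∀ (Λ Λ' : Fin 4 → Submodule R (FreeLieAlgebra R (Fin d)))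
      (_ : ∀ i : Fin 4, Λ i ≤ comp R d (i + 1)) (_ : toN R Λ = toN R Λ') (i : Fin 4), Λ i ≤ Λ' i := by
    intro Λ Λ' hle h i
    induction i using Fin.lastCases with
    | last =>
      intro u hu
      have h1 := hle (Fin.last 3) hu
      have h2 : comp R d ((Fin.last 3 : Fin 4) + 1) = comp R d 4 := rfl
      rw [h2, comp_four_eq] at h1
      obtain ⟨c, rfl⟩ := h1
      have h3 : c ∈ (toN R Λ).2 := hu
      rw [h] at h3
      exact h3
    | cast i =>
      intro u hu
      obtain ⟨c, h1, h2⟩ := exists_Lm (R := R) ((i : ℕ) + 1) (by omega) u (hle i.castSucc hu)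
      have h3 : c ∈ (toN R Λ).1 := by
        rw [mem_toN]
        intro k
        by_cases hk : k = i
        · subst hk; rw [h1]; exact hu
        · rw [h2 _ (by intro h; exact hk (Fin.ext (by omega)))]; exact Submodule.zero_mem _
      rw [h, mem_toN] at h3
      rw [← h1]; exact h3 i
  funext i
  exact le_antisymm (key Λ Λ' hle h i) (key Λ' Λ hle' h.symm i)

lemma toN_surjective (N : Submodule R (MM d ⊕ TT d × Fin 2 → R) × Submodule R (KK d → R))
    (hN : Hmg (lieSys d).lv N.1) : ∃ Λ : Fin 4 → Submodule R (FreeLieAlgebra R (Fin d)),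
      (∀ i : Fin 4, Λ i ≤ comp R d (i + 1)) ∧ toN R Λ = N := by
  refine ⟨Fin.snoc (fun i : Fin 3 => N.1.map (Lm R ((i : ℕ) + 1))) (N.2.map (LC4 R)), ?_, ?_⟩
  · intro i
    induction i using Fin.lastCases with
    | last =>
      rw [Fin.snoc_last]
      rintro _ ⟨v, _, rfl⟩
      have h2 : comp R d ((Fin.last 3 : Fin 4) + 1) = comp R d 4 := rfl
      rw [h2, comp_four_eq]
      exact ⟨v, rfl⟩
    | cast i =>
      rw [Fin.snoc_castSucc]
      rintro _ ⟨v, _, rfl⟩
      exact Lm_mem _ (Nat.succ_ne_zero _) v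
  · refine Prod.ext ?_ ?_
    · ext v
      rw [mem_toN]
      simp only [Fin.snoc_castSucc]
      constructor
      · intro h
        have h1 : ∀ i : Fin 3, cut (lieSys d).lv (i + 1) v ∈ N.1 := by
          intro i
          obtain ⟨v', hv', h2⟩ := h i
          rw [Lm_apply, Lm_apply] at h2
          rw [← LC_injective h2]
          exact hN v' hv' _
        have h2 : v = ∑ i : Fin 3, cut (lieSys d).lv (i + 1) v := by
          funext x
          have h1 := lt_length x
          have h4 : (lieSys d).lv x = (lt x).length := rfl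
          rw [Finset.sum_apply, Finset.sum_eq_single ⟨(lieSys d).lv x - 1, by omega⟩]
          · simp only [cut]
            rw [if_pos (by omega)]
          · intro i _ hi
            simp only [cut]
            rw [if_neg]
            intro h
            exact hi (Fin.ext (by simp only; omega))
          · intro h; exact absurd (Finset.mem_univ _) h
        rw [h2]
        exact N.1.sum_mem fun i _ => h1 i
      · intro h i
        exact ⟨v, h, rfl⟩
    · have h3 : (Fin.snoc (fun i : Fin 3 => N.1.map (Lm R ((i : ℕ) + 1))) (N.2.map (LC4 R)) :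
          Fin 4 → Submodule R (FreeLieAlgebra R (Fin d))) 3 = N.2.map (LC4 R) :=
        Fin.snoc_last (n := 3) _ _
      change (Submodule.comap (LC4 R) _) = N.2
      rw [h3, Submodule.comap_map_eq_of_injective LC4_injective]

theorem numIdeals_four (R : Type) [CommRing R] (d n : ℕ) (hn : n ≠ 0) :
    numIdeals R 4 d n = Nat.card {N // (lieSys d).P R n N} := by
  unfold numIdeals
  refine Nat.card_congr (Equiv.ofBijective
    (fun Λ => ⟨toN R Λ.1, (key_iff Λ.1 n hn Λ.2.1.le).1 Λ.2⟩) ⟨?_, ?_⟩)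
  · intro Λ Λ' h
    exact Subtype.ext (toN_injective Λ.1 Λ'.1 Λ.2.1.le Λ'.2.1.le (congrArg Subtype.val h))
  · rintro ⟨N, hN⟩
    obtain ⟨Λ, hle, rfl⟩ := toN_surjective N hN.1
    exact ⟨⟨Λ, (key_iff Λ n hn hle).2 hN⟩, rfl⟩

end

end Four

end GradedTop
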