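import Pool.Agent.Lib.GradedFour.Basic

/-!
# Totally ramified extensions of Witt rings
-/

namespace GradedTop

namespace Four

open IsLocalRing Submodule Module Polynomial

section Ram

variable (p : ℕ) [hp : Fact p.Prime] (f e : ℕ)

/-- The polynomial `X^e - p`. -/
noncomputable def ramPoly : (WR p f)[X] := X ^ e - C (p : WR p f)

lemma ramPoly_monic (he : e ≠ 0) : (ramPoly p f e).Monic := monic_X_pow_sub_C _ he

lemma ramPoly_natDegree : (ramPoly p f e).natDegree = e := natDegree_X_pow_sub_C

lemma WR_p_ne_zero : (p : WR p f) ≠ 0 := (WittVector.irreducible p).ne_zero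

lemma ramPoly_irreducible (he : e ≠ 0) : Irreducible (ramPoly p f e) := by
  have hirr : Irreducible (p : WR p f) := WittVector.irreducible p
  have hprime : (Ideal.span {(p : WR p f)}).IsPrime := by
    rw [Ideal.span_singleton_prime hirr.ne_zero]
    exact hirr.prime
  refine Polynomial.IsEisensteinAt.irreducible (𝓟 := Ideal.span {(p : WR p f)}) ⟨?_, ?_, ?_⟩ hprime
    (ramPoly_monic p f e he).isPrimitive (by rw [ramPoly_natDegree]; omega)
  · rw [(ramPoly_monic p f e he).leadingCoeff]
    intro h
    exact hprime.ne_top ((Ideal.eq_top_iff_one _).2 h)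
  · intro n hn
    rw [ramPoly_natDegree] at hn
    rw [ramPoly, coeff_sub, coeff_X_pow, if_neg (by omega), zero_sub]
    apply Submodule.neg_mem
    rw [coeff_C]
    split_ifs
    · exact Ideal.subset_span rfl
    · exact Submodule.zero_mem _
  · rw [ramPoly, coeff_sub, coeff_X_pow, if_neg (by omega), zero_sub, coeff_C_zero]
    intro h
    rw [Submodule.neg_mem_iff, Ideal.span_singleton_pow, Ideal.mem_span_singleton] at h
    obtain ⟨c, hc⟩ := h
    have h1 : (p : WR p f) * ((p : WR p f) * c - 1) = 0 := by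
      have : (p : WR p f) * ((p : WR p f) * c - 1) = (p : WR p f) ^ 2 * c - (p : WR p f) := by ring
      rw [this, ← hc, sub_self]
    rcases mul_eq_zero.1 h1 with h2 | h2
    · exact hirr.ne_zero h2
    · exact hirr.not_isUnit (IsUnit.of_mul_eq_one c (sub_eq_zero.1 h2))

/-- The ring `W[p^{1/e}]`. -/
abbrev RamR : Type := AdjoinRoot (ramPoly p f e)

lemma RamR_isDomain (he : e ≠ 0) : IsDomain (RamR p f e) :=
  AdjoinRoot.isDomain_of_prime (ramPoly_irreducible p f e he).prime

/-- the uniformiser -/
noncomputable abbrev ramU : RamR p f e := AdjoinRoot.root (ramPoly p f e)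

lemma ramU_pow : ramU p f e ^ e = (p : RamR p f e) := by
  have h := AdjoinRoot.mk_self (f := ramPoly p f e)
  have h1 : AdjoinRoot.mk (ramPoly p f e) (ramPoly p f e) =
      AdjoinRoot.mk (ramPoly p f e) (X ^ e - C (p : WR p f)) := rfl
  rw [h1, map_sub, map_pow, AdjoinRoot.mk_X, AdjoinRoot.mk_C, sub_eq_zero] at h
  rw [ramU, h]
  simp

/-- the map to `F[X]/X^e` -/
noncomputable def ramPi : RamR p f e →+* (GaloisField p f)[X] ⧸
    Ideal.span {(X : (GaloisField p f)[X]) ^ e} :=
  AdjoinRoot.lift
    ((Ideal.Quotient.mk (Ideal.span {(X : (GaloisField p f)[X]) ^ e})).comp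
      (C.comp WittVector.constantCoeff)) (Ideal.Quotient.mk _ X) (by
      rw [ramPoly, eval₂_sub, eval₂_pow, eval₂_X, eval₂_C]
      have h1 : WittVector.constantCoeff (p : WR p f) = (0 : GaloisField p f) := by
        rw [map_natCast]; exact CharP.cast_eq_zero _ p
      rw [RingHom.comp_apply, RingHom.comp_apply, h1, map_zero, map_zero, sub_zero, ← map_pow,
        Ideal.Quotient.eq_zero_iff_mem]
      exact Ideal.subset_span rfl)

lemma ramPi_mk (h : (WR p f)[X]) : ramPi p f e (AdjoinRoot.mk _ h) =
    Ideal.Quotient.mk _ (h.map WittVector.constantCoeff) := by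
  rw [ramPi, AdjoinRoot.lift_mk]
  induction h using Polynomial.induction_on' with
  | add a b ha hb => rw [eval₂_add, ha, hb, Polynomial.map_add, map_add]
  | monomial n a =>
    rw [eval₂_monomial, Polynomial.map_monomial, ← C_mul_X_pow_eq_monomial, map_mul, map_pow]
    rfl

lemma ramPi_surj : Function.Surjective (ramPi p f e) := by
  intro y
  obtain ⟨g, rfl⟩ := Ideal.Quotient.mk_surjective y
  have hs : Function.Surjective (WittVector.constantCoeff : WR p f →+* GaloisField p f) :=
    WittVector.constantCoeff_surjective p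
  obtain ⟨h, rfl⟩ := Polynomial.map_surjective _ hs g
  exact ⟨AdjoinRoot.mk _ h, ramPi_mk p f e h⟩

lemma constantCoeff_eq_zero (x : WR p f) (hx : WittVector.constantCoeff x = 0) :
    ∃ c, x = (p : WR p f) * c := by
  have h1 : x ∈ Ideal.span {(p : WR p f)} := by
    have h2 := WittVector.quotientPEquiv_mk (p := p) (k := GaloisField p f) x
    rw [hx] at h2
    have h3 := (WittVector.quotientPEquiv (p := p) (k := GaloisField p f)).injective
      (h2.trans (map_zero _).symm)
    exact Ideal.Quotient.eq_zero_iff_mem.1 h3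
  exact Ideal.mem_span_singleton.1 h1

lemma map_constantCoeff_eq_zero (h : (WR p f)[X]) (hh : h.map WittVector.constantCoeff = 0) :
    ∃ g, h = C (p : WR p f) * g := by
  have : C (p : WR p f) ∣ h := by
    rw [Polynomial.C_dvd_iff_dvd_coeff]
    intro n
    have h1 : WittVector.constantCoeff (h.coeff n) = 0 := by
      rw [← Polynomial.coeff_map, hh, coeff_zero]
    exact constantCoeff_eq_zero p f _ h1
  exact this

lemma ramPi_ker : RingHom.ker (ramPi p f e) = Ideal.span {ramU p f e} ^ e := by
  rw [Ideal.span_singleton_pow]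
  apply le_antisymm
  · intro x hx
    obtain ⟨h, rfl⟩ := AdjoinRoot.mk_surjective x
    rw [RingHom.mem_ker, ramPi_mk, Ideal.Quotient.eq_zero_iff_mem, Ideal.mem_span_singleton] at hx
    obtain ⟨g, hg⟩ := hx
    have hs : Function.Surjective (WittVector.constantCoeff : WR p f →+* GaloisField p f) :=
      WittVector.constantCoeff_surjective p
    obtain ⟨g', rfl⟩ := Polynomial.map_surjective _ hs g
    have h1 : (h - X ^ e * g').map WittVector.constantCoeff = 0 := by
      rw [Polynomial.map_sub, hg, Polynomial.map_mul, Polynomial.map_pow, Polynomial.map_X,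
        sub_self]
    obtain ⟨g2, hg2⟩ := map_constantCoeff_eq_zero p f _ h1
    have h2 : h = X ^ e * g' + C (p : WR p f) * g2 := by rw [← hg2]; ring
    rw [Ideal.mem_span_singleton, h2, map_add, map_mul, map_mul, map_pow, AdjoinRoot.mk_X,
      AdjoinRoot.mk_C]
    refine dvd_add (dvd_mul_right _ _) ?_
    have h3 : ((p : WR p f) : AdjoinRoot (ramPoly p f e)) = ramU p f e ^ e := by
      rw [ramU_pow]; simp
    rw [h3]
    exact dvd_mul_right _ _
  · rw [Ideal.span_le, Set.singleton_subset_iff, SetLike.mem_coe, RingHom.mem_ker, map_pow, ramU,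
      ← AdjoinRoot.mk_X, ramPi_mk, Polynomial.map_X, ← map_pow, Ideal.Quotient.eq_zero_iff_mem]
    exact Ideal.subset_span rfl

/-- the residue map -/
noncomputable def ramRes (he : e ≠ 0) : RamR p f e →+* GaloisField p f :=
  AdjoinRoot.lift WittVector.constantCoeff 0 (by
    rw [ramPoly, eval₂_sub, eval₂_pow, eval₂_X, eval₂_C, zero_pow he, zero_sub, neg_eq_zero,
      map_natCast]
    exact CharP.cast_eq_zero _ p)

lemma ramRes_surj (he : e ≠ 0) : Function.Surjective (ramRes p f e he) := by
  intro y
  obtain ⟨x, rfl⟩ := WittVector.constantCoeff_surjective p (R := GaloisField p f) y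
  exact ⟨AdjoinRoot.of _ x, by rw [ramRes, AdjoinRoot.lift_of]⟩

lemma ramRes_ker (he : e ≠ 0) : RingHom.ker (ramRes p f e he) = Ideal.span {ramU p f e} := by
  apply le_antisymm
  · intro x hx
    obtain ⟨h, rfl⟩ := AdjoinRoot.mk_surjective x
    rw [RingHom.mem_ker, ramRes, AdjoinRoot.lift_mk] at hx
    have h1 : h = X * h.divX + C (h.coeff 0) := (X_mul_divX_add h).symm
    have h2 : WittVector.constantCoeff (h.coeff 0) = 0 := by
      rw [h1, eval₂_add, eval₂_mul, eval₂_X, zero_mul, zero_add, eval₂_C] at hx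
      simpa using hx
    obtain ⟨c, hc⟩ := constantCoeff_eq_zero p f _ h2
    rw [Ideal.mem_span_singleton, h1, map_add, map_mul, AdjoinRoot.mk_X, hc, C_mul, map_mul,
      AdjoinRoot.mk_C]
    refine dvd_add (dvd_mul_right _ _) ?_
    have h3 : ((p : WR p f) : AdjoinRoot (ramPoly p f e)) = ramU p f e ^ e := by
      rw [ramU_pow]; simp
    rw [h3]
    exact dvd_mul_of_dvd_left (dvd_pow_self _ he) _
  · rw [Ideal.span_le, Set.singleton_subset_iff, SetLike.mem_coe, RingHom.mem_ker, ramRes,
      AdjoinRoot.lift_root]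

lemma ramU_max (he : e ≠ 0) : (Ideal.span {ramU p f e}).IsMaximal := by
  rw [← ramRes_ker p f e he]
  exact RingHom.ker_isMaximal_of_surjective _ (ramRes_surj p f e he)

lemma RamR_unique (he : e ≠ 0) (I : Ideal (RamR p f e)) (hI : I.IsMaximal) :
    I = Ideal.span {ramU p f e} := by
  have hfin : Module.Finite (WR p f) (RamR p f e) := (ramPoly_monic p f e he).finite_adjoinRoot
  have h1 : (I.comap (algebraMap (WR p f) (RamR p f e))).IsMaximal :=
    Ideal.isMaximal_comap_of_isIntegral_of_isMaximal I
  have h2 : (p : WR p f) ∈ I.comap (algebraMap (WR p f) (RamR p f e)) := by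
    rw [IsLocalRing.eq_maximalIdeal h1, WR_max]
    exact Ideal.subset_span rfl
  rw [Ideal.mem_comap, map_natCast, ← ramU_pow] at h2
  have h3 : ramU p f e ∈ I := hI.isPrime.mem_of_pow_mem _ h2
  exact ((ramU_max p f e he).eq_of_le hI.ne_top (by rwa [Ideal.span_singleton_le_iff_mem])).symm

lemma RamR_isLocal (he : e ≠ 0) : IsLocalRing (RamR p f e) :=
  IsLocalRing.of_unique_max_ideal
    ⟨Ideal.span {ramU p f e}, ramU_max p f e he, fun I hI => RamR_unique p f e he I hI⟩

lemma RamR_charZero (he : e ≠ 0) : CharZero (RamR p f e) := by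
  have hinj : Function.Injective (AdjoinRoot.of (ramPoly p f e)) := by
    apply AdjoinRoot.of.injective_of_degree_ne_zero
    rw [degree_eq_natDegree (ramPoly_monic p f e he).ne_zero, ramPoly_natDegree]
    exact_mod_cast he
  refine ⟨fun a b hab => ?_⟩
  rw [← map_natCast (AdjoinRoot.of (ramPoly p f e)), ← map_natCast (AdjoinRoot.of (ramPoly p f e))]
    at hab
  exact Nat.cast_injective (hinj hab)

lemma ramU_ne_zero (he : e ≠ 0) : ramU p f e ≠ 0 := by
  have := RamR_charZero p f e he
  intro h
  have h1 := ramU_pow p f e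
  rw [h, zero_pow he] at h1
  exact hp.out.ne_zero (by exact_mod_cast h1.symm)

lemma RamR_maximalIdeal (he : e ≠ 0) :
    haveI := RamR_isLocal p f e he
    maximalIdeal (RamR p f e) = Ideal.span {ramU p f e} := by
  have := RamR_isLocal p f e he
  exact (IsLocalRing.eq_maximalIdeal (ramU_max p f e he)).symm

lemma RamR_dvr (he : e ≠ 0) :
    haveI := RamR_isDomain p f e he
    IsDiscreteValuationRing (RamR p f e) := by
  have := RamR_isDomain p f e he
  have := RamR_isLocal p f e he
  have hnf : ¬ IsField (RamR p f e) := by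
    intro h
    have h1 : maximalIdeal (RamR p f e) = ⊥ := IsLocalRing.isField_iff_maximalIdeal_eq.1 h
    rw [RamR_maximalIdeal p f e he, Ideal.span_singleton_eq_bot] at h1
    exact ramU_ne_zero p f e he h1
  refine ((IsDiscreteValuationRing.TFAE (RamR p f e) hnf).out 0 4).2 ?_
  exact ⟨⟨ramU p f e, RamR_maximalIdeal p f e he⟩⟩

lemma RamR_precomplete (he : e ≠ 0) : IsPrecomplete (Ideal.span {ramU p f e}) (RamR p f e) := by
  have hmon := ramPoly_monic p f e he
  set b := AdjoinRoot.powerBasisAux' hmon with hb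
  have hpow : ∀ k : ℕ, Ideal.span {ramU p f e} ^ (e * k) = Ideal.span {(p : RamR p f e) ^ k} := by
    intro k
    rw [Ideal.span_singleton_pow, pow_mul, ramU_pow]
  -- coordinates of multiples of `p ^ k`
  have hcoord : ∀ (k : ℕ) (x : RamR p f e), x ∈ Ideal.span {ramU p f e} ^ (e * k) →
      ∀ i, b.repr x i ∈ Ideal.span {(p : WR p f)} ^ k := by
    intro k x hx i
    rw [hpow, Ideal.mem_span_singleton] at hx
    obtain ⟨c, rfl⟩ := hx
    have h1 : (p : RamR p f e) ^ k * c = ((p : WR p f) ^ k) • c := by
      rw [Algebra.smul_def, map_pow, map_natCast]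
    rw [h1, map_smul, Finsupp.smul_apply, smul_eq_mul, Ideal.span_singleton_pow,
      Ideal.mem_span_singleton]
    exact dvd_mul_right _ _
  have hcoord' : ∀ (k : ℕ) (x : RamR p f e), (∀ i, b.repr x i ∈ Ideal.span {(p : WR p f)} ^ k) →
      x ∈ Ideal.span {ramU p f e} ^ (e * k) := by
    intro k x hx
    rw [hpow, ← b.sum_repr x]
    refine Submodule.sum_mem _ fun i _ => ?_
    have h1 := hx i
    rw [Ideal.span_singleton_pow, Ideal.mem_span_singleton] at h1
    obtain ⟨c, hc⟩ := h1
    rw [hc, Ideal.mem_span_singleton, Algebra.smul_def, map_mul, map_pow, map_natCast, mul_assoc]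
    exact dvd_mul_right _ _
  have hW : IsPrecomplete (Ideal.span {(p : WR p f)}) (WR p f) := inferInstance
  rw [isPrecomplete_iff]
  intro g hg
  have hL : ∀ i, ∃ L : WR p f, ∀ n,
      b.repr (g (e * n)) i ≡ L [SMOD (Ideal.span {(p : WR p f)} ^ n • ⊤ :
        Submodule (WR p f) (WR p f))] := by
    intro i
    apply hW.prec
    intro m n hmn
    have h1 := hg (Nat.mul_le_mul_left e hmn)
    rw [SModEq.sub_mem, smul_eq_mul, Ideal.mul_top] at h1 ⊢
    have h2 := hcoord m _ h1 i
    rwa [map_sub, Finsupp.sub_apply] at h2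
  choose L hL using hL
  refine ⟨∑ i, L i • b i, fun n => ?_⟩
  have h1 : g (e * n) - ∑ i, L i • b i ∈ Ideal.span {ramU p f e} ^ (e * n) := by
    apply hcoord'
    intro i
    have h2 := hL i n
    rw [SModEq.sub_mem, smul_eq_mul, Ideal.mul_top] at h2
    rw [map_sub, Finsupp.sub_apply]
    have h3 : b.repr (∑ i, L i • b i) i = L i := by
      rw [b.repr_sum_self]
    rwa [h3]
  have hle : n ≤ e * n := Nat.le_mul_of_pos_left n (Nat.pos_of_ne_zero he)
  have h4 := hg hle
  rw [SModEq.sub_mem, smul_eq_mul, Ideal.mul_top] at h4 ⊢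
  have h5 : g n - ∑ i, L i • b i = (g n - g (e * n)) + (g (e * n) - ∑ i, L i • b i) := by ring
  rw [h5]
  exact Ideal.add_mem _ h4 (Ideal.pow_le_pow_right hle h1)

end Ram

theorem exists_ram (p : ℕ) [Fact p.Prime] (f e : ℕ) (hf : f ≠ 0) (he : e ≠ 0) :
    ∃ (R : Type) (_ : CommRing R) (_ : IsDomain R) (_ : IsDiscreteValuationRing R) (_ : CharZero R)
      (_ : IsAdicComplete (maximalIdeal R) R) (_ : Finite (ResidueField R))
      (_ : CharP (ResidueField R) p)
      (π : R →+* (GaloisField p f)[X] ⧸ Ideal.span {(X : (GaloisField p f)[X]) ^ e}),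
      resCard R = p ^ f ∧ Function.Surjective π ∧ RingHom.ker π = maximalIdeal R ^ e := by
  have := RamR_isDomain p f e he
  have hdvr := RamR_dvr p f e he
  have := RamR_charZero p f e he
  have hmax : maximalIdeal (RamR p f e) = Ideal.span {ramU p f e} :=
    (IsLocalRing.eq_maximalIdeal (ramU_max p f e he)).symm
  have hcomp : IsAdicComplete (maximalIdeal (RamR p f e)) (RamR p f e) := by
    have : IsPrecomplete (maximalIdeal (RamR p f e)) (RamR p f e) := by
      rw [hmax]; exact RamR_precomplete p f e he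
    have : IsHausdorff (maximalIdeal (RamR p f e)) (RamR p f e) := inferInstance
    exact { }
  let E : ResidueField (RamR p f e) ≃+* GaloisField p f :=
    (Ideal.quotEquivOfEq (hmax.trans (ramRes_ker p f e he).symm)).trans
      (RingHom.quotientKerEquivOfSurjective (ramRes_surj p f e he))
  have hfin : Finite (ResidueField (RamR p f e)) := Finite.of_equiv _ E.symm.toEquiv
  have hchar : CharP (ResidueField (RamR p f e)) p :=
    charP_of_injective_ringHom (f := (E.symm : GaloisField p f →+* ResidueField (RamR p f e)))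
      E.symm.injective p
  refine ⟨RamR p f e, inferInstance, inferInstance, hdvr, inferInstance, hcomp, hfin, hchar,
    ramPi p f e, ?_, ramPi_surj p f e, ?_⟩
  · rw [resCard, Nat.card_congr E.toEquiv, GaloisField.card p f hf]
  · rw [ramPi_ker, hmax]

end Four

end GradedTop
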