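import Pool.Agent.Lib.GradedFour.Basic

/-!
# The dominating region: definitions
-/

namespace GradedTop

namespace Four

variable {K : Type}

/-- exponents in the dominating region -/
def Reg4 {X : Type} [Fintype X] (c : X → ℕ) (N k : ℕ) : Type :=
  {E : X → ℕ // (∀ x, c x * N ≤ E x ∧ E x < (c x + 1) * N) ∧ ∑ x, E x = k}

/-- the region constants -/
def regc {M T : Type} (lv : M ⊕ T × Fin 2 → ℕ) : (M ⊕ T × Fin 2) ⊕ K → ℕ
  | Sum.inl (Sum.inl m) => 5 - lv (Sum.inl m)
  | Sum.inl (Sum.inr (_, c)) => 1 + c.1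
  | Sum.inr _ => 0

end Four

end GradedTop
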