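import Pool.Agent.Lib.GradedFour.Basic

/-!
# Counting filtrations above a given flag (module F)
-/

namespace GradedTop

namespace Four

open IsLocalRing Submodule Module

section Flag

variable {F : Type} [Field F]

/-- Two flags with equal dimensions are related by a linear isomorphism. -/
lemma exists_flag_equiv : ∀ (e : ℕ) (V V' : Type) [AddCommGroup V] [Module F V]
    [AddCommGroup V'] [Module F V'] [FiniteDimensional F V] [FiniteDimensional F V']
    (_ : finrank F V = finrank F V') (U : Fin e → Submodule F V) (U' : Fin e → Submodule F V')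
    (_ : Monotone U) (_ : Monotone U') (_ : ∀ n, finrank F (U n) = finrank F (U' n)),
    ∃ g : V ≃ₗ[F] V', ∀ n, (U n).map (g : V →ₗ[F] V') = U' n
  | 0, V, V', _, _, _, _, _, _, hVV, U, U', _, _, _ =>
    ⟨LinearEquiv.ofFinrankEq V V' hVV, fun n => n.elim0⟩
  | e + 1, V, V', _, _, _, _, _, _, hVV, U, U', hU, hU', hd => by
    set A := U (Fin.last e) with hA
    set A' := U' (Fin.last e) with hA'
    have hle : ∀ n, U n ≤ A := fun n => hU (Fin.le_last n)
    have hle' : ∀ n, U' n ≤ A' := fun n => hU' (Fin.le_last n)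
    obtain ⟨g0, hg0⟩ := exists_flag_equiv e A A' (hd _)
      (fun n => (U n.castSucc).comap A.subtype) (fun n => (U' n.castSucc).comap A'.subtype)
      (fun a b h => Submodule.comap_mono (hU (Fin.castSucc_le_castSucc_iff.2 h)))
      (fun a b h => Submodule.comap_mono (hU' (Fin.castSucc_le_castSucc_iff.2 h)))
      (fun n => by
        rw [(Submodule.comapSubtypeEquivOfLe (hle n.castSucc)).finrank_eq,
          (Submodule.comapSubtypeEquivOfLe (hle' n.castSucc)).finrank_eq, hd])
    obtain ⟨C, hC⟩ := Submodule.exists_isCompl A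
    obtain ⟨C', hC'⟩ := Submodule.exists_isCompl A'
    have hCC : finrank F C = finrank F C' := by
      have h1 := Submodule.finrank_add_eq_of_isCompl hC
      have h2 := Submodule.finrank_add_eq_of_isCompl hC'
      have h3 : finrank F A = finrank F A' := hd _
      omega
    set gC := LinearEquiv.ofFinrankEq C C' hCC
    set g : V ≃ₗ[F] V' := (Submodule.prodEquivOfIsCompl A C hC).symm ≪≫ₗ
      ((g0.prodCongr gC) ≪≫ₗ (Submodule.prodEquivOfIsCompl A' C' hC')) with hg
    have hgA : ∀ a : A, g (a : V) = (g0 a : V') := by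
      intro a
      rw [hg, LinearEquiv.trans_apply, LinearEquiv.trans_apply,
        Submodule.prodEquivOfIsCompl_symm_apply_left]
      simp
    have hcomp : (g : V →ₗ[F] V') ∘ₗ A.subtype = A'.subtype ∘ₗ (g0 : A →ₗ[F] A') :=
      LinearMap.ext fun a => hgA a
    refine ⟨g, fun n => ?_⟩
    have h1 : U n = ((U n).comap A.subtype).map A.subtype := by
      rw [Submodule.map_comap_subtype, inf_eq_right.2 (hle n)]
    have h1' : ((U' n).comap A'.subtype).map A'.subtype = U' n := by
      rw [Submodule.map_comap_subtype, inf_eq_right.2 (hle' n)]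
    rw [h1, ← Submodule.map_comp, hcomp, Submodule.map_comp]
    have h2 : ((U n).comap A.subtype).map (g0 : A →ₗ[F] A') = (U' n).comap A'.subtype := by
      refine Fin.lastCases ?_ (fun m => ?_) n
      · have e1 : (U (Fin.last e)).comap A.subtype = ⊤ := by
          rw [← hA]; exact Submodule.comap_subtype_self A
        have e2 : (U' (Fin.last e)).comap A'.subtype = ⊤ := by
          rw [← hA']; exact Submodule.comap_subtype_self A'
        rw [e1, e2, Submodule.map_top, LinearEquiv.range]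
      · exact hg0 m
    rw [h2, h1']

variable {K : Type}

/-- The coordinate subspace of the `n`-th level of the filtration with exponents `E`. -/
def Cd (F : Type) [Field F] (E : K → ℕ) (n : ℕ) : Submodule F (K → F) where
  carrier := {v | ∀ x, n < E x → v x = 0}
  add_mem' := by
    intro v v' h h' x hx
    rw [Pi.add_apply, h x hx, h' x hx, add_zero]
  zero_mem' := fun _ _ => rfl
  smul_mem' := by
    intro r v h x hx
    rw [Pi.smul_apply, h x hx, smul_zero]

lemma mem_Cd {E : K → ℕ} {n : ℕ} {v : K → F} : v ∈ Cd F E n ↔ ∀ x, n < E x → v x = 0 := Iff.rfl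

lemma Cd_mono (E : K → ℕ) {n n' : ℕ} (h : n ≤ n') : Cd F E n ≤ Cd F E n' :=
  fun _ hv x hx => hv x (lt_of_le_of_lt h hx)

lemma single_mem_Cd [DecidableEq K] (E : K → ℕ) (n : ℕ) (x : K) :
    Pi.single x (1 : F) ∈ Cd F E n ↔ E x ≤ n := by
  rw [mem_Cd]
  constructor
  · intro h
    by_contra hlt
    have := h x (not_le.1 hlt)
    rw [Pi.single_eq_same] at this
    exact one_ne_zero this
  · intro h y hy
    have hxy : y ≠ x := by rintro rfl; omega
    rw [Pi.single_eq_of_ne hxy]

/-- restriction to the coordinates that vanish on the coordinate subspace -/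
def resL (F : Type) [Field F] (E : K → ℕ) (n : ℕ) : (K → F) →ₗ[F] ({x // n < E x} → F) where
  toFun v x := v x.1
  map_add' _ _ := rfl
  map_smul' _ _ := rfl

lemma ker_resL (E : K → ℕ) (n : ℕ) : LinearMap.ker (resL F E n) = Cd F E n := by
  ext v
  rw [LinearMap.mem_ker, mem_Cd]
  constructor
  · intro h x hx
    exact congrFun h ⟨x, hx⟩
  · intro h
    funext x
    exact h x.1 x.2

lemma resL_surj (E : K → ℕ) (n : ℕ) : Function.Surjective (resL F E n) := by
  classical
  intro v
  refine ⟨fun x => if h : n < E x then v ⟨x, h⟩ else 0, ?_⟩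
  funext x
  change (if h : n < E x.1 then v ⟨x.1, h⟩ else 0) = v x
  rw [dif_pos x.2]

variable [Fintype K]

lemma finrank_quot_Cd (E : K → ℕ) (n : ℕ) :
    finrank F ((K → F) ⧸ Cd F E n) = Nat.card {x // n < E x} := by
  classical
  rw [← ker_resL, ((resL F E n).quotKerEquivOfSurjective (resL_surj E n)).finrank_eq,
    Module.finrank_pi, Nat.card_eq_fintype_card]

lemma finrank_Cd (E : K → ℕ) (n : ℕ) :
    finrank F (Cd F E n) = Nat.card {x // E x ≤ n} := by
  classical
  have h1 := Submodule.finrank_quotient_add_finrank (Cd F E n)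
  rw [finrank_quot_Cd, Module.finrank_pi] at h1
  have h2 : Nat.card {x // n < E x} + Nat.card {x // E x ≤ n} = Fintype.card K := by
    rw [← Nat.card_eq_fintype_card, ← Nat.card_congr (Equiv.sumCompl fun x => n < E x),
      Nat.card_sum]
    congr 1
    exact Nat.card_congr (Equiv.subtypeEquivRight fun x => not_lt.symm)
  omega

lemma codim_Cd (e : ℕ) (E : K → ℕ) (hE : ∀ x, E x ≤ e) :
    codim (fun n : Fin e => Cd F E n) = ∑ x, E x := by
  classical
  unfold codim
  have h1 : ∀ n : Fin e, finrank F ((K → F) ⧸ Cd F E n) = ∑ x : K, if (n : ℕ) < E x then 1 else 0 := by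
    intro n
    rw [finrank_quot_Cd, Nat.card_eq_fintype_card, Fintype.card_subtype, Finset.card_filter]
  rw [Finset.sum_congr rfl fun n _ => h1 n, Finset.sum_comm]
  refine Finset.sum_congr rfl fun x _ => ?_
  rw [← Finset.card_filter]
  have h2 : (Finset.univ.filter fun n : Fin e => (n : ℕ) < E x) =
      (Finset.univ : Finset (Fin (E x))).map (Fin.castLEEmb (hE x)) := by
    ext n
    simp only [Finset.mem_filter, Finset.mem_univ, true_and, Finset.mem_map]
    constructor
    · intro h
      exact ⟨⟨n, h⟩, rfl⟩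
    · rintro ⟨a, rfl⟩
      exact a.2
  rw [h2, Finset.card_map, Finset.card_univ, Fintype.card_fin]

omit [Fintype K] in
lemma lact_Cd (w : K → ℕ) (u : Fˣ) (E : K → ℕ) (n : ℕ) :
    lact w u (Cd F E n) = Cd F E n := by
  have h1 : ∀ u : Fˣ, ∀ v ∈ Cd F E n, dg w u v ∈ Cd F E n := by
    intro u v hv x hx
    rw [dg_apply, hv x hx, mul_zero]
  apply le_antisymm
  · rw [lact_apply, Submodule.map_le_iff_le_comap]
    intro v hv
    exact h1 u v hv
  · intro v hv
    refine ⟨dg w u⁻¹ v, h1 _ v hv, ?_⟩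
    change dg w u (dg w u⁻¹ v) = v
    rw [← dg_mul, mul_inv_cancel, dg_one]

omit [Fintype K] in
lemma codim_map {e : ℕ} (g : (K → F) ≃ₗ[F] (K → F)) (G : Fin e → Submodule F (K → F)) :
    codim (fun n => (G n).map (g : (K → F) →ₗ[F] (K → F))) = codim G := by
  unfold codim
  refine Finset.sum_congr rfl fun n _ => ?_
  exact (Submodule.Quotient.equiv (G n) _ g rfl).finrank_eq.symm

/-- The action on sequences of subspaces. -/
def lactF (w : K → ℕ) (e : ℕ) : Fˣ →* Equiv.Perm (Fin e → Submodule F (K → F)) :=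
  MonoidHom.mk' (fun u => Equiv.piCongrRight fun _ => lact w u) (by
    intro u u'
    ext1 G
    funext n
    change lact w (u * u') (G n) = lact w u (lact w u' (G n))
    rw [map_mul]
    rfl)

omit [Fintype K] in
lemma lactF_apply (w : K → ℕ) (e : ℕ) (u : Fˣ) (G : Fin e → Submodule F (K → F)) (n : Fin e) :
    lactF w e u G n = lact w u (G n) := rfl

/-- A monotone family of coordinate subspaces comes from exponents. -/
lemma exists_Cd [DecidableEq K] {e : ℕ} (G : Fin e → Submodule F (K → F)) (hG : Monotone G)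
    (hs : ∀ n, ∀ v ∈ G n, ∀ x, Pi.single x (v x) ∈ G n) :
    ∃ E : K → ℕ, (∀ x, E x ≤ e) ∧ (∀ n : Fin e, G n = Cd F E n) ∧
      ∀ (x : K) (n : Fin e), Pi.single x (1 : F) ∈ G n → E x ≤ n := by
  classical
  set E : K → ℕ := fun x => if h : ∃ n : ℕ, ∃ hn : n < e, Pi.single x (1 : F) ∈ G ⟨n, hn⟩ then
    Nat.find h else e with hE
  have hEe : ∀ x, E x ≤ e := by
    intro x
    simp only [hE]
    split_ifs with h
    · obtain ⟨hn, _⟩ := Nat.find_spec h
      exact hn.le
    · exact le_rfl
  have h1 : ∀ (x : K) (n : Fin e), Pi.single x (1 : F) ∈ G n ↔ E x ≤ n := by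
    intro x n
    constructor
    · intro hx
      have h : ∃ n : ℕ, ∃ hn : n < e, Pi.single x (1 : F) ∈ G ⟨n, hn⟩ := ⟨n, n.2, hx⟩
      simp only [hE]
      rw [dif_pos h]
      exact Nat.find_min' h ⟨n.2, hx⟩
    · intro hx
      by_cases h : ∃ n : ℕ, ∃ hn : n < e, Pi.single x (1 : F) ∈ G ⟨n, hn⟩
      · have h2 : E x = Nat.find h := by simp only [hE]; rw [dif_pos h]
        obtain ⟨hn, hmem⟩ := Nat.find_spec h
        refine hG (?_ : (⟨Nat.find h, hn⟩ : Fin e) ≤ n) hmem
        rw [Fin.le_def]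
        rw [h2] at hx
        exact hx
      · have h2 : E x = e := by simp only [hE]; rw [dif_neg h]
        have := n.2
        omega
  refine ⟨E, hEe, fun n => ?_, fun x n h => (h1 x n).1 h⟩
  ext v
  rw [mem_Cd]
  constructor
  · intro hv x hx
    by_contra h0
    have h2 := (G n).smul_mem (v x)⁻¹ (hs n v hv x)
    have h3 : (v x)⁻¹ • (Pi.single x (v x) : K → F) = Pi.single x (1 : F) := by
      rw [← Pi.single_smul, smul_eq_mul, inv_mul_cancel₀ h0]
    rw [h3, h1] at h2
    omega
  · intro hv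
    have h2 : v = ∑ x, (Pi.single x (v x) : K → F) := by
      funext y; simp
    rw [h2]
    refine (G n).sum_mem fun x _ => ?_
    by_cases hx : E x ≤ n
    · have h3 := (G n).smul_mem (v x) ((h1 x n).2 hx)
      rwa [← Pi.single_smul, smul_eq_mul, mul_one] at h3
    · rw [hv x (not_le.1 hx), Pi.single_zero]
      exact (G n).zero_mem

lemma top_count_std [Finite F] [DecidableEq K] (e : ℕ) (ε : K → ℕ) (hε : ∀ x, ε x ≤ e) (m : ℕ)
    (u : Fˣ) (ℓ : ℕ) (hℓ : ℓ.Prime) (m' κ : ℕ) (hu : u ^ (ℓ ^ m') = 1)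
    (hsep : Sep (u ^ (ℓ ^ κ)) (Fintype.card K)) :
    Nat.card {G : Fin e → Submodule F (K → F) //
        Monotone G ∧ (∀ n : Fin e, Cd F ε n ≤ G n) ∧ codim G = m} ≡
      Nat.card {E : K → ℕ // (∀ x, E x ≤ ε x) ∧ ∑ x, E x = m} [MOD ℓ ^ (κ + 1)] := by
  have hfs : Finite (Submodule F (K → F)) :=
    Finite.of_injective (fun N : Submodule F (K → F) => (N : Set (K → F))) SetLike.coe_injective
  set w : K → ℕ := fun i => (Fintype.equivFin K i : ℕ) with hw
  have hwinj : Function.Injective w := fun i j hij =>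
    (Fintype.equivFin K).injective (Fin.ext hij)
  have hwlt : ∀ i, w i < Fintype.card K := fun i => (Fintype.equivFin K i).2
  have h1 := card_modEq_act (lactF w e) (fun G : Fin e → Submodule F (K → F) =>
    Monotone G ∧ (∀ n : Fin e, Cd F ε n ≤ G n) ∧ codim G = m) (by
      rintro g G ⟨h1, h2, h3⟩
      refine ⟨fun a b hab => Submodule.map_mono (h1 hab), fun n => ?_, ?_⟩
      · rw [← lact_Cd w g ε n]
        exact Submodule.map_mono (h2 n)
      · rw [← h3]
        exact codim_map (dg w g) G) u ℓ hℓ m' κ hu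
  refine h1.trans ?_
  have h2 : Nat.card {E : K → ℕ // (∀ x, E x ≤ ε x) ∧ ∑ x, E x = m} =
      Nat.card {G : Fin e → Submodule F (K → F) //
        (Monotone G ∧ (∀ n : Fin e, Cd F ε n ≤ G n) ∧ codim G = m) ∧
        lactF w e (u ^ ℓ ^ κ) G = G} := by
    refine Nat.card_congr (Equiv.ofBijective (fun E => ⟨fun n : Fin e => Cd F E.1 n,
      ⟨fun a b hab => Cd_mono _ hab, fun n v hv x hx => hv x (lt_of_lt_of_le hx (E.2.1 x)), ?_⟩,
      funext fun n => lact_Cd _ _ _ _⟩) ⟨?_, ?_⟩)
    · rw [codim_Cd e E.1 (fun x => (E.2.1 x).trans (hε x)), E.2.2]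
    · intro E E' h
      apply Subtype.ext
      have h3 : ∀ n : Fin e, Cd F E.1 n = Cd F E'.1 n := fun n =>
        congrFun (congrArg Subtype.val h) n
      have key : ∀ (A B : K → ℕ) (_ : ∀ x, B x ≤ e) (_ : ∀ n : Fin e, Cd F A n = Cd F B n) (x : K),
          B x ≤ A x := by
        intro A B hB hAB x
        by_contra hlt
        rw [not_le] at hlt
        have h4 := (single_mem_Cd (F := F) A (A x) x).2 le_rfl
        rw [hAB ⟨A x, lt_of_lt_of_le hlt (hB x)⟩] at h4
        have h5 := (single_mem_Cd (F := F) B (A x) x).1 h4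
        omega
      funext x
      exact le_antisymm (key E'.1 E.1 (fun x => (E.2.1 x).trans (hε x)) (fun n => (h3 n).symm) x)
        (key E.1 E'.1 (fun x => (E'.2.1 x).trans (hε x)) h3 x)
    · rintro ⟨G, ⟨h3, h4, h5⟩, h6⟩
      obtain ⟨E, hE1, hE2, hE3⟩ := exists_Cd G h3 (fun n v hv x =>
        stable_single (G n) w (u ^ ℓ ^ κ) (congrFun h6 n) (hsep.isUnit_sub w hwinj hwlt) v hv x)
      have hEε : ∀ x, E x ≤ ε x := by
        intro x
        rcases lt_or_eq_of_le (hε x) with h | h
        · exact hE3 x ⟨ε x, h⟩ (h4 ⟨ε x, h⟩ ((single_mem_Cd ε (ε x) x).2 le_rfl))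
        · rw [h]; exact hE1 x
      have hGE : G = fun n : Fin e => Cd F E n := funext hE2
      subst hGE
      refine ⟨⟨E, hEε, ?_⟩, rfl⟩
      rw [← h5, codim_Cd e E hE1]
  rw [h2]

theorem top_count (F : Type) [Field F] [Finite F] [DecidableEq K] (e : ℕ)
    (U : Fin e → Submodule F (K → F)) (hU : Monotone U) (ε : K → ℕ) (hε : ∀ x, ε x ≤ e)
    (hdim : ∀ n : Fin e, Nat.card {x // ε x ≤ n} = finrank F (U n)) (m : ℕ) (u : Fˣ) (ℓ : ℕ)
    (hℓ : ℓ.Prime) (m' κ : ℕ) (hu : u ^ (ℓ ^ m') = 1)
    (hsep : Sep (u ^ (ℓ ^ κ)) (Fintype.card K)) :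
    Nat.card {G : Fin e → Submodule F (K → F) // Monotone G ∧ (∀ n, U n ≤ G n) ∧ codim G = m} ≡
      Nat.card {E : K → ℕ // (∀ x, E x ≤ ε x) ∧ ∑ x, E x = m} [MOD ℓ ^ (κ + 1)] := by
  obtain ⟨g, hg⟩ := exists_flag_equiv (F := F) e (K → F) (K → F) rfl U
    (fun n : Fin e => Cd F ε n) hU (fun a b hab => Cd_mono _ hab)
    (fun n => by rw [finrank_Cd, hdim])
  have h3 : Nat.card {G : Fin e → Submodule F (K → F) //
        Monotone G ∧ (∀ n, U n ≤ G n) ∧ codim G = m} =
      Nat.card {G : Fin e → Submodule F (K → F) //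
        Monotone G ∧ (∀ n : Fin e, Cd F ε n ≤ G n) ∧ codim G = m} := by
    refine Nat.card_congr ((Equiv.piCongrRight fun _ : Fin e =>
      (Submodule.orderIsoMapComap g).toEquiv).subtypeEquiv fun G => ?_)
    change _ ↔ Monotone (fun n => (G n).map (g : (K → F) →ₗ[F] (K → F))) ∧
      (∀ n : Fin e, Cd F ε n ≤ (G n).map (g : (K → F) →ₗ[F] (K → F))) ∧
      codim (fun n => (G n).map (g : (K → F) →ₗ[F] (K → F))) = m
    rw [codim_map]
    refine and_congr ⟨fun h a b hab => Submodule.map_mono (h hab), fun h a b hab =>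
      (Submodule.map_le_map_iff_of_injective g.injective _ _).1 (h hab)⟩
      (and_congr (forall_congr' fun n => ?_) Iff.rfl)
    rw [← hg, Submodule.map_le_map_iff_of_injective g.injective]
  rw [h3]
  exact top_count_std e ε hε m u ℓ hℓ m' κ hu hsep

end Flag

end Four

end GradedTop
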