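import Pool.Agent.Lib.GradedFour.FilEquiv
import Pool.Agent.Lib.GradedFour.Block
import Pool.Agent.Lib.GradedFour.TopCount
import Pool.Agent.Lib.GradedFour.RegDef

/-!
# The number of homogeneous filtrations: assembly
-/

namespace GradedTop

namespace Four

open Submodule Module

namespace SumJ

/-! ### Homogeneous subspaces and ranks of blocks -/

section hmg

variable {F : Type} [Field F] {K : Type} [Fintype K]

lemma cutL_apply (w : K → ℕ) (b : ℕ) (v : K → F) : cutL F w b v = cut w b v := rfl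

lemma cut_cut (w : K → ℕ) (b b' : ℕ) (v : K → F) :
    cut w b (cut w b' v) = if b = b' then cut w b v else 0 := by
  funext x
  by_cases h : b = b'
  · subst h
    simp only [cut, if_true]
    split_ifs <;> rfl
  · rw [if_neg h]
    simp only [cut]
    by_cases h1 : w x = b
    · rw [if_pos h1, if_neg (fun h2 => h (h1.symm.trans h2))]
      rfl
    · rw [if_neg h1]
      rfl

lemma sum_cut (w : K → ℕ) (v : K → F) : ∑ b ∈ Finset.univ.image w, cut w b v = v := by
  classical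
  funext x
  rw [Finset.sum_apply, Finset.sum_eq_single (w x)]
  · simp [cut]
  · intro b _ hb
    simp only [cut]
    rw [if_neg (fun h => hb h.symm)]
  · intro h
    exact absurd (Finset.mem_image_of_mem w (Finset.mem_univ x)) h

/-- the map to the blocks -/
noncomputable def toBlocks (w : K → ℕ) (U : Submodule F (K → F)) :
    U →ₗ[F] (∀ b : {b // b ∈ Finset.univ.image w}, U.map (cutL F w b.1)) :=
  LinearMap.pi fun b => (cutL F w b.1).restrict fun v hv => Submodule.mem_map_of_mem hv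

lemma toBlocks_apply (w : K → ℕ) (U : Submodule F (K → F)) (v : U)
    (b : {b // b ∈ Finset.univ.image w}) : ((toBlocks w U v b : U.map (cutL F w b.1)) : K → F) =
      cut w b.1 v.1 := rfl

lemma toBlocks_bij (w : K → ℕ) (U : Submodule F (K → F)) (hU : Hmg w U) :
    Function.Bijective (toBlocks w U) := by
  classical
  constructor
  · intro v v' h
    apply Subtype.ext
    rw [← sum_cut w v.1, ← sum_cut w v'.1]
    apply Finset.sum_congr rfl
    intro b hb
    rw [← toBlocks_apply w U v ⟨b, hb⟩, h, toBlocks_apply]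
  · intro y
    have hmem : ∀ b : {b // b ∈ Finset.univ.image w}, ((y b : U.map (cutL F w b.1)) : K → F) ∈ U := by
      intro b
      obtain ⟨v, hv, hv2⟩ := (y b).2
      rw [← hv2]
      exact hU v hv b.1
    have hcut : ∀ b : {b // b ∈ Finset.univ.image w},
        cut w b.1 ((y b : U.map (cutL F w b.1)) : K → F) = (y b : U.map (cutL F w b.1)) := by
      intro b
      obtain ⟨v, hv, hv2⟩ := (y b).2
      rw [← hv2, cutL_apply, cut_cut, if_pos rfl]
    refine ⟨⟨∑ b, ((y b : U.map (cutL F w b.1)) : K → F), U.sum_mem fun b _ => hmem b⟩, ?_⟩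
    funext b
    apply Subtype.ext
    rw [toBlocks_apply]
    change cutL F w b.1 (∑ b', ((y b' : U.map (cutL F w b'.1)) : K → F)) = _
    rw [map_sum, Finset.sum_eq_single b]
    · rw [cutL_apply, hcut]
    · intro b' _ hb'
      rw [← hcut b', cutL_apply, cut_cut, if_neg]
      intro h
      exact hb' (Subtype.ext h.symm)
    · intro h
      exact absurd (Finset.mem_univ b) h

lemma hmg_rank (w : K → ℕ) (U : Submodule F (K → F)) (hU : Hmg w U) :
    finrank F U = ∑ b ∈ Finset.univ.image w, finrank F (U.map (cutL F w b)) := by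
  have h1 := (LinearEquiv.ofBijective (toBlocks w U) (toBlocks_bij w U hU)).finrank_eq
  rw [h1, finrank_pi_fintype]
  exact Finset.sum_coe_sort (Finset.univ.image w) (fun b => finrank F (U.map (cutL F w b)))

lemma rank_block_le (w : K → ℕ) (U : Submodule F (K → F)) (b : ℕ) :
    finrank F (U.map (cutL F w b)) ≤ Nat.card {x // w x = b} := by
  classical
  let f : (U.map (cutL F w b)) →ₗ[F] ({x // w x = b} → F) :=
    (LinearMap.funLeft F F (fun x : {x // w x = b} => x.1)).comp (Submodule.subtype _)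
  have hf : Function.Injective f := by
    rw [← LinearMap.ker_eq_bot, LinearMap.ker_eq_bot']
    intro v hv
    obtain ⟨v', hv', hv2⟩ := v.2
    apply Subtype.ext
    funext x
    by_cases hx : w x = b
    · exact congrFun hv ⟨x, hx⟩
    · rw [← hv2, cutL_apply]
      simp only [cut]
      rw [if_neg hx]
      rfl
  have h1 := LinearMap.finrank_le_finrank_of_injective hf
  rw [finrank_fintype_fun_eq_card] at h1
  rwa [Nat.card_eq_fintype_card]

lemma exists_idx (w : K → ℕ) : ∃ idx : K → ℕ, ∀ b r, r ≤ Nat.card {x // w x = b} →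
    Nat.card {x // w x = b ∧ idx x < r} = r := by
  classical
  refine ⟨fun x => (Finite.equivFin {y // w y = w x} ⟨x, rfl⟩ : ℕ), fun b r hr => ?_⟩
  have e1 : {x // w x = b ∧ ((Finite.equivFin {y // w y = w x} ⟨x, rfl⟩ : Fin _) : ℕ) < r} ≃
      {i : Fin (Nat.card {x // w x = b}) // (i : ℕ) < r} :=
    { toFun := fun x => ⟨Finite.equivFin {y // w y = b} ⟨x.1, x.2.1⟩, by
        obtain ⟨x, hx, hx2⟩ := x
        subst hx
        exact hx2⟩
      invFun := fun i => ⟨((Finite.equivFin {y // w y = b}).symm i.1).1, by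
        have h1 := ((Finite.equivFin {y // w y = b}).symm i.1).2
        refine ⟨h1, ?_⟩
        have h2 : ∀ (b' : ℕ) (hb : w ((Finite.equivFin {y // w y = b}).symm i.1).1 = b') (hbb : b' = b),
            ((Finite.equivFin {y // w y = b'} ⟨((Finite.equivFin {y // w y = b}).symm i.1).1, hb⟩ :
              Fin _) : ℕ) < r := by
          intro b' hb hbb
          subst hbb
          have : (⟨((Finite.equivFin {y // w y = b'}).symm i.1).1, hb⟩ : {y // w y = b'}) =
            (Finite.equivFin {y // w y = b'}).symm i.1 := rfl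
          rw [this, Equiv.apply_symm_apply]
          exact i.2
        exact h2 _ rfl h1⟩
      left_inv := by
        intro x
        apply Subtype.ext
        simp
      right_inv := by
        intro i
        apply Subtype.ext
        simp }
  rw [Nat.card_congr e1]
  have e2 : {i : Fin (Nat.card {x // w x = b}) // (i : ℕ) < r} ≃ Fin r :=
    { toFun := fun i => ⟨i.1, i.2⟩
      invFun := fun i => ⟨⟨i, lt_of_lt_of_le i.2 hr⟩, i.2⟩
      left_inv := fun i => rfl
      right_inv := fun i => rfl }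
  rw [Nat.card_congr e2, Nat.card_eq_fintype_card, Fintype.card_fin]

lemma exists_eps (e : ℕ) (w : K → ℕ) (idx : K → ℕ)
    (hidx : ∀ b r, r ≤ Nat.card {x // w x = b} → Nat.card {x // w x = b ∧ idx x < r} = r)
    (U : Fin e → Submodule F (K → F)) (hU : Monotone U) (hh : ∀ n, Hmg w (U n)) :
    ∃ ε : K → ℕ, (∀ x, ε x ≤ e) ∧ (∀ n : Fin e, Nat.card {x // ε x ≤ n} = finrank F (U n)) ∧
      ∀ E' : K → ℕ, (∀ x, E' x ≤ e) → ((∀ x, E' x ≤ ε x) ↔ ∀ x, ∀ n : Fin e, (n : ℕ) < E' x →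
        finrank F ((U n).map (cutL F w (w x))) ≤ idx x) := by
  classical
  have h1 : ∀ x, ∃ a ≤ e, ∀ n : Fin e, idx x < finrank F ((U n).map (cutL F w (w x))) ↔ a ≤ n :=
    fun x => exists_thr e _ fun n n' hn h => lt_of_lt_of_le h
      (Submodule.finrank_mono (Submodule.map_mono (hU hn)))
  choose ε hε hε2 using h1
  refine ⟨ε, hε, fun n => ?_, fun E' hE' => ?_⟩
  · rw [hmg_rank w (U n) (hh n)]
    have e1 : Nat.card {x // ε x ≤ n} = ∑ b ∈ Finset.univ.image w,
        Nat.card {x // w x = b ∧ idx x < finrank F ((U n).map (cutL F w b))} := by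
      rw [Nat.card_eq_fintype_card, Fintype.card_subtype,
        Finset.card_eq_sum_card_fiberwise (f := w) (t := Finset.univ.image w)
          (fun x _ => Finset.mem_coe.mpr (Finset.mem_image_of_mem w (Finset.mem_univ x)))]
      apply Finset.sum_congr rfl
      intro b _
      rw [Nat.card_eq_fintype_card, Fintype.card_subtype, Finset.filter_filter]
      congr 1
      ext x
      simp only [Finset.mem_filter, Finset.mem_univ, true_and]
      constructor
      · rintro ⟨h1, h2⟩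
        subst h2
        exact ⟨rfl, (hε2 x n).mpr h1⟩
      · rintro ⟨h1, h2⟩
        subst h1
        exact ⟨(hε2 x n).mp h2, rfl⟩
    rw [e1]
    apply Finset.sum_congr rfl
    intro b _
    exact hidx b _ (rank_block_le w (U n) b)
  · apply forall_congr'
    intro x
    constructor
    · intro h n hn
      by_contra h2
      rw [not_le] at h2
      have h3 := (hε2 x n).mp h2
      omega
    · intro h
      by_contra h2
      rw [not_le] at h2
      have h3 : ε x < e := lt_of_lt_of_le h2 (hE' x)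
      have h4 := h ⟨ε x, h3⟩ h2
      have h5 := (hε2 x ⟨ε x, h3⟩).mpr le_rfl
      omega

end hmg

/-! ### The span of the brackets -/

section UU

variable {d : ℕ} {M T K : Type} [Fintype M] [Fintype T] [Fintype K] {F : Type} [Field F]

/-- the span of the brackets in top degree -/
noncomputable def UU (S : Sys4 d (M ⊕ T × Fin 2) K) (E : M → ℕ) (ab : T → ℕ × ℕ) (l : T → Ln F)
    (n : ℕ) : Submodule F (K → F) := ⨆ j, (Fil E ab l n).map (tl F (S.T4 j))

lemma UU_mono (S : Sys4 d (M ⊕ T × Fin 2) K) (E : M → ℕ) (ab : T → ℕ × ℕ) (l : T → Ln F)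
    (hab : ∀ s, (ab s).1 ≤ (ab s).2) : Monotone (UU S E ab l) := by
  intro n n' hn
  exact iSup_mono fun j => Submodule.map_mono (Fil_mono E ab l hab hn)

lemma cut_tl {I : Type} [Fintype I] (Mt : Matrix K I ℤ) (w : I → ℕ) (w4 : K → ℕ) (a c : ℕ)
    (h : ∀ x y, Mt x y ≠ 0 → w4 x = w y + a) (v : I → F) :
    cut w4 c (tl F Mt v) = if a ≤ c then tl F Mt (cut w (c - a) v) else 0 := by
  funext x
  by_cases hac : a ≤ c
  · rw [if_pos hac, tl_apply]
    simp only [cut]
    by_cases hx : w4 x = c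
    · rw [if_pos hx, tl_apply]
      apply Finset.sum_congr rfl
      intro y _
      by_cases hy : Mt x y = 0
      · rw [hy, Int.cast_zero, zero_mul, zero_mul]
      · have := h x y hy
        rw [if_pos (by omega)]
    · rw [if_neg hx]
      symm
      apply Finset.sum_eq_zero
      intro y _
      by_cases hy : Mt x y = 0
      · rw [hy, Int.cast_zero, zero_mul]
      · have := h x y hy
        rw [if_neg (by omega), mul_zero]
  · rw [if_neg hac]
    simp only [cut]
    by_cases hx : w4 x = c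
    · rw [if_pos hx, tl_apply]
      apply Finset.sum_eq_zero
      intro y _
      by_cases hy : Mt x y = 0
      · rw [hy, Int.cast_zero, zero_mul]
      · have := h x y hy
        omega
    · rw [if_neg hx]
      rfl

lemma hmg_map {I : Type} [Fintype I] (Mt : Matrix K I ℤ) (w : I → ℕ) (w4 : K → ℕ) (a : ℕ)
    (h : ∀ x y, Mt x y ≠ 0 → w4 x = w y + a) (N : Submodule F (I → F)) (hN : Hmg w N) :
    Hmg w4 (N.map (tl F Mt)) := by
  rintro _ ⟨v, hv, rfl⟩ c
  rw [cut_tl Mt w w4 a c h]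
  split_ifs
  · exact Submodule.mem_map_of_mem (hN v hv _)
  · exact Submodule.zero_mem _

lemma hmg_iSup {ι : Type} (w : K → ℕ) (N : ι → Submodule F (K → F)) (hN : ∀ i, Hmg w (N i)) :
    Hmg w (⨆ i, N i) := by
  intro v hv c
  have h1 : (⨆ i, N i) ≤ (⨆ i, N i).comap (cutL F w c) := by
    apply iSup_le
    intro i v' hv'
    exact Submodule.mem_iSup_of_mem i (hN i v' hv' c)
  exact h1 hv

lemma UU_hmg (S : Sys4 d (M ⊕ T × Fin 2) K) (E : M → ℕ) (ab : T → ℕ × ℕ) (l : T → Ln F)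
    (hT' : ∀ s c c', S.w (Sum.inr (s, c)) = S.w (Sum.inr (s, c'))) (n : ℕ) :
    Hmg S.w4 (UU S E ab l n) :=
  hmg_iSup _ _ fun j => hmg_map (S.T4 j) S.w S.w4 (S.w0 j) (S.hT4 j) _
    (Fil_hmg E ab l S.w hT' n)

end UU

/-! ### Stability is a closed condition -/

section stable

variable {d : ℕ} {M T K : Type} [Fintype M] [Fintype T] [Fintype K] {F : Type} [Field F]

/-- column of a matrix -/
def col (F : Type) [Field F] {I I' : Type} (Mt : Matrix I' I ℤ) (y : I) : I' → F :=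
  fun x => (Mt x y : F)

lemma stable_iff (S : Sys4 d (M ⊕ T × Fin 2) K)
    (hlv1 : ∀ j x y, S.T j x y ≠ 0 → S.lv x = S.lv y + 1) (hlv2 : ∀ x, S.lv x ≤ 3)
    (hlv3 : ∀ s c, S.lv (Sum.inr (s, c)) = 3)
    (E : M → ℕ) (ab : T → ℕ × ℕ) (l : T → Ln F) (j : Fin d) (n : ℕ) :
    (Fil E ab l n).map (tl F (S.T j)) ≤ Fil E ab l n ↔
      ∀ m, E m ≤ n → col F (S.T j) (Sum.inl m) ∈ Fil E ab l n := by
  classical
  have hz : ∀ x s c, S.T j x (Sum.inr (s, c)) = 0 := by
    intro x s c
    by_contra h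
    have h1 := hlv1 j x _ h
    have h2 := hlv2 x
    rw [hlv3] at h1
    omega
  have hsum : ∀ v : M ⊕ T × Fin 2 → F, tl F (S.T j) v =
      ∑ m, v (Sum.inl m) • col F (S.T j) (Sum.inl m) := by
    intro v
    funext x
    rw [tl_apply, Fintype.sum_sum_type, Finset.sum_apply]
    rw [Finset.sum_eq_zero (s := Finset.univ (α := T × Fin 2))]
    · rw [add_zero]
      apply Finset.sum_congr rfl
      intro m _
      rw [Pi.smul_apply, smul_eq_mul, mul_comm]
      rfl
    · rintro ⟨s, c⟩ _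
      rw [hz, Int.cast_zero, zero_mul]
  constructor
  · intro h m hm
    have h1 : (Pi.single (Sum.inl m) 1 : M ⊕ T × Fin 2 → F) ∈ Fil E ab l n := by
      rw [mem_Fil]
      refine ⟨fun m' hm' => ?_, fun s => ?_⟩
      · have hne : (Sum.inl m' : M ⊕ T × Fin 2) ≠ Sum.inl m := by
          intro h1
          rw [Sum.inl.inj h1] at hm'
          omega
        rw [Pi.single_eq_of_ne hne]
      · have h2 : (fun c => (Pi.single (Sum.inl m) 1 : M ⊕ T × Fin 2 → F) (Sum.inr (s, c))) =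
            0 := by
          funext c
          rw [Pi.single_eq_of_ne (by simp)]
          rfl
        rw [h2]
        exact Submodule.zero_mem _
    have h2 := h (Submodule.mem_map_of_mem h1)
    rw [hsum, Finset.sum_eq_single m] at h2
    · rwa [Pi.single_eq_same, one_smul] at h2
    · intro m' _ hm'
      rw [Pi.single_eq_of_ne (fun h => hm' (Sum.inl.inj h)), zero_smul]
    · intro h
      exact absurd (Finset.mem_univ m) h
  · rintro h _ ⟨v, hv, rfl⟩
    rw [hsum]
    apply Submodule.sum_mem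
    intro m _
    by_cases hm : n < E m
    · rw [hv.1 m hm, zero_smul]
      exact Submodule.zero_mem _
    · exact Submodule.smul_mem _ _ (h m (by omega))

lemma mem_seg_closed [Finite F] (a b n : ℕ) (s : T) (x : Fin 2 → F) :
    IsCl {l : T → Ln F | x ∈ seg a b (l s).1 n} := by
  unfold seg
  by_cases h1 : n < a
  · simp only [h1, if_true]
    exact IsCl.const _
  · simp only [h1, if_false]
    by_cases h2 : n < b
    · simp only [h2, if_true]
      exact IsCl.mem s x
    · simp only [h2, if_false]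
      exact IsCl.const _

lemma mem_Fil_closed [Finite F] (E : M → ℕ) (ab : T → ℕ × ℕ) (n : ℕ)
    (v : M ⊕ T × Fin 2 → F) : IsCl {l : T → Ln F | v ∈ Fil E ab l n} := by
  have h1 : {l : T → Ln F | v ∈ Fil E ab l n} =
      {_l : T → Ln F | ∀ m, n < E m → v (Sum.inl m) = 0} ∩
      {l : T → Ln F | ∀ s, l ∈ {l : T → Ln F |
        (fun c => v (Sum.inr (s, c))) ∈ seg (ab s).1 (ab s).2 (l s).1 n}} := rfl
  rw [h1]
  exact (IsCl.const _).inter (IsCl.forall_finite fun s => mem_seg_closed _ _ _ _ _)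

lemma imp_closed (p : Prop) {Z : Set (T → Ln F)} (h : IsCl Z) :
    IsCl {l : T → Ln F | p → l ∈ Z} := by
  by_cases hp : p
  · have : {l : T → Ln F | p → l ∈ Z} = Z := by ext l; simp [hp]
    rw [this]; exact h
  · have : {l : T → Ln F | p → l ∈ Z} = {_l : T → Ln F | True} := by ext l; simp [hp]
    rw [this]; exact IsCl.const _

lemma stable_closed [Finite F] (S : Sys4 d (M ⊕ T × Fin 2) K)
    (hlv1 : ∀ j x y, S.T j x y ≠ 0 → S.lv x = S.lv y + 1) (hlv2 : ∀ x, S.lv x ≤ 3)
    (hlv3 : ∀ s c, S.lv (Sum.inr (s, c)) = 3)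
    (E : M → ℕ) (ab : T → ℕ × ℕ) (j : Fin d) (n : ℕ) :
    IsCl {l : T → Ln F | (Fil E ab l n).map (tl F (S.T j)) ≤ Fil E ab l n} := by
  simp only [stable_iff S hlv1 hlv2 hlv3]
  apply IsCl.forall_finite (Z := fun m => {l : T → Ln F | E m ≤ n →
    l ∈ {l : T → Ln F | col F (S.T j) (Sum.inl m) ∈ Fil E ab l n}})
  intro m
  exact imp_closed _ (mem_Fil_closed _ _ _ _)

lemma adm_closed [Finite F] (e : ℕ) (l0 : Ln F) (E : M → ℕ) (ab : T → ℕ × ℕ) :
    IsCl {l : T → Ln F | Adm e l0 E ab l} := by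
  have h1 : {l : T → Ln F | Adm e l0 E ab l} =
      {_l : T → Ln F | (∀ m, E m ≤ e) ∧ ∀ s, (ab s).1 ≤ (ab s).2 ∧ (ab s).2 ≤ e} ∩
      {l : T → Ln F | ∀ s, l ∈ {l : T → Ln F | (ab s).1 = (ab s).2 → l ∈
        {l : T → Ln F | l s = l0}}} := by
    ext l
    simp only [Adm, Set.mem_inter_iff, Set.mem_setOf_eq]
    constructor
    · rintro ⟨h1, h2⟩
      exact ⟨⟨h1, fun s => ⟨(h2 s).1, (h2 s).2.1⟩⟩, fun s => (h2 s).2.2⟩
    · rintro ⟨⟨h1, h2⟩, h3⟩
      exact ⟨h1, fun s => ⟨(h2 s).1, (h2 s).2, h3 s⟩⟩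
  rw [h1]
  exact (IsCl.const _).inter (IsCl.forall_finite fun s => imp_closed _ (IsCl.pt s l0))

end stable

/-! ### The sum -/

section total

variable {d : ℕ} {M T K : Type} [Fintype M] [Fintype T] [Fintype K] {F : Type} [Field F]

/-- discrete data of a filtration -/
abbrev Th (M T K : Type) (e : ℕ) : Type :=
  (M → Fin (e + 1)) × (T → Fin (e + 1) × Fin (e + 1)) × (K → Fin (e + 1))

/-- thresholds as natural numbers -/
def nE {e : ℕ} (a : M → Fin (e + 1)) : M → ℕ := fun m => a m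

/-- pairs of thresholds as natural numbers -/
def nab {e : ℕ} (b : T → Fin (e + 1) × Fin (e + 1)) : T → ℕ × ℕ := fun s => ((b s).1, (b s).2)

/-- the family of lines belonging to discrete data -/
def ZZ (S : Sys4 d (M ⊕ T × Fin 2) K) (e k : ℕ) (l0 : Ln F) (idx : K → ℕ) (θ : Th M T K e) :
    Set (T → Ln F) :=
  {l | (Adm e l0 (nE θ.1) (nab θ.2.1) l ∧
    ∀ (n : Fin e) (j : Fin d), (Fil (nE θ.1) (nab θ.2.1) l n).map (tl F (S.T j)) ≤
      Fil (nE θ.1) (nab θ.2.1) l n) ∧
    (∀ (x : K) (n : Fin e), (n : ℕ) < θ.2.2 x →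
      finrank F ((UU S (nE θ.1) (nab θ.2.1) l n).map (cutL F S.w4 (S.w4 x))) ≤ idx x) ∧
    ∑ m, nE θ.1 m + ∑ s, ((nab θ.2.1 s).1 + (nab θ.2.1 s).2) + ∑ x, (θ.2.2 x : ℕ) = k}

lemma ZZ_closed [Finite F] (S : Sys4 d (M ⊕ T × Fin 2) K)
    (hlv1 : ∀ j x y, S.T j x y ≠ 0 → S.lv x = S.lv y + 1) (hlv2 : ∀ x, S.lv x ≤ 3)
    (hlv3 : ∀ s c, S.lv (Sum.inr (s, c)) = 3)
    (hblk : ∀ b, BlkA F S b ∨ BlkB F S b) (e k : ℕ) (l0 : Ln F) (idx : K → ℕ)
    (θ : Th M T K e) : IsCl (ZZ S e k l0 idx θ) := by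
  have h1 : ZZ S e k l0 idx θ = ({l : T → Ln F | Adm e l0 (nE θ.1) (nab θ.2.1) l} ∩
      {l : T → Ln F | ∀ p : Fin e × Fin d, l ∈ {l : T → Ln F |
        (Fil (nE θ.1) (nab θ.2.1) l p.1).map (tl F (S.T p.2)) ≤
          Fil (nE θ.1) (nab θ.2.1) l p.1}}) ∩
      ({l : T → Ln F | ∀ p : K × Fin e, l ∈ {l : T → Ln F | (p.2 : ℕ) < θ.2.2 p.1 → l ∈
        {l : T → Ln F | finrank F ((UU S (nE θ.1) (nab θ.2.1) l p.2).map
          (cutL F S.w4 (S.w4 p.1))) ≤ idx p.1}}} ∩
      {_l : T → Ln F | ∑ m, nE θ.1 m + ∑ s, ((nab θ.2.1 s).1 + (nab θ.2.1 s).2) +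
        ∑ x, (θ.2.2 x : ℕ) = k}) := by
    ext l
    simp only [ZZ, Set.mem_inter_iff, Set.mem_setOf_eq, Prod.forall]
  rw [h1]
  refine IsCl.inter (IsCl.inter (adm_closed _ _ _ _) (IsCl.forall_finite fun p => ?_))
    (IsCl.inter (IsCl.forall_finite fun p => ?_) (IsCl.const _))
  · exact stable_closed S hlv1 hlv2 hlv3 _ _ _ _
  · exact imp_closed _ (block_closed S _ (hblk _) _ _ _ _)

lemma card_prod_subtype {α β : Type} [Fintype α] [Finite β] (R : α → β → Prop) :
    Nat.card {p : α × β // R p.1 p.2} = ∑ a, Nat.card {b // R a b} := by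
  rw [← Nat.card_sigma]
  exact Nat.card_congr (Equiv.subtypeProdEquivSigmaSubtype R)

lemma modEq_sum {ι : Type} (s : Finset ι) (f g : ι → ℕ) (n : ℕ)
    (h : ∀ i ∈ s, f i ≡ g i [MOD n]) : ∑ i ∈ s, f i ≡ ∑ i ∈ s, g i [MOD n] := by
  classical
  induction s using Finset.induction_on with
  | empty => exact Nat.ModEq.refl _
  | insert a s ha ih =>
    rw [Finset.sum_insert ha, Finset.sum_insert ha]
    exact (h a (Finset.mem_insert_self a s)).add (ih fun i hi => h i (Finset.mem_insert_of_mem hi))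

/-- pairs of data of the lower part and filtrations of the upper part -/
def RR (S : Sys4 d (M ⊕ T × Fin 2) K) (e k : ℕ) (l0 : Ln F)
    (D : (M → Fin (e + 1)) × (T → Fin (e + 1) × Fin (e + 1)) × (T → Ln F))
    (G : Fin e → Submodule F (K → F)) : Prop :=
  (Adm e l0 (nE D.1) (nab D.2.1) D.2.2 ∧
    ∀ (n : Fin e) (j : Fin d), (Fil (nE D.1) (nab D.2.1) D.2.2 n).map (tl F (S.T j)) ≤
      Fil (nE D.1) (nab D.2.1) D.2.2 n) ∧
    Monotone G ∧ (∀ n : Fin e, UU S (nE D.1) (nab D.2.1) D.2.2 n ≤ G n) ∧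
    codim (fun n : Fin e => Fil (nE D.1) (nab D.2.1) D.2.2 n) + codim G = k

lemma card_PG_eq [Finite F] (S : Sys4 d (M ⊕ T × Fin 2) K)
    (hM : ∀ m y, S.w (Sum.inl m) = S.w y → y = Sum.inl m)
    (hT : ∀ s c s' c', S.w (Sum.inr (s, c)) = S.w (Sum.inr (s', c')) → s = s')
    (hT' : ∀ s c c', S.w (Sum.inr (s, c)) = S.w (Sum.inr (s, c')))
    (e k : ℕ) (l0 : Ln F) :
    Nat.card {G // S.PG F e k G} =
      Nat.card {p : ((M → Fin (e + 1)) × (T → Fin (e + 1) × Fin (e + 1)) × (T → Ln F)) ×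
        (Fin e → Submodule F (K → F)) // RR S e k l0 p.1 p.2} := by
  symm
  apply Nat.card_eq_of_bijective (fun p => (⟨(fun n : Fin e =>
    Fil (nE p.1.1.1) (nab p.1.1.2.1) p.1.1.2.2 n, p.1.2), by
      obtain ⟨⟨D, G⟩, ⟨h1, h2⟩, h3, h4, h5⟩ := p
      refine ⟨fun n n' hn => Fil_mono _ _ _ (fun s => (h1.2 s).1) hn, h3, fun n =>
        Fil_hmg _ _ _ _ hT' _, h2, fun n j => ?_, h5⟩
      exact (le_iSup (fun j => (Fil (nE D.1) (nab D.2.1) D.2.2 n).map (tl F (S.T4 j))) j).trans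
        (h4 n)⟩ : {G // S.PG F e k G}))
  constructor
  · rintro ⟨⟨⟨a, b, l⟩, G⟩, h1⟩ ⟨⟨⟨a', b', l'⟩, G'⟩, h1'⟩ heq
    have h2 := congrArg Subtype.val heq
    simp only [Prod.mk.injEq] at h2
    obtain ⟨h3, h4⟩ := h2
    obtain ⟨h5, h6, h7⟩ := Fil_inj e l0 _ _ _ _ _ _ h1.1.1 h1'.1.1 (fun n => congrFun h3 n)
    have h8 : a = a' := by
      funext m
      exact Fin.ext (congrFun h5 m)
    have h9 : b = b' := by
      funext s
      have h10 := congrFun h6 s
      simp only [nab, Prod.mk.injEq] at h10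
      exact Prod.ext (Fin.ext h10.1) (Fin.ext h10.2)
    simp only at h4 h7
    subst h8 h9 h7 h4
    rfl
  · rintro ⟨⟨G1, G2⟩, h⟩
    obtain ⟨E, ab, l, h1, h2⟩ := Fil_surj e l0 S.w hM hT G1 h.mono1 h.hom
    have hE : nE (fun m => (⟨E m, Nat.lt_succ_of_le (h1.1 m)⟩ : Fin (e + 1))) = E := rfl
    have hab : nab (fun s => ((⟨(ab s).1, Nat.lt_succ_of_le
        ((h1.2 s).1.trans (h1.2 s).2.1)⟩ : Fin (e + 1)),
        (⟨(ab s).2, Nat.lt_succ_of_le (h1.2 s).2.1⟩ : Fin (e + 1)))) = ab := rfl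
    have hG : G1 = fun n : Fin e => Fil E ab l n := funext h2
    subst hG
    refine ⟨⟨⟨(fun m => (⟨E m, Nat.lt_succ_of_le (h1.1 m)⟩ : Fin (e + 1)),
      (fun s => ((⟨(ab s).1, Nat.lt_succ_of_le
        ((h1.2 s).1.trans (h1.2 s).2.1)⟩ : Fin (e + 1)),
        (⟨(ab s).2, Nat.lt_succ_of_le (h1.2 s).2.1⟩ : Fin (e + 1)))), l), G2⟩, ?_⟩, ?_⟩
    · refine ⟨⟨h1, fun n j => h.t n j⟩, h.mono2, fun n => iSup_le fun j => h.t4 n j, h.card⟩
    · rfl

/-- the counterpart of `RR` with thresholds in the upper part -/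
def RE (S : Sys4 d (M ⊕ T × Fin 2) K) (e k : ℕ) (l0 : Ln F) (idx : K → ℕ)
    (D : (M → Fin (e + 1)) × (T → Fin (e + 1) × Fin (e + 1)) × (T → Ln F))
    (c : K → Fin (e + 1)) : Prop := D.2.2 ∈ ZZ S e k l0 idx (D.1, D.2.1, c)

lemma card_RR [Finite F] [DecidableEq K] (S : Sys4 d (M ⊕ T × Fin 2) K)
    (hT' : ∀ s c c', S.w (Sum.inr (s, c)) = S.w (Sum.inr (s, c')))
    (e k : ℕ) (l0 : Ln F) (idx : K → ℕ)
    (hidx : ∀ b r, r ≤ Nat.card {x // S.w4 x = b} →
      Nat.card {x // S.w4 x = b ∧ idx x < r} = r)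
    (D : (M → Fin (e + 1)) × (T → Fin (e + 1) × Fin (e + 1)) × (T → Ln F))
    (u : Fˣ) (ℓ : ℕ) (hℓ : ℓ.Prime) (m κ : ℕ) (hu : u ^ (ℓ ^ m) = 1)
    (hsep : Sep (u ^ (ℓ ^ κ)) (Fintype.card K)) :
    Nat.card {G // RR S e k l0 D G} ≡ Nat.card {c // RE S e k l0 idx D c} [MOD ℓ ^ (κ + 1)] := by
  by_cases hD : Adm e l0 (nE D.1) (nab D.2.1) D.2.2 ∧
    ∀ (n : Fin e) (j : Fin d), (Fil (nE D.1) (nab D.2.1) D.2.2 n).map (tl F (S.T j)) ≤
      Fil (nE D.1) (nab D.2.1) D.2.2 n
  · have hcod := codim_Fil e l0 _ _ _ hD.1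
    by_cases hk : codim (fun n : Fin e => Fil (nE D.1) (nab D.2.1) D.2.2 n) ≤ k
    · obtain ⟨ε, hε, hε1, hε2⟩ := exists_eps e S.w4 idx hidx
        (fun n : Fin e => UU S (nE D.1) (nab D.2.1) D.2.2 n)
        (fun n n' hn => UU_mono S _ _ _ (fun s => (hD.1.2 s).1) hn)
        (fun n => UU_hmg S _ _ _ hT' n)
      have h1 := top_count F e (fun n : Fin e => UU S (nE D.1) (nab D.2.1) D.2.2 n)
        (fun n n' hn => UU_mono S _ _ _ (fun s => (hD.1.2 s).1) hn) ε hε hε1
        (k - codim (fun n : Fin e => Fil (nE D.1) (nab D.2.1) D.2.2 n)) u ℓ hℓ m κ hu hsep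
      have e1 : Nat.card {G // RR S e k l0 D G} = Nat.card {G : Fin e → Submodule F (K → F) //
          Monotone G ∧ (∀ n : Fin e, UU S (nE D.1) (nab D.2.1) D.2.2 n ≤ G n) ∧
          codim G = k - codim (fun n : Fin e => Fil (nE D.1) (nab D.2.1) D.2.2 n)} := by
        apply Nat.card_congr
        apply Equiv.subtypeEquivRight
        intro G
        simp only [RR, hD]
        constructor
        · rintro ⟨_, h2, h3, h4⟩
          exact ⟨h2, h3, by omega⟩
        · rintro ⟨h2, h3, h4⟩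
          exact ⟨⟨trivial, fun n j => trivial⟩, h2, h3, by omega⟩
      have e2 : Nat.card {E : K → ℕ // (∀ x, E x ≤ ε x) ∧ ∑ x, E x =
          k - codim (fun n : Fin e => Fil (nE D.1) (nab D.2.1) D.2.2 n)} =
          Nat.card {c // RE S e k l0 idx D c} := by
        apply Nat.card_congr
        refine
          { toFun := fun E => ⟨fun x => ⟨E.1 x, Nat.lt_succ_of_le ((E.2.1 x).trans (hε x))⟩, ?_⟩
            invFun := fun c => ⟨fun x => c.1 x, ?_⟩
            left_inv := fun E => rfl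
            right_inv := fun c => rfl }
        · refine ⟨hD, ?_, ?_⟩
          · exact (hε2 E.1 fun x => (E.2.1 x).trans (hε x)).mp E.2.1
          · have h3 : ∑ x, E.1 x =
                k - codim (fun n : Fin e => Fil (nE D.1) (nab D.2.1) D.2.2 n) := E.2.2
            simp only
            omega
        · obtain ⟨c, hc1, hc2, hc3⟩ := c
          refine ⟨(hε2 (fun x => (c x : ℕ)) fun x => Nat.le_of_lt_succ (c x).2).mpr hc2, ?_⟩
          rw [hcod]
          simp only at hc3 ⊢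
          omega
      rw [e1, ← e2]
      exact h1
    · have e1 : IsEmpty {G // RR S e k l0 D G} := by
        constructor
        rintro ⟨G, _, _, _, h4⟩
        omega
      have e2 : IsEmpty {c // RE S e k l0 idx D c} := by
        constructor
        rintro ⟨c, _, _, h4⟩
        rw [hcod] at hk
        simp only at h4
        omega
      rw [Nat.card_of_isEmpty, Nat.card_of_isEmpty]
  · have e1 : IsEmpty {G // RR S e k l0 D G} := by
      constructor
      rintro ⟨G, h, _⟩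
      exact hD h
    have e2 : IsEmpty {c // RE S e k l0 idx D c} := by
      constructor
      rintro ⟨c, h, _⟩
      exact hD h
    rw [Nat.card_of_isEmpty, Nat.card_of_isEmpty]

lemma card_PG_mod [Finite F] [DecidableEq M] [DecidableEq T] [DecidableEq K] (S : Sys4 d (M ⊕ T × Fin 2) K)
    (hM : ∀ m y, S.w (Sum.inl m) = S.w y → y = Sum.inl m)
    (hT : ∀ s c s' c', S.w (Sum.inr (s, c)) = S.w (Sum.inr (s', c')) → s = s')
    (hT' : ∀ s c c', S.w (Sum.inr (s, c)) = S.w (Sum.inr (s, c')))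
    (e k : ℕ) (l0 : Ln F) (idx : K → ℕ)
    (hidx : ∀ b r, r ≤ Nat.card {x // S.w4 x = b} →
      Nat.card {x // S.w4 x = b ∧ idx x < r} = r)
    (u : Fˣ) (ℓ : ℕ) (hℓ : ℓ.Prime) (m κ : ℕ) (hu : u ^ (ℓ ^ m) = 1)
    (hsep : Sep (u ^ (ℓ ^ κ)) (Fintype.card K)) :
    Nat.card {G // S.PG F e k G} ≡ ∑ θ : Th M T K e, Nat.card (ZZ S e k l0 idx θ)
      [MOD ℓ ^ (κ + 1)] := by
  classical
  have hfin : Finite (Submodule F (Fin 2 → F)) := inferInstance
  have := Fintype.ofFinite ((M → Fin (e + 1)) × (T → Fin (e + 1) × Fin (e + 1)) × (T → Ln F))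
  rw [card_PG_eq S hM hT hT' e k l0, card_prod_subtype]
  have h1 : ∑ D, Nat.card {G // RR S e k l0 D G} ≡
      ∑ D, Nat.card {c // RE S e k l0 idx D c} [MOD ℓ ^ (κ + 1)] :=
    modEq_sum _ _ _ _ fun D _ => card_RR S hT' e k l0 idx hidx D u ℓ hℓ m κ hu hsep
  refine h1.trans ?_
  rw [← card_prod_subtype]
  have e1 : {p : ((M → Fin (e + 1)) × (T → Fin (e + 1) × Fin (e + 1)) × (T → Ln F)) ×
      (K → Fin (e + 1)) // RE S e k l0 idx p.1 p.2} ≃
      {p : Th M T K e × (T → Ln F) // p.2 ∈ ZZ S e k l0 idx p.1} :=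
    { toFun := fun p => ⟨((p.1.1.1, p.1.1.2.1, p.1.2), p.1.1.2.2), p.2⟩
      invFun := fun p => ⟨((p.1.1.1, p.1.1.2.1, p.1.2), p.1.1.2.2), p.2⟩
      left_inv := fun p => rfl
      right_inv := fun p => rfl }
  rw [Nat.card_congr e1, card_prod_subtype (fun (θ : Th M T K e) (l : T → Ln F) =>
    l ∈ ZZ S e k l0 idx θ)]

lemma card_Th (e : ℕ) [DecidableEq M] [DecidableEq T] [DecidableEq K] :
    Fintype.card (Th M T K e) =
      (e + 1) ^ (Fintype.card M + 2 * Fintype.card T + Fintype.card K) := by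
  rw [Fintype.card_prod, Fintype.card_prod, Fintype.card_fun, Fintype.card_fun, Fintype.card_fun,
    Fintype.card_prod, Fintype.card_fin, pow_add, pow_add, pow_mul, ← sq]
  ring

lemma card_fun_Ln [Finite F] : Nat.card (T → Ln F) = (Nat.card F + 1) ^ Fintype.card T := by
  classical
  have hfin : Finite (Submodule F (Fin 2 → F)) := inferInstance
  have := Fintype.ofFinite (Ln F)
  rw [Nat.card_eq_fintype_card, Fintype.card_fun, ← card_Ln, Nat.card_eq_fintype_card]

lemma exists_nu [Finite F] {Z : Set (T → Ln F)} (h : IsCl Z) :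
    ∃ ν ≤ 2 ^ Fintype.card T, Nat.card Z ≡ ν [MOD Nat.card F - 1] ∧
      (Z = Set.univ → 1 ≤ ν) := by
  classical
  by_cases hZ : Z = Set.univ
  · refine ⟨2 ^ Fintype.card T, le_rfl, ?_, fun _ => Nat.one_le_two_pow⟩
    have h1 : Nat.card Z = (Nat.card F + 1) ^ Fintype.card T := by
      rw [hZ, ← card_fun_Ln, Nat.card_univ]
    rw [h1]
    apply Nat.ModEq.pow
    have h2 : 1 < Nat.card F := Finite.one_lt_card
    have h3 : Nat.card F + 1 = (Nat.card F - 1) + 2 := by omega
    rw [h3]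
    exact Nat.add_modEq_left
  · obtain ⟨ν, h1, h2⟩ := h.count
    exact ⟨ν, h1, h2, fun h3 => absurd h3 hZ⟩

/-- discrete data of a point of the region -/
def ofReg {X : Type} {e : ℕ} (E : X → ℕ) (h : ∀ x, E x ≤ e) (x : X) : Fin (e + 1) :=
  ⟨E x, Nat.lt_succ_of_le (h x)⟩

lemma ZZ_univ (S : Sys4 d (M ⊕ T × Fin 2) K)
    (hlv1 : ∀ j x y, S.T j x y ≠ 0 → S.lv x = S.lv y + 1) (hlv2 : ∀ x, S.lv x ≤ 3)
    (hlv3 : ∀ s c, S.lv (Sum.inr (s, c)) = 3) (e k : ℕ) (l0 : Ln F) (idx : K → ℕ) (N : ℕ)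
    (θ : Th M T K e)
    (h1 : ∀ m, (5 - S.lv (Sum.inl m)) * N ≤ θ.1 m ∧ (θ.1 m : ℕ) < (5 - S.lv (Sum.inl m) + 1) * N)
    (h2 : ∀ s, N ≤ (θ.2.1 s).1 ∧ ((θ.2.1 s).1 : ℕ) < 2 * N ∧ 2 * N ≤ (θ.2.1 s).2 ∧
      ((θ.2.1 s).2 : ℕ) < 3 * N)
    (h3 : ∀ x, (θ.2.2 x : ℕ) < N)
    (h4 : ∑ m, nE θ.1 m + ∑ s, ((nab θ.2.1 s).1 + (nab θ.2.1 s).2) + ∑ x, (θ.2.2 x : ℕ) = k) :
    ZZ S e k l0 idx θ = Set.univ := by
  ext l
  simp only [Set.mem_univ, iff_true]
  refine ⟨⟨⟨fun m => Nat.le_of_lt_succ (θ.1 m).2, fun s => ?_⟩, fun n j => ?_⟩, fun x n hn => ?_, h4⟩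
  · obtain ⟨h5, h6, h7, h8⟩ := h2 s
    have h9 := (θ.2.1 s).2.2
    refine ⟨?_, ?_, fun h => ?_⟩
    · simp only [nab]; omega
    · simp only [nab]; omega
    · simp only [nab] at h; omega
  · rw [stable_iff S hlv1 hlv2 hlv3]
    intro m hm
    have hEm := (h1 m).1
    have hm' : (θ.1 m : ℕ) ≤ n := hm
    rw [mem_Fil]
    refine ⟨fun m' hn => ?_, fun s => ?_⟩
    · have hn' : (n : ℕ) < θ.1 m' := hn
      by_contra hne
      have hT : S.T j (Sum.inl m') (Sum.inl m) ≠ 0 := by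
        intro h
        apply hne
        simp only [col]
        rw [h, Int.cast_zero]
      have h5 := hlv1 j _ _ hT
      have h6 := hlv2 (Sum.inl m')
      have h7 := (h1 m').2
      have h8 : 5 - S.lv (Sum.inl m') + 1 = 5 - S.lv (Sum.inl m) := by omega
      rw [h8] at h7
      omega
    · obtain ⟨h5, h6, h7, h8⟩ := h2 s
      by_cases hb : (n : ℕ) < (nab θ.2.1 s).2
      · have hb' : (n : ℕ) < (θ.2.1 s).2 := hb
        have h9 : (fun c => col F (S.T j) (Sum.inl m) (Sum.inr (s, c))) = 0 := by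
          funext c
          by_contra hne
          have hT : S.T j (Sum.inr (s, c)) (Sum.inl m) ≠ 0 := by
            intro h
            apply hne
            simp only [col]
            rw [h, Int.cast_zero]
            rfl
          have h10 := hlv1 j _ _ hT
          rw [hlv3] at h10
          have h11 : 5 - S.lv (Sum.inl m) = 3 := by omega
          rw [h11] at hEm
          omega
        rw [h9]
        exact Submodule.zero_mem _
      · have ha : ¬ (n : ℕ) < (nab θ.2.1 s).1 := by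
          simp only [nab] at hb ⊢
          omega
        rw [seg, if_neg ha, if_neg hb]
        exact Submodule.mem_top
  · have hN := h3 x
    have hbot : Fil (nE θ.1) (nab θ.2.1) l (n : ℕ) = ⊥ := by
      rw [eq_bot_iff]
      intro v hv
      rw [Submodule.mem_bot]
      rw [mem_Fil] at hv
      funext y
      rcases y with m | ⟨s, c⟩
      · apply hv.1 m
        have h5 := (h1 m).1
        have h6 := hlv2 (Sum.inl m)
        have h7 : 2 * N ≤ (5 - S.lv (Sum.inl m)) * N := Nat.mul_le_mul_right N (by omega)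
        have h8 : (n : ℕ) < θ.1 m := by omega
        exact h8
      · have h5 := hv.2 s
        obtain ⟨h6, _⟩ := h2 s
        have h7 : (n : ℕ) < (nab θ.2.1 s).1 := by
          simp only [nab]
          omega
        rw [seg, if_pos h7, Submodule.mem_bot] at h5
        exact congrFun h5 c
    have hUU : UU S (nE θ.1) (nab θ.2.1) l (n : ℕ) = ⊥ := by
      rw [UU, hbot]
      simp
    rw [hUU, Submodule.map_bot, finrank_bot]
    exact Nat.zero_le _

end total

end SumJ

variable {d : ℕ} {K : Type} [Fintype K]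

open SumJ in
theorem count_PG {M T : Type} [Fintype M] [Fintype T] [DecidableEq K]
    (S : Sys4 d (M ⊕ T × Fin 2) K)
    (hM : ∀ m y, S.w (Sum.inl m) = S.w y → y = Sum.inl m)
    (hT : ∀ s c s' c', S.w (Sum.inr (s, c)) = S.w (Sum.inr (s', c')) → s = s')
    (hT' : ∀ s c c', S.w (Sum.inr (s, c)) = S.w (Sum.inr (s, c')))
    (hlv1 : ∀ j x y, S.T j x y ≠ 0 → S.lv x = S.lv y + 1) (hlv2 : ∀ x, S.lv x ≤ 3)
    (hlv3 : ∀ s c, S.lv (Sum.inr (s, c)) = 3)
    (F : Type) [Field F] [Finite F] (hblk : ∀ b, BlkA F S b ∨ BlkB F S b)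
    (e k : ℕ) (hk : k ≤ e) :
    ∃ A : ℕ, A ≤ 2 ^ Fintype.card T *
        (e + 1) ^ (Fintype.card M + 2 * Fintype.card T + Fintype.card K) ∧
      (∀ N, Nat.card (Reg4 (regc (K := K) S.lv) N k) ≤ A) ∧
      ∀ (u : Fˣ) (ℓ : ℕ) (_ : ℓ.Prime) (m κ : ℕ) (_ : u ^ (ℓ ^ m) = 1)
        (_ : Sep (u ^ (ℓ ^ κ)) (Fintype.card K)) (_ : ℓ ^ (κ + 1) ∣ Nat.card F - 1),
        Nat.card {G // S.PG F e k G} ≡ A [MOD ℓ ^ (κ + 1)] := by
  classical
  obtain ⟨l0⟩ : Nonempty (Ln F) := by
    have hfin : Finite (Submodule F (Fin 2 → F)) := inferInstance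
    have h1 : 0 < Nat.card (Ln F) := by rw [card_Ln]; exact Nat.succ_pos _
    exact (Nat.card_pos_iff.mp h1).1
  obtain ⟨idx, hidx⟩ := exists_idx S.w4
  have hν : ∀ θ : Th M T K e, ∃ ν ≤ 2 ^ Fintype.card T,
      Nat.card (ZZ S e k l0 idx θ) ≡ ν [MOD Nat.card F - 1] ∧
      (ZZ S e k l0 idx θ = Set.univ → 1 ≤ ν) :=
    fun θ => exists_nu (ZZ_closed S hlv1 hlv2 hlv3 hblk e k l0 idx θ)
  choose ν hν1 hν2 hν3 using hν
  refine ⟨∑ θ, ν θ, ?_, fun N => ?_, ?_⟩
  · calc ∑ θ, ν θ ≤ ∑ _θ : Th M T K e, 2 ^ Fintype.card T := Finset.sum_le_sum fun θ _ => hν1 θ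
      _ = 2 ^ Fintype.card T *
        (e + 1) ^ (Fintype.card M + 2 * Fintype.card T + Fintype.card K) := by
        rw [Finset.sum_const, Finset.card_univ, card_Th, smul_eq_mul, mul_comm]
  · have hle : ∀ (E : Reg4 (regc (K := K) S.lv) N k) (x : (M ⊕ T × Fin 2) ⊕ K), E.1 x ≤ e := by
      intro E x
      have h1 := Finset.single_le_sum (f := E.1) (fun _ _ => Nat.zero_le _) (Finset.mem_univ x)
      have h2 := E.2.2
      omega
    let f : Reg4 (regc (K := K) S.lv) N k → {θ : Th M T K e // ZZ S e k l0 idx θ = Set.univ} :=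
      fun E => ⟨((fun m => ⟨E.1 (Sum.inl (Sum.inl m)), Nat.lt_succ_of_le (hle E _)⟩),
        (fun s => (⟨E.1 (Sum.inl (Sum.inr (s, 0))), Nat.lt_succ_of_le (hle E _)⟩,
          ⟨E.1 (Sum.inl (Sum.inr (s, 1))), Nat.lt_succ_of_le (hle E _)⟩)),
        (fun x => ⟨E.1 (Sum.inr x), Nat.lt_succ_of_le (hle E _)⟩)), by
          apply ZZ_univ S hlv1 hlv2 hlv3 e k l0 idx N
          · intro m
            exact E.2.1 (Sum.inl (Sum.inl m))
          · intro s
            have h1 := E.2.1 (Sum.inl (Sum.inr (s, 0)))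
            have h2 := E.2.1 (Sum.inl (Sum.inr (s, 1)))
            simp only [regc, Fin.val_zero, Fin.val_one] at h1 h2
            simp only
            omega
          · intro x
            have h1 := E.2.1 (Sum.inr x)
            simp only [regc] at h1
            simp only
            omega
          · have h1 := E.2.2
            rw [Fintype.sum_sum_type, Fintype.sum_sum_type, Fintype.sum_prod_type] at h1
            simp only [Fin.sum_univ_two] at h1
            exact h1⟩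
    have hf : Function.Injective f := by
      intro E E' h
      have h1 := congrArg Subtype.val h
      simp only [f, Prod.mk.injEq] at h1
      obtain ⟨h2, h3, h4⟩ := h1
      apply Subtype.ext
      funext x
      rcases x with (m | ⟨s, c⟩) | x
      · exact congrArg Fin.val (congrFun h2 m)
      · have h5 := congrFun h3 s
        simp only [Prod.mk.injEq] at h5
        fin_cases c
        · exact congrArg Fin.val h5.1
        · exact congrArg Fin.val h5.2
      · exact congrArg Fin.val (congrFun h4 x)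
    calc Nat.card (Reg4 (regc (K := K) S.lv) N k)
        ≤ Nat.card {θ : Th M T K e // ZZ S e k l0 idx θ = Set.univ} :=
          Nat.card_le_card_of_injective f hf
      _ = ∑ θ ∈ Finset.univ.filter (fun θ : Th M T K e => ZZ S e k l0 idx θ = Set.univ), 1 := by
          rw [Nat.card_eq_fintype_card, Fintype.card_subtype, Finset.sum_const, smul_eq_mul,
            mul_one]
      _ ≤ ∑ θ ∈ Finset.univ.filter (fun θ : Th M T K e => ZZ S e k l0 idx θ = Set.univ), ν θ :=
          Finset.sum_le_sum fun θ hθ => hν3 θ (Finset.mem_filter.mp hθ).2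
      _ ≤ ∑ θ, ν θ := Finset.sum_le_sum_of_subset (Finset.filter_subset _ _)
  · intro u ℓ hℓ m κ hu hsep hdvd
    refine (card_PG_mod S hM hT hT' e k l0 idx hidx u ℓ hℓ m κ hu hsep).trans ?_
    exact modEq_sum _ _ _ _ fun θ _ => (hν2 θ).of_dvd hdvd

end Four

end GradedTop
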