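import Pool.Agent.Lib.GradedFour.Basic

/-!
# Lattices of small index and subspaces of `(F[X]/X^e)^I`
-/

namespace GradedTop

namespace Four

open IsLocalRing Submodule Module Polynomial

section Th

variable {R : Type} [CommRing R] {F : Type} [Field F] {e : ℕ}
  (π : R →+* F[X] ⧸ Ideal.span {(X : F[X]) ^ e})

/-- a polynomial representing `π r` -/
noncomputable def rp (r : R) : F[X] := (Ideal.Quotient.mk_surjective (π r)).choose

lemma mk_rp (r : R) : Ideal.Quotient.mk (Ideal.span {(X : F[X]) ^ e}) (rp π r) = π r :=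
  (Ideal.Quotient.mk_surjective (π r)).choose_spec

lemma coeff_eq_of_mk {P Q : F[X]} (h : Ideal.Quotient.mk (Ideal.span {(X : F[X]) ^ e}) P =
    Ideal.Quotient.mk (Ideal.span {(X : F[X]) ^ e}) Q) (n : ℕ) (hn : n < e) :
    P.coeff n = Q.coeff n := by
  rw [Ideal.Quotient.eq, Ideal.mem_span_singleton, X_pow_dvd_iff] at h
  have h1 := h n hn
  rwa [coeff_sub, sub_eq_zero] at h1

/-- coefficients of the reduction of a vector -/
noncomputable def Th {I : Type} (v : I → R) : Fin e × I → F :=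
  fun p => (rp π (v p.2)).coeff (p.1 : ℕ)

variable {I : Type}

lemma Th_eq (v : I → R) (P : I → F[X])
    (h : ∀ i, Ideal.Quotient.mk (Ideal.span {(X : F[X]) ^ e}) (P i) = π (v i)) :
    Th π v = fun p => (P p.2).coeff (p.1 : ℕ) := by
  funext p
  exact coeff_eq_of_mk ((mk_rp π _).trans (h _).symm) _ p.1.2

lemma Th_add (v v' : I → R) : Th π (v + v') = Th π v + Th π v' := by
  rw [Th_eq π (v + v') (fun i => rp π (v i) + rp π (v' i))
    (fun i => by rw [map_add, mk_rp, mk_rp, Pi.add_apply, map_add])]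
  funext p
  rw [coeff_add]; rfl

lemma Th_zero : Th π (0 : I → R) = 0 := by
  rw [Th_eq π 0 (fun _ => 0) (fun i => by rw [map_zero, Pi.zero_apply, map_zero])]
  funext p
  rw [coeff_zero]; rfl

/-- the map `Th` as a homomorphism -/
noncomputable def ThA (I : Type) : (I → R) →+ (Fin e × I → F) where
  toFun := Th π
  map_zero' := Th_zero π
  map_add' := Th_add π

lemma Th_smul_C (r : R) (c : F) (h : π r = Ideal.Quotient.mk _ (C c)) (v : I → R) :
    Th π (r • v) = c • Th π v := by
  rw [Th_eq π (r • v) (fun i => C c * rp π (v i))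
    (fun i => by rw [map_mul, mk_rp, Pi.smul_apply, smul_eq_mul, map_mul, h])]
  funext p
  rw [coeff_C_mul]; rfl

lemma Th_smul_X (r : R) (h : π r = Ideal.Quotient.mk _ X) (v : I → R) :
    Th π (r • v) = sh F e I (Th π v) := by
  rw [Th_eq π (r • v) (fun i => X * rp π (v i))
    (fun i => by rw [map_mul, mk_rp, Pi.smul_apply, smul_eq_mul, map_mul, h])]
  funext p
  obtain ⟨⟨n, hn⟩, i⟩ := p
  cases n with
  | zero =>
    change (X * rp π (v i)).coeff 0 = _
    rw [mul_coeff_zero, coeff_X_zero, zero_mul]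
    rfl
  | succ n =>
    change (X * rp π (v i)).coeff (n + 1) = _
    rw [coeff_X_mul]
    rfl

/-- a subspace stable under the shift is stable under multiplication by polynomials -/
lemma sh_stable (V : Submodule F (Fin e × I → F)) (hV : V.map (sh F e I) ≤ V)
    (Q : I → F[X]) (hQ : (fun p : Fin e × I => (Q p.2).coeff (p.1 : ℕ)) ∈ V) (P : F[X]) :
    (fun p : Fin e × I => (P * Q p.2).coeff (p.1 : ℕ)) ∈ V := by
  have hX : ∀ n : ℕ, (fun p : Fin e × I => (X ^ n * Q p.2).coeff (p.1 : ℕ)) ∈ V := by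
    intro n
    induction n with
    | zero => simpa using hQ
    | succ n ih =>
      have h1 := hV ⟨_, ih, rfl⟩
      convert h1 using 1
      funext p
      obtain ⟨⟨m, hm⟩, i⟩ := p
      cases m with
      | zero =>
        change (X ^ (n + 1) * Q i).coeff 0 = _
        rw [pow_succ', mul_assoc, mul_coeff_zero, coeff_X_zero, zero_mul]
        rfl
      | succ m =>
        change (X ^ (n + 1) * Q i).coeff (m + 1) = _
        rw [pow_succ', mul_assoc, coeff_X_mul]
        rfl
  induction P using Polynomial.induction_on' with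
  | add P P' h h' =>
    have h1 := V.add_mem h h'
    convert h1 using 1
    funext p
    rw [Pi.add_apply, add_mul, coeff_add]
  | monomial n a =>
    have h1 := V.smul_mem a (hX n)
    convert h1 using 1
    funext p
    rw [Pi.smul_apply, smul_eq_mul, ← coeff_C_mul, ← mul_assoc, C_mul_X_pow_eq_monomial]

lemma Th_tl {I' : Type} [Fintype I] (M : Matrix I' I ℤ) (v : I → R) :
    Th π (tl R M v) = lw F e M (Th π v) := by
  rw [Th_eq π (tl R M v) (fun x => ∑ y, C (M x y : F) * rp π (v y))]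
  · funext p
    rw [finsetSum_coeff]
    change _ = ∑ y, ((M p.2 y : ℤ) : F) * Th π v (p.1, y)
    refine Finset.sum_congr rfl fun y _ => ?_
    rw [coeff_C_mul]; rfl
  · intro x
    rw [map_sum, tl_apply, map_sum]
    refine Finset.sum_congr rfl fun y _ => ?_
    rw [map_mul, mk_rp, map_mul, map_intCast, map_intCast, map_intCast]

lemma Th_cut (f : I → ℕ) (c : ℕ) (v : I → R) :
    Th π (cut f c v) = cut (fun p : Fin e × I => f p.2) c (Th π v) := by
  rw [Th_eq π (cut f c v) (fun i => if f i = c then rp π (v i) else 0)]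
  · funext p
    unfold cut
    by_cases h : f p.2 = c
    · simp only [if_pos h]; rfl
    · simp only [if_neg h, coeff_zero]
  · intro i
    unfold cut
    by_cases h : f i = c
    · rw [if_pos h, if_pos h, mk_rp]
    · rw [if_neg h, if_neg h, map_zero, map_zero]

lemma Th_surjective (hπ : Function.Surjective π) :
    Function.Surjective (Th (I := I) π) := by
  intro y
  have h1 : ∀ i, ∃ r, π r = Ideal.Quotient.mk (Ideal.span {(X : F[X]) ^ e})
      (∑ n : Fin e, monomial (n : ℕ) (y (n, i))) := fun i => hπ _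
  choose v hv using h1
  refine ⟨v, ?_⟩
  rw [Th_eq π v _ (fun i => (hv i).symm)]
  funext p
  obtain ⟨n, i⟩ := p
  rw [finsetSum_coeff, Finset.sum_eq_single n]
  · rw [coeff_monomial, if_pos rfl]
  · intro m _ hm
    rw [coeff_monomial, if_neg (fun h => hm (Fin.ext h))]
  · intro h; exact absurd (Finset.mem_univ n) h

lemma Th_eq_zero (v : I → R) (h : Th π v = 0) (i : I) : v i ∈ RingHom.ker π := by
  rw [RingHom.mem_ker, ← mk_rp, Ideal.Quotient.eq_zero_iff_mem, Ideal.mem_span_singleton,
    X_pow_dvd_iff]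
  intro n hn
  exact congrFun h (⟨n, hn⟩, i)

/-- the image of a lattice -/
noncomputable def dn (hπ : Function.Surjective π) (N : Submodule R (I → R)) :
    Submodule F (Fin e × I → F) where
  carrier := Th π '' N
  add_mem' := by
    rintro _ _ ⟨v, hv, rfl⟩ ⟨v', hv', rfl⟩
    exact ⟨v + v', N.add_mem hv hv', Th_add π v v'⟩
  zero_mem' := ⟨0, N.zero_mem, Th_zero π⟩
  smul_mem' := by
    rintro c _ ⟨v, hv, rfl⟩
    obtain ⟨r, hr⟩ := hπ (Ideal.Quotient.mk _ (C c))
    exact ⟨r • v, N.smul_mem r hv, Th_smul_C π r c hr v⟩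

lemma mem_dn (hπ : Function.Surjective π) (N : Submodule R (I → R)) (y : Fin e × I → F) :
    y ∈ dn π hπ N ↔ ∃ v ∈ N, Th π v = y := Iff.rfl

/-- the preimage of a shift stable subspace -/
noncomputable def up (V : Submodule F (Fin e × I → F)) (hV : V.map (sh F e I) ≤ V) :
    Submodule R (I → R) where
  carrier := Th π ⁻¹' V
  add_mem' := by
    intro v v' hv hv'
    change Th π (v + v') ∈ V
    rw [Th_add]; exact V.add_mem hv hv'
  zero_mem' := by
    change Th π 0 ∈ V
    rw [Th_zero]; exact V.zero_mem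
  smul_mem' := by
    intro r v hv
    change Th π (r • v) ∈ V
    rw [Th_eq π (r • v) (fun i => rp π r * rp π (v i))
      (fun i => by rw [map_mul, mk_rp, mk_rp, Pi.smul_apply, smul_eq_mul, map_mul])]
    exact sh_stable V hV (fun i => rp π (v i)) hv _

lemma mem_up (V : Submodule F (Fin e × I → F)) (hV : V.map (sh F e I) ≤ V) (v : I → R) :
    v ∈ up π V hV ↔ Th π v ∈ V := Iff.rfl

lemma dn_up (hπ : Function.Surjective π) (V : Submodule F (Fin e × I → F))
    (hV : V.map (sh F e I) ≤ V) : dn π hπ (up π V hV) = V := by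
  ext y
  rw [mem_dn]
  constructor
  · rintro ⟨v, hv, rfl⟩; exact hv
  · intro hy
    obtain ⟨v, rfl⟩ := Th_surjective π hπ y
    exact ⟨v, hy, rfl⟩

lemma mem_of_Th_mem_dn (hπ : Function.Surjective π) (N : Submodule R (I → R))
    (hN : ∀ v : I → R, (∀ i, v i ∈ RingHom.ker π) → v ∈ N) (v : I → R) :
    Th π v ∈ dn π hπ N ↔ v ∈ N := by
  constructor
  · rintro ⟨v', hv', h⟩
    have h1 : Th π (v - v') = 0 := by
      have h2 := Th_add π (v - v') v'
      rw [sub_add_cancel, h] at h2
      exact left_eq_add.1 (h2.trans (add_comm _ _))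
    have h3 := N.add_mem (hN _ (Th_eq_zero π _ h1)) hv'
    rwa [sub_add_cancel] at h3
  · intro hv; exact ⟨v, hv, rfl⟩

lemma dn_stable (hπ : Function.Surjective π) (N : Submodule R (I → R)) :
    (dn π hπ N).map (sh F e I) ≤ dn π hπ N := by
  rw [Submodule.map_le_iff_le_comap]
  rintro _ ⟨v, hv, rfl⟩
  obtain ⟨r, hr⟩ := hπ (Ideal.Quotient.mk _ X)
  exact ⟨r • v, N.smul_mem r hv, Th_smul_X π r hr v⟩

lemma cardQuot_eq (hπ : Function.Surjective π) (N : Submodule R (I → R))
    (V : Submodule F (Fin e × I → F)) (h : ∀ v, Th π v ∈ V ↔ v ∈ N) [Finite F] [Finite I] :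
    cardQuot N = Nat.card F ^ finrank F ((Fin e × I → F) ⧸ V) := by
  have h1 : N.toAddSubgroup = V.toAddSubgroup.comap (ThA π I) := by
    ext v; exact (h v).symm
  have h2 : cardQuot N = (V.toAddSubgroup.comap (ThA π I)).index := by
    rw [← h1]; rfl
  rw [h2, AddSubgroup.index_comap_of_surjective _ (Th_surjective π hπ)]
  have h3 : V.toAddSubgroup.index = Nat.card ((Fin e × I → F) ⧸ V) := rfl
  rw [h3, Module.natCard_eq_pow_finrank (K := F)]

end Th

section Small

variable {R : Type} [CommRing R] [IsDomain R] [IsDiscreteValuationRing R]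
  [Finite (ResidueField R)]

/-- lattices of index dividing `q^k` contain `m^k` -/
lemma smul_mem_of_cardQuot {I : Type} {ϖ : R} (hϖ : Irreducible ϖ) (k : ℕ)
    (N : Submodule R (I → R)) (hN : cardQuot N ∣ resCard R ^ k) (v : I → R) : ϖ ^ k • v ∈ N := by
  have hq := resCard_pos (R := R)
  have hqk : resCard R ^ k ≠ 0 := by positivity
  -- the cyclic module generated by `v`
  set f : R →ₗ[R] ((I → R) ⧸ N) := N.mkQ ∘ₗ LinearMap.toSpanSingleton R (I → R) v with hf
  set J : Ideal R := LinearMap.ker f with hJ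
  have hmem : ∀ r, r ∈ J ↔ r • v ∈ N := by
    intro r
    rw [hJ, LinearMap.mem_ker, hf, LinearMap.comp_apply, LinearMap.toSpanSingleton_apply,
      Submodule.mkQ_apply, Submodule.Quotient.mk_eq_zero]
  have hfin : Finite ((I → R) ⧸ N) := by
    apply Nat.finite_of_card_ne_zero
    intro h0
    rw [cardQuot_apply, h0, zero_dvd_iff] at hN
    exact hqk hN
  have hdvd : cardQuot J ∣ resCard R ^ k := by
    refine dvd_trans ?_ hN
    have h1 : cardQuot J = Nat.card (LinearMap.range f) := by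
      rw [cardQuot_apply]
      exact Nat.card_congr (LinearMap.quotKerEquivRange f).toEquiv
    rw [h1, cardQuot_apply]
    exact AddSubgroup.card_addSubgroup_dvd_card (LinearMap.range f).toAddSubgroup
  have hJ0 : J ≠ ⊥ := by
    intro h0
    have hinj : Function.Injective f := LinearMap.ker_eq_bot.1 h0
    have : Finite R := Finite.of_injective f hinj
    exact IsDiscreteValuationRing.not_isField R (Finite.isField_of_domain R)
  obtain ⟨a, ha⟩ := IsDiscreteValuationRing.ideal_eq_span_pow_irreducible hJ0 hϖ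
  rw [ha, cardQuot_span_pow hϖ] at hdvd
  have h2 : a ≤ k := (Nat.pow_dvd_pow_iff_le_right (by omega : 1 < resCard R)).1 hdvd
  rw [← hmem, ha, Ideal.mem_span_singleton]
  exact pow_dvd_pow ϖ h2

end Small

variable {d : ℕ} {J K : Type} [Fintype J] [Fintype K]

theorem trunc (S : Sys4 d J K) (R : Type) [CommRing R] [IsDomain R] [IsDiscreteValuationRing R]
    (F : Type) [Field F] [Finite F] (e k : ℕ) (hk : k ≤ e)
    (π : R →+* F[X] ⧸ Ideal.span {(X : F[X]) ^ e}) (hπ : Function.Surjective π)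
    (hker : RingHom.ker π = maximalIdeal R ^ e) (hcard : resCard R = Nat.card F) :
    Nat.card {N // S.P R (resCard R ^ k) N} = Nat.card {V // S.PF F e k V} := by
  have hFq : 1 < Nat.card F := Finite.one_lt_card
  have hfinres : Finite (ResidueField R) := by
    apply Nat.finite_of_card_ne_zero
    have : Nat.card (ResidueField R) = Nat.card F := hcard
    omega
  have hq := resCard_pos (R := R)
  obtain ⟨ϖ, hϖ⟩ := IsDiscreteValuationRing.exists_irreducible R
  have hbig : ∀ {I : Type} (N : Submodule R (I → R)), cardQuot N ∣ resCard R ^ k →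
      ∀ v : I → R, (∀ i, v i ∈ RingHom.ker π) → v ∈ N := by
    intro I N hN v hv
    have h1 : ∀ i, ∃ c, v i = ϖ ^ k * c := by
      intro i
      have h2 := hv i
      rw [hker, hϖ.maximalIdeal_eq, Ideal.span_singleton_pow, Ideal.mem_span_singleton] at h2
      exact (pow_dvd_pow ϖ hk).trans h2
    choose c hc using h1
    have h3 := smul_mem_of_cardQuot hϖ k N hN c
    convert h3 using 1
    funext i
    rw [hc i]; rfl
  have hdv1 : ∀ N, S.P R (resCard R ^ k) N → cardQuot N.1 ∣ resCard R ^ k :=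
    fun N h => Dvd.intro _ h.2.2.2
  have hdv2 : ∀ N, S.P R (resCard R ^ k) N → cardQuot N.2 ∣ resCard R ^ k :=
    fun N h => Dvd.intro_left _ h.2.2.2
  refine Nat.card_congr (Equiv.ofBijective (fun N => ⟨(dn π hπ N.1.1, dn π hπ N.1.2), ?_⟩)
    ⟨?_, ?_⟩)
  · have hN := N.2
    have b1 := mem_of_Th_mem_dn π hπ N.1.1 (hbig _ (hdv1 _ hN))
    have b2 := mem_of_Th_mem_dn π hπ N.1.2 (hbig _ (hdv2 _ hN))
    obtain ⟨h1, h2, h3, h4⟩ := hN
    refine ⟨?_, dn_stable π hπ _, dn_stable π hπ _, ?_, ?_, ?_⟩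
    · rintro _ ⟨v, hv, rfl⟩ c
      exact ⟨cut S.lv c v, h1 v hv c, Th_cut π _ _ _⟩
    · intro j
      rw [Submodule.map_le_iff_le_comap]
      rintro _ ⟨v, hv, rfl⟩
      exact ⟨tl R (S.T j) v, h2 j ⟨v, hv, rfl⟩, Th_tl π _ _⟩
    · intro j
      rw [Submodule.map_le_iff_le_comap]
      rintro _ ⟨v, hv, rfl⟩
      exact ⟨tl R (S.T4 j) v, h3 j ⟨v, hv, rfl⟩, Th_tl π _ _⟩
    · rw [cardQuot_eq π hπ _ _ b1, cardQuot_eq π hπ _ _ b2, ← pow_add] at h4
      have h5 : resCard R ^ k = Nat.card F ^ k := by rw [hcard]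
      exact Nat.pow_right_injective hFq (h4.trans h5)
  · intro N N' h
    have h1 := congrArg Subtype.val h
    simp only [Prod.mk.injEq] at h1
    apply Subtype.ext
    refine Prod.ext ?_ ?_
    · ext v
      rw [← mem_of_Th_mem_dn π hπ N.1.1 (hbig _ (hdv1 _ N.2)), h1.1,
        mem_of_Th_mem_dn π hπ N'.1.1 (hbig _ (hdv1 _ N'.2))]
    · ext v
      rw [← mem_of_Th_mem_dn π hπ N.1.2 (hbig _ (hdv2 _ N.2)), h1.2,
        mem_of_Th_mem_dn π hπ N'.1.2 (hbig _ (hdv2 _ N'.2))]
  · rintro ⟨⟨V1, V2⟩, hV⟩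
    refine ⟨⟨(up π V1 hV.sh1, up π V2 hV.sh2), ?_, ?_, ?_, ?_⟩, ?_⟩
    · intro v hv c
      change Th π (cut S.lv c v) ∈ V1
      rw [Th_cut]
      exact hV.hom _ hv c
    · intro j
      rw [Submodule.map_le_iff_le_comap]
      intro v hv
      change Th π (tl R (S.T j) v) ∈ V1
      rw [Th_tl]
      exact hV.t j ⟨_, hv, rfl⟩
    · intro j
      rw [Submodule.map_le_iff_le_comap]
      intro v hv
      change Th π (tl R (S.T4 j) v) ∈ V2
      rw [Th_tl]
      exact hV.t4 j ⟨_, hv, rfl⟩
    · rw [cardQuot_eq π hπ (up π V1 hV.sh1) V1 (fun v => Iff.rfl),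
        cardQuot_eq π hπ (up π V2 hV.sh2) V2 (fun v => Iff.rfl), ← pow_add, hcard]
      congr 1
      exact hV.card
    · apply Subtype.ext
      exact Prod.ext (dn_up π hπ V1 hV.sh1) (dn_up π hπ V2 hV.sh2)

end Four

end GradedTop
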