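import Pool.Agent.Lib.GradedFour.Region
import Pool.Agent.Lib.GradedFour.Ram
import Pool.Agent.Lib.GradedFour.NumIdeals
import Pool.Agent.Lib.GradedFour.Trunc
import Pool.Agent.Lib.GradedFour.Fix
import Pool.Agent.Lib.GradedFour.LieBlocks
import Pool.Agent.Lib.GradedFour.Comb
import Pool.Agent.Lib.GradedFour.Sum

/-!
# Class four
-/

namespace GradedTop

namespace Four

open Filter Topology IsLocalRing Polynomial

lemma regc_le (d : ℕ) (x : (MM d ⊕ TT d × Fin 2) ⊕ KK d) :
    regc (K := KK d) (lieSys d).lv x ≤ 4 := by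
  rcases x with (m | ⟨s, c⟩) | z
  · have h := lieSys_hlv4 d (Sum.inl m)
    simp only [regc]
    omega
  · have := c.2
    simp only [regc]
    omega
  · simp [regc]

/-- the bound for the separation at level `k` -/
noncomputable def Wk (d k : ℕ) : ℕ := (k + 1) * (4 * 5 ^ d + 1) + Fintype.card (KK d) + 1

theorem class_four (d : ℕ) (Z : RatFunc ℚ) (h : IsTop 4 d Z) :
    Z ≠ 0 ∧ Z.intDegree = -rk 4 d := by
  classical
  obtain ⟨m, t, n, χ, s₀, B, hreal, hloc⟩ := h
  obtain ⟨p, hpB, hp⟩ := Nat.exists_infinite_primes (B + 3)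
  have : Fact p.Prime := ⟨hp⟩
  have : Fact (Nat.Prime 2) := ⟨Nat.prime_two⟩
  have hne : (2 : ℕ) ≠ p := by omega
  obtain ⟨h1, h2⟩ := hloc p hp (by omega)
  rw [rk_four] at hreal ⊢
  set ρ := Fintype.card (MM d) + 2 * Fintype.card (TT d) + Fintype.card (KK d) with hρ
  set U : Ultrafilter ℕ := hyperfilter ℕ with hU
  have hUle : (U : Filter ℕ) ≤ atTop := Nat.hyperfilter_le_atTop
  -- the counting functions
  have hcount : ∀ N k : ℕ, ∃ A : ℕ, A ≤ 2 ^ (Fintype.card (TT d) + ρ) * (k + 1) ^ ρ ∧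
      (∀ M, Nat.card (Reg4 (regc (K := KK d) (lieSys d).lv) M k) ≤ A) ∧
      ∀ (κ C : ℕ), Wk d k ≤ 2 ^ C → 2 ^ (κ + C) ∣ p ^ N.factorial - 1 →
        numIdeals (WR p N.factorial) 4 d (resCard (WR p N.factorial) ^ k) ≡ A
          [MOD 2 ^ (κ + 1)] := by
    intro N k
    have hFc : Nat.card (GaloisField p N.factorial) = p ^ N.factorial :=
      GaloisField.card p _ N.factorial_ne_zero
    have : Finite (GaloisField p N.factorial) := inferInstance
    obtain ⟨A, hA1, hA2, hA3⟩ := count_PG (lieSys d) (lieSys_hM d) (lieSys_hT d) (lieSys_hT' d)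
      (lieSys_hlv1 d) (lieSys_hlv2 d) (lieSys_hlv3 d) (GaloisField p N.factorial)
      (fun b => lieSys_blocks d _ b) (k + 1) k (Nat.le_succ k)
    refine ⟨A, hA1.trans ?_, hA2, ?_⟩
    · rw [pow_add 2 (Fintype.card (TT d)) ρ, mul_assoc, ← mul_pow]
      refine Nat.mul_le_mul_left _ (Nat.pow_le_pow_left (by omega) _)
    intro κ C hC hdvd
    obtain ⟨R, _, _, _, _, _, _, _, π, hR1, hR2, hR3⟩ :=
      exists_ram p N.factorial (k + 1) N.factorial_ne_zero (Nat.succ_ne_zero k)
    have hq : 0 < resCard R := by rw [hR1]; exact pow_pos hp.pos _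
    have hWR := WR_resCard p _ N.factorial_ne_zero
    have hz : zetaSeries (WR p N.factorial) 4 d = zetaSeries R 4 d := by
      rw [h2 (WR p N.factorial), h2 R, hWR, hR1]
    have hz' : numIdeals (WR p N.factorial) 4 d (resCard (WR p N.factorial) ^ k) =
        numIdeals R 4 d (resCard R ^ k) := by
      have h3 := congrArg (PowerSeries.coeff k) hz
      simp only [zetaSeries, PowerSeries.coeff_mk] at h3
      exact_mod_cast h3
    rw [hz', numIdeals_four R d _ (pow_ne_zero _ hq.ne'),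
      trunc (lieSys d) R (GaloisField p N.factorial) (k + 1) k (Nat.le_succ k) π hR2 hR3
        (by rw [hR1, hFc])]
    obtain ⟨u, hu1, hu2⟩ := exists_root_field (GaloisField p N.factorial) 2 Nat.prime_two κ C
      (by rwa [hFc])
    have hC1 : 1 ≤ C := by
      by_contra hcon
      have : C = 0 := by omega
      subst this
      rw [Wk, pow_zero] at hC
      have : 0 < (k + 1) * (4 * 5 ^ d + 1) := by positivity
      omega
    refine (fix (lieSys d) (GaloisField p N.factorial) (k + 1) k u 2 Nat.prime_two (κ + C) κ hu1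
      (Wk d k) (Sep.mono hu2 hC) ?_ ?_).trans ?_
    · intro x
      have h3 := Nat.mul_le_mul_left (k + 1) (lieSys_w_lt d x)
      rw [Wk]
      have h4 : (lieSys d).w x + 1 = ((lieSys d).w x).succ := rfl
      rw [h4]
      omega
    · intro x
      have h3 := Nat.mul_le_mul_left (k + 1) (lieSys_w4_lt d x)
      rw [Wk]
      have h4 : (lieSys d).w4 x + 1 = ((lieSys d).w4 x).succ := rfl
      rw [h4]
      omega
    · refine hA3 u 2 Nat.prime_two (κ + C) κ hu1 (Sep.mono hu2 (le_trans ?_ hC)) ?_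
      · rw [Wk]; omega
      · rw [hFc]
        exact (pow_dvd_pow 2 (by omega)).trans hdvd
  choose A hA1 hA2 hA3 using hcount
  -- limits along the ultrafilter
  have hlimc : ∀ k, ∃ c : ℕ, ∀ᶠ N in (U : Filter ℕ), A N k = c := by
    intro k
    have h3 : ∀ᶠ N in (U : Filter ℕ), ∃ c ∈ Set.Iic (2 ^ (Fintype.card (TT d) + ρ) * (k + 1) ^ ρ),
        A N k = c := Eventually.of_forall fun N => ⟨A N k, hA1 N k, rfl⟩
    obtain ⟨c, _, hc⟩ := (Ultrafilter.eventually_exists_mem_iff (Set.finite_Iic _)).1 h3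
    exact ⟨c, hc⟩
  choose c hc using hlimc
  have hclow : ∀ M k, Nat.card (Reg4 (regc (K := KK d) (lieSys d).lv) M k) ≤ c k := by
    intro M k
    obtain ⟨N, hN⟩ := (hc k).exists
    rw [← hN]; exact hA2 N k M
  have hcup : ∀ k, c k ≤ 2 ^ (Fintype.card (TT d) + ρ) * (k + 1) ^ ρ := by
    intro k
    obtain ⟨N, hN⟩ := (hc k).exists
    rw [← hN]; exact hA1 N k
  -- congruences
  have hmod : ∀ κ k : ℕ, ∀ᶠ N in atTop,
      numIdeals (WR p N.factorial) 4 d (resCard (WR p N.factorial) ^ k) ≡ A N k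
        [MOD 2 ^ (κ + 1)] := by
    intro κ k
    obtain ⟨C, hC⟩ : ∃ C : ℕ, Wk d k ≤ 2 ^ C := ⟨Wk d k, Nat.lt_two_pow_self.le⟩
    filter_upwards [eventually_ge_atTop ((2 ^ (κ + C)).totient)] with N hN
    have hcop : Nat.Coprime p (2 ^ (κ + C)) :=
      Nat.Coprime.pow_right _ ((Nat.coprime_primes hp Nat.prime_two).2 hne.symm)
    have h3 : (2 ^ (κ + C)).totient ∣ N.factorial := by
      apply Nat.dvd_factorial _ hN
      exact Nat.totient_pos.2 (by positivity)
    have h4 : 2 ^ (κ + C) ∣ p ^ N.factorial - 1 := by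
      obtain ⟨e, he⟩ := h3
      have h5 : p ^ N.factorial ≡ 1 [MOD 2 ^ (κ + C)] := by
        rw [he, pow_mul]
        simpa using (Nat.ModEq.pow_totient hcop).pow e
      exact (Nat.modEq_iff_dvd' (Nat.one_le_pow _ _ hp.pos)).1 h5.symm
    exact hA3 N k κ C hC h4
  have htend : ∀ k, Tendsto (fun N : ℕ =>
      (((numIdeals (WR p N.factorial) 4 d (resCard (WR p N.factorial) ^ k) : ℕ) : ℤ) : ℚ_[2]))
      U (𝓝 ((c k : ℕ) : ℚ_[2])) := by
    intro k
    rw [Metric.tendsto_nhds]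
    intro ε hε
    obtain ⟨κ, hκ⟩ := PadicInt.exists_pow_neg_lt 2 hε
    filter_upwards [hUle (hmod κ k), hc k] with N h3 hN2
    rw [hN2] at h3
    have h4 : ((2 ^ κ : ℕ) : ℤ) ∣
        ((numIdeals (WR p N.factorial) 4 d (resCard (WR p N.factorial) ^ k) : ℕ) : ℤ) - (c k : ℤ) := by
      have h5 := Nat.modEq_iff_dvd.1 h3.symm
      refine dvd_trans ?_ h5
      exact_mod_cast pow_dvd_pow 2 (Nat.le_succ κ)
    rw [dist_eq_norm]
    have h6 : ((((numIdeals (WR p N.factorial) 4 d (resCard (WR p N.factorial) ^ k) : ℕ) : ℤ) :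
        ℚ_[2])) - ((c k : ℕ) : ℚ_[2]) =
        (((((numIdeals (WR p N.factorial) 4 d (resCard (WR p N.factorial) ^ k) : ℕ) : ℤ) -
          (c k : ℤ) : ℤ)) : ℚ_[2]) := by push_cast; ring
    rw [h6]
    refine lt_of_le_of_lt ?_ hκ
    rw [Padic.norm_int_le_pow_iff_dvd]
    exact_mod_cast h4
  have hcardX : Fintype.card ((MM d ⊕ TT d × Fin 2) ⊕ KK d) = ρ := by
    rw [Fintype.card_sum, Fintype.card_sum, Fintype.card_prod, Fintype.card_fin, hρ]
    ring
  refine lower_core_poly t χ ρ Z s₀ hreal 2 U (fun k => p ^ k.factorial) ?_ ?_ ?_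
    (fun i k => n i (p ^ k.factorial)) (fun i => (h1 2 hne i).mono_left hUle)
    (fun k j => (numIdeals (WR p k.factorial) 4 d (resCard (WR p k.factorial) ^ j) : ℤ)) ?_
    c htend (2 ^ (Fintype.card (TT d) + ρ)) ρ hcup ((1 / 8 : ℝ) ^ (5 * ρ)) (by positivity) ?_
  · intro k
    calc 2 ≤ p ^ 1 := by rw [pow_one]; omega
      _ ≤ p ^ k.factorial := Nat.pow_le_pow_right hp.pos k.factorial_pos
  · exact (tendsto_pow_factorial p 2 hne).mono_left hUle
  · intro k; exact norm_prime_pow p 2 hne _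
  · intro k
    have h3 := h2 (WR p k.factorial)
    rw [WR_resCard p _ k.factorial_ne_zero] at h3
    rw [← h3, zetaSeries, WR_resCard p _ k.factorial_ne_zero]
    ext j
    simp
  · intro M hM
    obtain ⟨s, hs⟩ := region_bound4 (regc (K := KK d) (lieSys d).lv) (regc_le d) M hM
    rw [hcardX] at hs
    refine ⟨s, hs.trans (Finset.sum_le_sum fun k _ => ?_)⟩
    have hM2 : (2 : ℝ) ≤ M := by exact_mod_cast hM
    have hinv : 1 / (M : ℝ) ≤ 1 / 2 := one_div_le_one_div_of_le (by norm_num) hM2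
    refine mul_le_mul_of_nonneg_right ?_ (pow_nonneg (by linarith) _)
    exact_mod_cast hclow M k

end Four

end GradedTop
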