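import Pool.Agent.Lib.GradedFour.Word

/-!
# The graded system of the free nilpotent Lie ring of class four
-/

namespace GradedTop

namespace Four

lemma cf_perm {d : ℕ} : ∀ (v w : List (Fin d)), cf w v ≠ 0 → w.Perm v
  | [], w, h => by simp [cf] at h
  | [x], w, h => by
    rw [cf] at h
    by_cases hw : w = [x]
    · rw [hw]
    · rw [if_neg hw] at h; exact absurd rfl h
  | x :: y :: v, w, h => by
    rw [cf] at h
    by_cases h1 : w.getLast? = some x ∧ cf w.dropLast (y :: v) ≠ 0
    · have hw : w.dropLast ++ [x] = w := List.dropLast_append_getLast? x h1.1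
      have h2 := cf_perm (y :: v) w.dropLast h1.2
      rw [← hw]
      exact (List.perm_append_singleton x _).trans (h2.cons x)
    · by_cases h2 : w.head? = some x ∧ cf w.tail (y :: v) ≠ 0
      · have hw : x :: w.tail = w := by
          cases w with
          | nil => simp at h2
          | cons z w => simp at h2; simp [h2.1]
        rw [← hw]
        exact (cf_perm (y :: v) w.tail h2.2).cons x
      · exfalso
        apply h
        have e1 : (if w.getLast? = some x then cf w.dropLast (y :: v) else 0) = 0 := by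
          by_cases h3 : w.getLast? = some x
          · rw [if_pos h3]; by_contra h4; exact h1 ⟨h3, h4⟩
          · rw [if_neg h3]
        have e2 : (if w.head? = some x then cf w.tail (y :: v) else 0) = 0 := by
          by_cases h3 : w.head? = some x
          · rw [if_pos h3]; by_contra h4; exact h2 ⟨h3, h4⟩
          · rw [if_neg h3]
        rw [e1, e2, sub_zero]

/-- indices of multiplicity free basis elements in degrees one to three -/
abbrev MM (d : ℕ) : Type :=
  Fin d ⊕ {p : Fin d × Fin d // p.1 < p.2} ⊕ {p : Fin d × Fin d // p.1 ≠ p.2}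

/-- triples -/
abbrev TT (d : ℕ) : Type := {p : Fin d × Fin d × Fin d // p.1 < p.2.1 ∧ p.2.1 < p.2.2}

/-- root words of length four: one representative for every primitive necklace -/
def Root4 {d : ℕ} (a b c e : Fin d) : Prop :=
  (a ≠ b ∧ a ≠ c ∧ a ≠ e ∧ (b ≠ c → b ≠ e → a < b) ∧ (c ≠ b → c ≠ e → a < c) ∧
    (e ≠ b → e ≠ c → a < e)) ∨ (a = b ∧ c = e ∧ c < a)

instance {d : ℕ} (a b c e : Fin d) : Decidable (Root4 a b c e) := by
  unfold Root4; infer_instance

/-- indices in degree four -/
abbrev KK (d : ℕ) : Type :=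
  {p : Fin d × Fin d × Fin d × Fin d // Root4 p.1 p.2.1 p.2.2.1 p.2.2.2}

/-- the word of an index -/
def lt {d : ℕ} : MM d ⊕ TT d × Fin 2 → List (Fin d)
  | Sum.inl (Sum.inl i) => [i]
  | Sum.inl (Sum.inr (Sum.inl p)) => [p.1.1, p.1.2]
  | Sum.inl (Sum.inr (Sum.inr p)) => [p.1.1, p.1.2, p.1.2]
  | Sum.inr (p, c) => if c = 0 then [p.1.1, p.1.2.1, p.1.2.2] else [p.1.1, p.1.2.2, p.1.2.1]

/-- the word of an index in degree four -/
def lt4 {d : ℕ} (p : KK d) : List (Fin d) := [p.1.1, p.1.2.1, p.1.2.2.1, p.1.2.2.2]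

/-- encoded multidegree -/
def wtl {d : ℕ} (v : List (Fin d)) : ℕ := (v.map fun i : Fin d => 5 ^ (i : ℕ)).sum

lemma wtl_perm {d : ℕ} {v w : List (Fin d)} (h : v.Perm w) : wtl v = wtl w :=
  (h.map _).sum_eq

lemma wtl_mod {d : ℕ} (v : List (Fin d)) : wtl v % 4 = v.length % 4 := by
  induction v with
  | nil => rfl
  | cons x v ih =>
    have h1 : wtl (x :: v) = 5 ^ (x : ℕ) + wtl v := by simp [wtl]
    have h2 : 5 ^ (x : ℕ) % 4 = 1 := by
      rw [Nat.pow_mod]; simp
    rw [h1, List.length_cons]
    omega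

lemma lt_length {d : ℕ} (x : MM d ⊕ TT d × Fin 2) : 1 ≤ (lt x).length ∧ (lt x).length ≤ 3 := by
  rcases x with (i | p | p) | ⟨p, c⟩
  · simp [lt]
  · simp [lt]
  · simp [lt]
  · simp only [lt]; split_ifs <;> simp

/-- The graded system of the free nilpotent Lie ring of class four. -/
def lieSys (d : ℕ) : Sys4 d (MM d ⊕ TT d × Fin 2) (KK d) where
  T j x y := cf (lt x) (j :: (lt y).reverse)
  T4 j x y := cf (lt4 x) (j :: (lt y).reverse)
  lv x := (lt x).length
  w0 j := 5 ^ (j : ℕ)
  w x := wtl (lt x)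
  w4 x := wtl (lt4 x)
  hT j x y h := by
    have h1 := wtl_perm ((cf_perm _ _ h).trans ((List.reverse_perm (lt y)).cons j))
    rw [h1, add_comm]; simp [wtl]
  hT4 j x y h := by
    have h1 := wtl_perm ((cf_perm _ _ h).trans ((List.reverse_perm (lt y)).cons j))
    rw [h1, add_comm]; simp [wtl]
  hlv x y h := by
    have h1 := wtl_mod (lt x)
    have h2 := wtl_mod (lt y)
    have h3 := lt_length x
    have h4 := lt_length y
    rw [h] at h1
    omega

end Four

end GradedTop
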