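import Pool.Agent.Lib.GradedFour.Spans

/-!
# Graded ideals of the free nilpotent Lie ring of class four in coordinates
-/

namespace GradedTop

namespace Four

open Submodule

section

variable {R : Type} [CommRing R] {d : ℕ}

variable (R) in
/-- coordinates in degrees one to three -/
noncomputable def LC : (MM d ⊕ TT d × Fin 2 → R) →ₗ[R] FreeLieAlgebra R (Fin d) := lc (bb R)

variable (R) in
/-- coordinates in degree four -/
noncomputable def LC4 : (KK d → R) →ₗ[R] FreeLieAlgebra R (Fin d) := lc (b4 R)

lemma co_LC (v : MM d ⊕ TT d × Fin 2 → R) (x : MM d ⊕ TT d × Fin 2) :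
    co R (lt x) (LC R v) = v x := by
  classical
  rw [LC, lc_apply, map_sum]
  simp only [map_smul, bb, co_lnb, cf_dual, smul_eq_mul]
  rw [Finset.sum_eq_single x]
  · simp
  · intro y _ hy
    rw [if_neg hy.symm]; simp
  · intro h; exact absurd (Finset.mem_univ x) h

lemma co_LC4 (v : KK d → R) (x : KK d) : co R (lt4 x) (LC4 R v) = v x := by
  classical
  rw [LC4, lc_apply, map_sum]
  simp only [map_smul, b4, co_lnb, cf_dual4, smul_eq_mul]
  rw [Finset.sum_eq_single x]
  · simp
  · intro y _ hy
    rw [if_neg hy.symm]; simp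
  · intro h; exact absurd (Finset.mem_univ x) h

lemma LC_injective : Function.Injective (LC R (d := d)) := by
  intro v v' h
  funext x
  rw [← co_LC v x, h, co_LC]

lemma LC4_injective : Function.Injective (LC4 R (d := d)) := by
  intro v v' h
  funext x
  rw [← co_LC4 v x, h, co_LC4]

lemma LC_co (z : FreeLieAlgebra R (Fin d)) (hz : z ∈ span R (Set.range (bb R (d := d)))) :
    LC R (fun x => co R (lt x) z) = z := by
  rw [← lc_range] at hz
  obtain ⟨v, rfl⟩ := hz
  congr 1
  funext x
  exact co_LC v x

lemma LC4_co (z : FreeLieAlgebra R (Fin d)) (hz : z ∈ span R (Set.range (b4 (d := d) R))) :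
    LC4 R (fun x => co R (lt4 x) z) = z := by
  rw [← lc_range] at hz
  obtain ⟨v, rfl⟩ := hz
  congr 1
  funext x
  exact co_LC4 v x

/-- `comp R d n` is spanned by the left-normed brackets of length `n` -/
lemma comp_eq_lnb (n : ℕ) : comp R d (n + 1) =
    span R {z | ∃ u : List (Fin d), u.length = n + 1 ∧ z = lnb R u} := by
  induction n with
  | zero =>
    apply le_antisymm
    · rw [comp, span_le]
      rintro _ ⟨x, rfl⟩
      exact subset_span ⟨[x], rfl, rfl⟩
    · rw [span_le]
      rintro _ ⟨u, hu, rfl⟩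
      obtain ⟨x, rfl⟩ := List.length_eq_one_iff.1 hu
      exact subset_span ⟨x, rfl⟩
  | succ n ih =>
    apply le_antisymm
    · rw [comp_succ, ih]
      refine iSup_le fun j => ?_
      rw [Submodule.map_span, span_le]
      rintro _ ⟨_, ⟨u, hu, rfl⟩, rfl⟩
      refine subset_span ⟨j :: u, by simp [hu], ?_⟩
      rw [lnb_cons _ _ (by rintro rfl; simp at hu)]; rfl
    · rw [span_le]
      rintro _ ⟨u, hu, rfl⟩
      cases u with
      | nil => simp at hu
      | cons x u =>
        have hu' : u.length = n + 1 := by simpa using hu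
        rw [lnb_cons _ _ (by rintro rfl; simp at hu')]
        rw [comp]
        refine subset_span ⟨lnb R u, ?_, x, rfl⟩
        rw [ih]
        exact subset_span ⟨u, hu', rfl⟩

lemma lnb_mem_comp (u : List (Fin d)) (n : ℕ) (hu : u.length = n + 1) :
    lnb R u ∈ comp R d (n + 1) := by
  rw [comp_eq_lnb]; exact subset_span ⟨u, hu, rfl⟩

lemma comp_le_bb (n : ℕ) (hn : n ≤ 3) : comp R d n ≤ span R (Set.range (bb R (d := d))) := by
  cases n with
  | zero => exact bot_le
  | succ n =>
    rw [comp_eq_lnb, span_le]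
    rintro _ ⟨u, hu, rfl⟩
    exact span_bb u (by omega)

lemma comp_le_b4 : comp R d 4 ≤ span R (Set.range (b4 (d := d) R)) := by
  rw [comp_eq_lnb 3, span_le]
  rintro _ ⟨u, hu, rfl⟩
  match u, hu with
  | [x, y, z, t], _ => exact span_b4 x y z t

lemma co_comp (n : ℕ) (w : List (Fin d)) (hw : w.length ≠ n) (z : FreeLieAlgebra R (Fin d))
    (hz : z ∈ comp R d n) : co R w z = 0 := by
  cases n with
  | zero =>
    rw [comp, Submodule.mem_bot] at hz
    rw [hz, map_zero]
  | succ n =>
    have h : comp R d (n + 1) ≤ LinearMap.ker (co R w) := by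
      rw [comp_eq_lnb, span_le]
      rintro _ ⟨u, hu, rfl⟩
      change co R w (lnb R u) = 0
      rw [co_lnb]
      have : cf w u = 0 := by
        by_contra hne
        exact hw ((cf_perm _ _ hne).length_eq.trans hu)
      rw [this, Int.cast_zero]
    exact h hz

/-! ### Structure constants -/

lemma T_lv (j : Fin d) (x y : MM d ⊕ TT d × Fin 2) (h : (lieSys d).T j x y ≠ 0) :
    (lieSys d).lv x = (lieSys d).lv y + 1 := by
  have := (cf_perm _ _ h).length_eq
  have h2 : (lt x).length = (lt y).length + 1 := by simpa using this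
  exact h2

lemma T4_lv (j : Fin d) (x : KK d) (y : MM d ⊕ TT d × Fin 2) (h : (lieSys d).T4 j x y ≠ 0) :
    (lieSys d).lv y = 3 := by
  have := (cf_perm _ _ h).length_eq
  have h2 : (lt4 x).length = 4 := rfl
  rw [h2] at this
  have h3 : 4 = (lt y).length + 1 := by simpa using this
  have h4 : (lieSys d).lv y = (lt y).length := rfl
  omega

lemma brk_bb (j : Fin d) (y : MM d ⊕ TT d × Fin 2) :
    brk j (bb R y) = lnb R (j :: (lt y).reverse) := by
  rw [lnb_cons]
  · rfl
  · intro h
    have h1 := lt_length y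
    rw [← List.length_reverse, h] at h1
    simp at h1

lemma brk_LC_low (j : Fin d) (v : MM d ⊕ TT d × Fin 2 → R)
    (hv : ∀ x, (lieSys d).lv x = 3 → v x = 0) :
    LC R (tl R ((lieSys d).T j) v) = brk j (LC R v) := by
  have h1 : brk j (LC R v) = ∑ y, v y • brk j (bb R y) := by
    rw [LC, lc_apply, map_sum]
    exact Finset.sum_congr rfl fun y _ => map_smul _ _ _
  have h2 : ∀ y, v y • brk j (bb R y) =
      ∑ x, (v y * (((lieSys d).T j x y : ℤ) : R)) • bb R x := by
    intro y
    by_cases hy : (lieSys d).lv y = 3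
    · rw [hv y hy]; simp
    · have hl : (lt y).length ≤ 2 := by
        have := lt_length y
        have h4 : (lieSys d).lv y = (lt y).length := rfl
        omega
      have h3 := LC_co (R := R) (lnb R (j :: (lt y).reverse))
        (span_bb _ (by simp only [List.length_cons, List.length_reverse]; omega))
      rw [brk_bb, ← h3, LC, lc_apply, Finset.smul_sum]
      refine Finset.sum_congr rfl fun x _ => ?_
      rw [co_lnb, smul_smul]; rfl
  rw [h1, Finset.sum_congr rfl fun y _ => h2 y, Finset.sum_comm, LC, lc_apply]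
  refine Finset.sum_congr rfl fun x _ => ?_
  rw [tl_apply, ← Finset.sum_smul]
  congr 1
  exact Finset.sum_congr rfl fun y _ => mul_comm _ _

lemma brk_LC_high (j : Fin d) (v : MM d ⊕ TT d × Fin 2 → R)
    (hv : ∀ x, (lieSys d).lv x ≠ 3 → v x = 0) :
    LC4 R (tl R ((lieSys d).T4 j) v) = brk j (LC R v) := by
  have h1 : brk j (LC R v) = ∑ y, v y • brk j (bb R y) := by
    rw [LC, lc_apply, map_sum]
    exact Finset.sum_congr rfl fun y _ => map_smul _ _ _
  have h2 : ∀ y, v y • brk j (bb R y) =
      ∑ x, (v y * (((lieSys d).T4 j x y : ℤ) : R)) • b4 R x := by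
    intro y
    by_cases hy : (lieSys d).lv y = 3
    · have hl : (lt y).length = 3 := hy
      have h3 := LC4_co (R := R) (lnb R (j :: (lt y).reverse))
        (comp_le_b4 (lnb_mem_comp _ 3 (by simpa using hl)))
      rw [brk_bb, ← h3, LC4, lc_apply, Finset.smul_sum]
      refine Finset.sum_congr rfl fun x _ => ?_
      rw [co_lnb, smul_smul]; rfl
    · rw [hv y hy]; simp
  rw [h1, Finset.sum_congr rfl fun y _ => h2 y, Finset.sum_comm, LC4, lc_apply]
  refine Finset.sum_congr rfl fun x _ => ?_
  rw [tl_apply, ← Finset.sum_smul]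
  congr 1
  exact Finset.sum_congr rfl fun y _ => mul_comm _ _

/-! ### Components -/

variable (R) in
/-- the part of degree `i` -/
noncomputable def Lm (i : ℕ) : (MM d ⊕ TT d × Fin 2 → R) →ₗ[R] FreeLieAlgebra R (Fin d) where
  toFun v := LC R (cut (lieSys d).lv i v)
  map_add' v v' := by
    rw [← map_add]; congr 1; funext x; simp only [cut, Pi.add_apply]; split_ifs <;> simp
  map_smul' r v := by
    rw [RingHom.id_apply, ← map_smul]; congr 1; funext x
    simp only [cut, Pi.smul_apply]; split_ifs <;> simp

lemma Lm_apply (i : ℕ) (v : MM d ⊕ TT d × Fin 2 → R) :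
    Lm R i v = LC R (cut (lieSys d).lv i v) := rfl

lemma cut_cut (i c : ℕ) (v : MM d ⊕ TT d × Fin 2 → R) :
    cut (lieSys d).lv i (cut (lieSys d).lv c v) = if i = c then cut (lieSys d).lv i v else 0 := by
  funext x
  by_cases h : i = c
  · subst h
    rw [if_pos rfl]
    simp only [cut]
    split_ifs <;> rfl
  · rw [if_neg h]
    simp only [cut, Pi.zero_apply]
    split_ifs with h1 h2
    · exact absurd (h1.symm.trans h2) h
    · rfl
    · rfl

lemma Lm_mem (i : ℕ) (hi : i ≠ 0) (v : MM d ⊕ TT d × Fin 2 → R) : Lm R i v ∈ comp R d i := by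
  obtain ⟨n, rfl⟩ := Nat.exists_eq_succ_of_ne_zero hi
  rw [Lm_apply, LC, lc_apply]
  refine Submodule.sum_mem _ fun x _ => ?_
  by_cases h : (lieSys d).lv x = n + 1
  · refine Submodule.smul_mem _ _ (lnb_mem_comp _ n ?_)
    rw [List.length_reverse]; exact h
  · have : cut (lieSys d).lv (n + 1) v x = 0 := by simp only [cut]; rw [if_neg h]
    rw [this, zero_smul]; exact Submodule.zero_mem _

lemma exists_Lm (i : ℕ) (hi : i ≤ 3) (z : FreeLieAlgebra R (Fin d)) (hz : z ∈ comp R d i) :
    ∃ c : MM d ⊕ TT d × Fin 2 → R, Lm R i c = z ∧ ∀ k, k ≠ i → Lm R k c = 0 := by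
  refine ⟨fun x => co R (lt x) z, ?_, ?_⟩
  · rw [Lm_apply]
    have h1 : cut (lieSys d).lv i (fun x => co R (lt x) z) = fun x => co R (lt x) z := by
      funext x
      simp only [cut]
      split_ifs with h
      · rfl
      · exact (co_comp i (lt x) h z hz).symm
    rw [h1, LC_co _ (comp_le_bb i hi hz)]
  · intro k hk
    rw [Lm_apply]
    have h1 : cut (lieSys d).lv k (fun x => co R (lt x) z) = 0 := by
      funext x
      simp only [cut, Pi.zero_apply]
      split_ifs with h
      · refine co_comp i (lt x) ?_ z hz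
        intro h2
        exact hk (h.symm.trans h2)
      · rfl
    rw [h1, map_zero]

lemma Lm_T (i : ℕ) (hi : i ≤ 2) (j : Fin d) (v : MM d ⊕ TT d × Fin 2 → R) :
    Lm R (i + 1) (tl R ((lieSys d).T j) v) = brk j (Lm R i v) := by
  rw [Lm_apply, Lm_apply, ← brk_LC_low]
  · congr 1
    funext x
    rw [tl_apply]
    simp only [cut]
    split_ifs with h
    · rw [tl_apply]
      refine Finset.sum_congr rfl fun y _ => ?_
      split_ifs with h2
      · rfl
      · have h3 : (lieSys d).T j x y = 0 := by
          by_contra hne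
          have := T_lv j x y hne
          exact h2 (by omega)
        rw [h3]; simp
    · symm
      refine Finset.sum_eq_zero fun y _ => ?_
      split_ifs with h2
      · have h3 : (lieSys d).T j x y = 0 := by
          by_contra hne
          have := T_lv j x y hne
          exact h (by omega)
        rw [h3]; simp
      · simp
  · intro x hx
    simp only [cut]
    rw [if_neg (by omega)]

lemma Lm_T_one (j : Fin d) (v : MM d ⊕ TT d × Fin 2 → R) :
    Lm R 1 (tl R ((lieSys d).T j) v) = 0 := by
  have h := Lm_T 0 (by omega) j v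
  rw [zero_add] at h
  rw [h, Lm_apply]
  have h1 : cut (lieSys d).lv 0 v = 0 := by
    funext x
    simp only [cut, Pi.zero_apply]
    rw [if_neg]
    have := (lt_length x).1
    have h4 : (lieSys d).lv x = (lt x).length := rfl
    omega
  rw [h1, map_zero, map_zero]

lemma LC4_T4 (j : Fin d) (v : MM d ⊕ TT d × Fin 2 → R) :
    LC4 R (tl R ((lieSys d).T4 j) v) = brk j (Lm R 3 v) := by
  rw [Lm_apply, ← brk_LC_high]
  · congr 1
    funext x
    rw [tl_apply, tl_apply]
    refine Finset.sum_congr rfl fun y _ => ?_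
    simp only [cut]
    split_ifs with h
    · rfl
    · have h3 : (lieSys d).T4 j x y = 0 := by
        by_contra hne
        exact h (T4_lv j x y hne)
      rw [h3]; simp
  · intro x hx
    simp only [cut]
    rw [if_neg hx]

lemma eq_of_Lm (v v' : MM d ⊕ TT d × Fin 2 → R) (h : ∀ i : Fin 3, Lm R (i + 1) v = Lm R (i + 1) v') :
    v = v' := by
  funext x
  have h1 := lt_length x
  have h4 : (lieSys d).lv x = (lt x).length := rfl
  have h2 := h ⟨(lieSys d).lv x - 1, by omega⟩
  have h3 : (lieSys d).lv x - 1 + 1 = (lieSys d).lv x := by omega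
  simp only [h3] at h2
  rw [Lm_apply, Lm_apply] at h2
  have h5 := congrFun (LC_injective h2) x
  simp only [cut, if_true] at h5
  exact h5

end

end Four

end GradedTop
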