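import Pool.Agent.Lib.GradedFour.RegDef
import Pool.Agent.Lib.GradedFour.LowerPoly

/-!
# The dominating region and roots of unity
-/

namespace GradedTop

namespace Four

open Filter Topology

theorem region_bound4 {X : Type} [Fintype X] [DecidableEq X] (c : X → ℕ) (hc : ∀ x, c x ≤ 4)
    (N : ℕ) (hN : 2 ≤ N) :
    ∃ s : Finset ℕ, (1 / 8 : ℝ) ^ (5 * Fintype.card X) * (N : ℝ) ^ Fintype.card X ≤
      ∑ k ∈ s, (Nat.card (Reg4 c N k) : ℝ) * (1 - 1 / (N : ℝ)) ^ k := by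
  classical
  have hNpos : (0 : ℝ) < N := by positivity
  have hN2 : (2 : ℝ) ≤ N := by exact_mod_cast hN
  set y : ℝ := 1 - 1 / (N : ℝ) with hy
  have hinv : 1 / (N : ℝ) ≤ 1 / 2 := one_div_le_one_div_of_le (by norm_num) hN2
  have hy0 : 0 ≤ y := by rw [hy]; linarith
  have hy1 : y ≤ 1 := by rw [hy]; have : 0 < 1 / (N : ℝ) := by positivity
                         linarith
  set F : Finset (X → ℕ) := Fintype.piFinset fun x => Finset.Ico (c x * N) ((c x + 1) * N) with hF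
  set ρ := Fintype.card X with hρ
  have hFcard : F.card = N ^ ρ := by
    rw [hF, Fintype.card_piFinset]
    have h1 : ∀ x ∈ (Finset.univ : Finset X),
        (Finset.Ico (c x * N) ((c x + 1) * N)).card = N := by
      intro x _
      rw [Nat.card_Ico, add_mul, one_mul, Nat.add_sub_cancel_left]
    rw [Finset.prod_congr rfl h1, Finset.prod_const, Finset.card_univ]
  have hσle : ∀ E ∈ F, ∑ x, E x ≤ 5 * N * ρ := by
    intro E hE
    rw [hF, Fintype.mem_piFinset] at hE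
    have b1 : ∑ x, E x ≤ Fintype.card X * (5 * N) := by
      rw [← smul_eq_mul, ← Finset.card_univ]
      refine Finset.sum_le_card_nsmul _ _ _ fun x _ => ?_
      have h1 := (Finset.mem_Ico.1 (hE x)).2
      have h2 : (c x + 1) * N ≤ 5 * N := Nat.mul_le_mul_right _ (by have := hc x; omega)
      omega
    calc ∑ x, E x ≤ Fintype.card X * (5 * N) := b1
      _ = 5 * N * ρ := by rw [hρ]; ring
  have hReg : ∀ k, Nat.card (Reg4 c N k) = (F.filter fun E => ∑ x, E x = k).card := by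
    intro k
    rw [← Fintype.card_coe, ← Nat.card_eq_fintype_card]
    refine Nat.card_congr (Equiv.subtypeEquivRight fun E => ?_)
    rw [Finset.mem_filter, hF, Fintype.mem_piFinset]
    simp only [Finset.mem_Ico]
  refine ⟨Finset.range (5 * N * ρ + 1), ?_⟩
  have h1 : ∑ k ∈ Finset.range (5 * N * ρ + 1), (Nat.card (Reg4 c N k) : ℝ) * y ^ k =
      ∑ E ∈ F, y ^ (∑ x, E x) := by
    rw [← Finset.sum_fiberwise_of_maps_to (s := F) (t := Finset.range (5 * N * ρ + 1))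
      (g := fun E => ∑ x, E x)
      (fun E hE => Finset.mem_range.2 (by have := hσle E hE; omega))]
    refine Finset.sum_congr rfl fun k _ => ?_
    rw [hReg k, Finset.sum_congr rfl (g := fun _ => y ^ k) (fun E hE => by
      rw [(Finset.mem_filter.1 hE).2]), Finset.sum_const, nsmul_eq_mul]
  rw [h1]
  have h2 : ∀ E ∈ F, (1 / 8 : ℝ) ^ (5 * ρ) ≤ y ^ (∑ x, E x) := by
    intro E hE
    calc (1 / 8 : ℝ) ^ (5 * ρ) ≤ (y ^ N) ^ (5 * ρ) :=
          pow_le_pow_left₀ (by norm_num) (pow_lower N hN) _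
      _ = y ^ (5 * N * ρ) := by rw [← pow_mul]; congr 1; ring
      _ ≤ y ^ (∑ x, E x) := pow_le_pow_of_le_one hy0 hy1 (hσle E hE)
  calc (1 / 8 : ℝ) ^ (5 * ρ) * (N : ℝ) ^ ρ = F.card • (1 / 8 : ℝ) ^ (5 * ρ) := by
        rw [hFcard, nsmul_eq_mul]; push_cast; ring
    _ ≤ ∑ E ∈ F, y ^ (∑ x, E x) := Finset.card_nsmul_le_sum _ _ _ h2

lemma exists_root_field (F : Type) [Field F] [Finite F] (ℓ : ℕ) (hℓ : ℓ.Prime)
    (κ c : ℕ) (hdvd : ℓ ^ (κ + c) ∣ Nat.card F - 1) :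
    ∃ u : Fˣ, u ^ (ℓ ^ (κ + c)) = 1 ∧ Sep (u ^ (ℓ ^ κ)) (ℓ ^ c) := by
  obtain ⟨g, hg⟩ := IsCyclic.exists_ofOrder_eq_natCard (α := Fˣ)
  have hcard : Nat.card Fˣ = Nat.card F - 1 := Nat.card_units F
  obtain ⟨m, hm⟩ := hdvd
  have hpos : 0 < Nat.card F - 1 := by
    have : 1 < Nat.card F := Finite.one_lt_card
    omega
  have hm0 : m ≠ 0 := by rintro rfl; simp at hm; omega
  have hord : orderOf (g ^ m) = ℓ ^ (κ + c) := by
    rw [orderOf_pow' g hm0, hg, hcard, hm, Nat.gcd_eq_right (Dvd.intro_left _ rfl)]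
    exact Nat.mul_div_cancel _ (Nat.pos_of_ne_zero hm0)
  refine ⟨g ^ m, ?_, ?_⟩
  · rw [← hord, pow_orderOf_eq_one]
  · intro j hj0 hj
    rw [← pow_mul]
    apply IsUnit.mk0
    intro h0
    rw [sub_eq_zero] at h0
    have h3 : (g ^ m) ^ (ℓ ^ κ * j) = 1 := Units.ext h0
    have h4 := orderOf_dvd_of_pow_eq_one h3
    rw [hord, pow_add] at h4
    have h5 : ℓ ^ c ∣ j := Nat.dvd_of_mul_dvd_mul_left (pow_pos hℓ.pos _) h4
    exact absurd (Nat.le_of_dvd hj0 h5) (not_le.2 hj)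

lemma Sep.mono {R : Type} [CommRing R] {u : Rˣ} {W W' : ℕ} (h : Sep u W) (hW : W' ≤ W) :
    Sep u W' := fun j hj0 hj => h j hj0 (lt_of_lt_of_le hj hW)

end Four

end GradedTop
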