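import Pool.Agent.Lib.GradedFour.LieDef

/-!
# Spanning: left-normed brackets with a prescribed first letter
-/

namespace GradedTop

namespace Four

open Submodule

section

variable {R : Type} [CommRing R] {d : ℕ}

lemma lnb_cons (x : Fin d) (v : List (Fin d)) (hv : v ≠ []) :
    lnb R (x :: v) = ⁅lnb R v, FreeLieAlgebra.of R x⁆ := by
  cases v with
  | nil => exact absurd rfl hv
  | cons y v => rfl

lemma cf_cons (x : Fin d) (v w : List (Fin d)) (hv : v ≠ []) :
    cf w (x :: v) = (if w.getLast? = some x then cf w.dropLast v else 0) -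
      (if w.head? = some x then cf w.tail v else 0) := by
  cases v with
  | nil => exact absurd rfl hv
  | cons y v => rfl

variable (R) in
/-- left-normed brackets of rearrangements of `u` with first letter `r` -/
noncomputable def RS (r : Fin d) (u : List (Fin d)) : Submodule R (FreeLieAlgebra R (Fin d)) :=
  span R {z | ∃ u', (u' ++ [r]).Perm u ∧ z = lnb R (u' ++ [r])}

lemma RS_cons (r x : Fin d) (u : List (Fin d)) (z : FreeLieAlgebra R (Fin d)) (hz : z ∈ RS R r u) :
    ⁅z, FreeLieAlgebra.of R x⁆ ∈ RS R r (x :: u) := by
  have h : RS R r u ≤ (RS R r (x :: u)).comap (brk x) := by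
    rw [RS, span_le]
    rintro _ ⟨u', hu', rfl⟩
    refine subset_span ⟨x :: u', ?_, ?_⟩
    · rw [List.cons_append]; exact hu'.cons x
    · rw [List.cons_append, lnb_cons _ _ (by simp)]; rfl
  exact h hz

lemma jac {A : Type} [LieRing A] (a b c : A) : ⁅a, ⁅b, c⁆⁆ = ⁅⁅a, b⁆, c⁆ - ⁅⁅a, c⁆, b⁆ := by
  rw [leibniz_lie, ← lie_skew ⁅a, c⁆ b]
  abel

lemma RS_lie (r : Fin d) : ∀ (t s : List (Fin d)), t ≠ [] →
    ⁅lnb R (s ++ [r]), lnb R t⁆ ∈ RS R r (t ++ (s ++ [r]))
  | [], _, h => absurd rfl h
  | [y], s, _ => by
    refine subset_span ⟨y :: s, by simp, ?_⟩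
    rw [List.cons_append, lnb_cons y (s ++ [r]) (by simp)]; rfl
  | y :: y' :: t, s, _ => by
    rw [lnb_cons y (y' :: t) (by simp), jac]
    refine Submodule.sub_mem _ ?_ ?_
    · exact RS_cons r y _ _ (RS_lie r (y' :: t) s (by simp))
    · have h := RS_lie r (y' :: t) (y :: s) (by simp)
      have h0 : y :: s ++ [r] = y :: (s ++ [r]) := rfl
      rw [h0, lnb_cons y (s ++ [r]) (by simp)] at h
      have h2 : RS R r (y' :: t ++ y :: (s ++ [r])) = RS R r (y :: y' :: t ++ (s ++ [r])) := by
        have hp : (y' :: t ++ y :: (s ++ [r])).Perm (y :: y' :: t ++ (s ++ [r])) := by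
          exact List.perm_middle
        unfold RS
        congr 1
        ext z
        constructor
        · rintro ⟨u', h1, h2⟩; exact ⟨u', h1.trans hp, h2⟩
        · rintro ⟨u', h1, h2⟩; exact ⟨u', h1.trans hp.symm, h2⟩
      rw [← h2]; exact h

/-- every left-normed bracket is a combination of those starting with a given letter -/
lemma lnb_mem_RS (r : Fin d) : ∀ (u : List (Fin d)), r ∈ u → lnb R u ∈ RS R r u
  | [], h => by simp at h
  | [x], h => by
    rw [List.mem_singleton] at h
    subst h
    exact subset_span ⟨[], by simp, rfl⟩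
  | x :: y :: u, h => by
    rw [lnb_cons x (y :: u) (by simp)]
    by_cases hr : r ∈ y :: u
    · exact RS_cons r x _ _ (lnb_mem_RS r (y :: u) hr)
    · have hx : r = x := by
        rcases List.mem_cons.1 h with h | h
        · exact h
        · exact absurd h hr
      subst hx
      rw [← lie_skew]
      refine Submodule.neg_mem _ ?_
      have h1 := RS_lie (R := R) r (y :: u) [] (by simp)
      have h2 : RS R r (y :: u ++ ([] ++ [r])) = RS R r (r :: y :: u) := by
        have hp : (y :: u ++ ([] ++ [r])).Perm (r :: y :: u) := by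
          simpa using List.perm_append_singleton r (y :: u)
        unfold RS
        congr 1
        ext z
        constructor
        · rintro ⟨u', h1, h2⟩; exact ⟨u', h1.trans hp, h2⟩
        · rintro ⟨u', h1, h2⟩; exact ⟨u', h1.trans hp.symm, h2⟩
      rw [← h2]; exact h1

/-- dual words -/
lemma cf_root (r : Fin d) : ∀ (u w : List (Fin d)), r ∉ u →
    cf (r :: w) (u ++ [r]) = if w = u.reverse then 1 else 0
  | [], w, _ => by
    change (if r :: w = [r] then (1 : ℤ) else 0) = _
    by_cases hw : w = []
    · subst hw; simp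
    · rw [if_neg (by simpa using hw), if_neg (by simpa using hw)]
  | x :: u, w, h => by
    have hx : r ≠ x := fun h' => h (by simp [h'])
    have hu : r ∉ u := fun h' => h (by simp [h'])
    rw [List.cons_append, cf_cons _ _ _ (by simp)]
    rw [if_neg (c := (r :: w).head? = some x) (by simpa using hx), sub_zero]
    rcases List.eq_nil_or_concat w with rfl | ⟨w', z, rfl⟩
    · rw [if_neg (by simpa using hx), if_neg]
      simp
    · have h1 : (r :: (w' ++ [z])).getLast? = some z := by
        rw [← List.cons_append, List.getLast?_append]; simp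
      have h2 : (r :: (w' ++ [z])).dropLast = r :: w' := by
        rw [← List.cons_append, List.dropLast_concat]
      rw [List.concat_eq_append, h1, h2, cf_root r u w' hu, List.reverse_cons]
      by_cases hz : z = x
      · subst hz
        simp
      · rw [if_neg (by simpa using hz), if_neg]
        intro h3
        have := List.append_inj' h3 (by simp)
        exact hz (by simpa using this.2)

end

end Four

end GradedTop
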