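import Pool.Agent.Lib.GradedFour.Bases

/-!
# The basis elements span the homogeneous components of degree at most four
-/

namespace GradedTop

namespace Four

open Submodule

section

variable {R : Type} [CommRing R] {d : ℕ}

lemma exists_min_single (u : List (Fin d)) (h : ∃ r ∈ u, u.count r = 1) :
    ∃ r ∈ u, u.count r = 1 ∧ ∀ z ∈ u, u.count z = 1 → r ≤ z := by
  classical
  obtain ⟨r, hr, hc⟩ := h
  obtain ⟨s, hs⟩ : ∃ s : Finset (Fin d), ∀ z, z ∈ s ↔ z ∈ u ∧ u.count z = 1 :=
    ⟨u.toFinset.filter fun z => u.count z = 1, by simp⟩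
  have hne : s.Nonempty := ⟨r, (hs r).2 ⟨hr, hc⟩⟩
  have h1 := (hs _).1 (s.min'_mem hne)
  exact ⟨s.min' hne, h1.1, h1.2, fun z hz hz' => s.min'_le z ((hs z).2 ⟨hz, hz'⟩)⟩

lemma comm_id {A : Type} [LieRing A] (a b : A) : ⁅⁅⁅a, b⁆, b⁆, a⁆ = ⁅⁅⁅a, b⁆, a⁆, b⁆ := by
  have h := jac ⁅a, b⁆ b a
  have h2 : ⁅⁅a, b⁆, ⁅b, a⁆⁆ = 0 := by rw [← lie_skew b a, lie_neg, lie_self, neg_zero]
  rw [h2] at h
  exact (sub_eq_zero.1 h.symm)

lemma lnb1 (x : Fin d) : lnb R [x] = FreeLieAlgebra.of R x := rfl
lemma lnb2 (x y : Fin d) : lnb R [x, y] = ⁅FreeLieAlgebra.of R y, FreeLieAlgebra.of R x⁆ := rfl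
lemma lnb3 (x y z : Fin d) : lnb R [x, y, z] =
    ⁅⁅FreeLieAlgebra.of R z, FreeLieAlgebra.of R y⁆, FreeLieAlgebra.of R x⁆ := rfl
lemma lnb4 (x y z t : Fin d) : lnb R [x, y, z, t] =
    ⁅⁅⁅FreeLieAlgebra.of R t, FreeLieAlgebra.of R z⁆, FreeLieAlgebra.of R y⁆,
      FreeLieAlgebra.of R x⁆ := rfl

lemma span_bb3 (x y z : Fin d) : lnb R [x, y, z] ∈ span R (Set.range (bb R (d := d))) := by
  by_cases hs : ∃ r ∈ [x, y, z], [x, y, z].count r = 1
  · obtain ⟨r, hr, hc, hmin⟩ := exists_min_single _ hs
    have h1 := lnb_mem_RS (R := R) r [x, y, z] hr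
    have h2 : RS R r [x, y, z] ≤ span R (Set.range (bb R (d := d))) := by
      rw [RS, span_le]
      rintro _ ⟨u', hp, rfl⟩
      have hl := hp.length_eq
      rw [List.length_append] at hl
      simp only [List.length_cons, List.length_nil] at hl
      obtain ⟨p, q, rfl⟩ : ∃ p q, u' = [p, q] := List.length_eq_two.1 (by omega)
      have hp' : [p, q, r].Perm [x, y, z] := hp
      have c1 : [p, q, r].count r = 1 := by rw [hp'.count_eq]; exact hc
      have hpr : p ≠ r := by
        rintro rfl; simp only [List.count_cons, List.count_nil] at c1; split_ifs at c1 <;> simp_all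
      have hqr : q ≠ r := by
        rintro rfl; simp only [List.count_cons, List.count_nil] at c1; split_ifs at c1 <;> simp_all
      have hm : ∀ t ∈ [p, q, r], [p, q, r].count t = 1 → r ≤ t := by
        intro t ht hct
        exact hmin t (hp'.mem_iff.1 ht) (by rw [← hp'.count_eq]; exact hct)
      change lnb R [p, q, r] ∈ _
      by_cases hpq : p = q
      · subst hpq
        exact subset_span ⟨Sum.inl (Sum.inr (Sum.inr ⟨(r, p), hqr.symm⟩)), rfl⟩
      · have hrp : r < p := lt_of_le_of_ne (hm p (by simp) (by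
          simp [List.count_cons, hpr.symm, Ne.symm hpq])) hpr.symm
        have hrq : r < q := lt_of_le_of_ne (hm q (by simp) (by
          simp [List.count_cons, hqr.symm, hpq])) hqr.symm
        rcases lt_or_gt_of_ne hpq with h3 | h3
        · refine subset_span ⟨Sum.inr (⟨(r, p, q), hrp, h3⟩, 1), ?_⟩
          simp [bb, lt]
        · refine subset_span ⟨Sum.inr (⟨(r, q, p), hrq, h3⟩, 0), ?_⟩
          simp [bb, lt]
    exact h2 h1
  · have h0 : lnb R [x, y, z] = 0 := by
      rw [lnb3]
      by_cases hyz : y = z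
      · subst hyz; rw [lie_self, zero_lie]
      · exfalso
        apply hs
        by_cases hxy : x = y
        · subst hxy
          exact ⟨z, by simp, by simp [List.count_cons, hyz]⟩
        · exact ⟨y, by simp, by simp [List.count_cons, Ne.symm hyz, hxy]⟩
    rw [h0]; exact Submodule.zero_mem _

lemma span_bb2 (x y : Fin d) : lnb R [x, y] ∈ span R (Set.range (bb R (d := d))) := by
  rw [lnb2]
  rcases lt_trichotomy y x with h | h | h
  · exact subset_span ⟨Sum.inl (Sum.inr (Sum.inl ⟨(y, x), h⟩)), rfl⟩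
  · subst h; rw [lie_self]; exact Submodule.zero_mem _
  · rw [← lie_skew]
    exact Submodule.neg_mem _ (subset_span ⟨Sum.inl (Sum.inr (Sum.inl ⟨(x, y), h⟩)), rfl⟩)

lemma span_bb (u : List (Fin d)) (hu : u.length ≤ 3) :
    lnb R u ∈ span R (Set.range (bb R (d := d))) := by
  match u, hu with
  | [], _ => exact Submodule.zero_mem _
  | [x], _ => exact subset_span ⟨Sum.inl (Sum.inl x), rfl⟩
  | [x, y], _ => exact span_bb2 x y
  | [x, y, z], _ => exact span_bb3 x y z
  | _ :: _ :: _ :: _ :: _, h => simp at h; omega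

lemma special_mem (i j : Fin d) (hij : i ≠ j) :
    ⁅⁅⁅FreeLieAlgebra.of R i, FreeLieAlgebra.of R j⁆, FreeLieAlgebra.of R i⁆,
      FreeLieAlgebra.of R j⁆ ∈ span R (Set.range (b4 (d := d) R)) := by
  have key : ∀ i j : Fin d, i < j → ⁅⁅⁅FreeLieAlgebra.of R i, FreeLieAlgebra.of R j⁆,
      FreeLieAlgebra.of R i⁆, FreeLieAlgebra.of R j⁆ ∈ span R (Set.range (b4 (d := d) R)) := by
    intro i j h
    refine subset_span ⟨⟨(j, j, i, i), Or.inr ⟨rfl, rfl, h⟩⟩, ?_⟩
    simp [b4, bw4, lnb4]
  rcases lt_or_gt_of_ne hij with h | h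
  · exact key i j h
  · have h1 := key j i h
    rw [← lie_skew (FreeLieAlgebra.of R j) (FreeLieAlgebra.of R i), neg_lie, neg_lie,
      comm_id] at h1
    exact neg_mem_iff.1 h1

lemma span_b4 (x y z t : Fin d) : lnb R [x, y, z, t] ∈ span R (Set.range (b4 (d := d) R)) := by
  by_cases hs : ∃ r ∈ [x, y, z, t], [x, y, z, t].count r = 1
  · obtain ⟨r, hr, hc, hmin⟩ := exists_min_single _ hs
    have h1 := lnb_mem_RS (R := R) r [x, y, z, t] hr
    have h2 : RS R r [x, y, z, t] ≤ span R (Set.range (b4 (d := d) R)) := by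
      rw [RS, span_le]
      rintro _ ⟨u', hp, rfl⟩
      have hl := hp.length_eq
      rw [List.length_append] at hl
      simp only [List.length_cons, List.length_nil] at hl
      obtain ⟨p, q, s, rfl⟩ : ∃ p q s, u' = [p, q, s] := List.length_eq_three.1 (by omega)
      have hp' : [p, q, s, r].Perm [x, y, z, t] := hp
      have hp2 : [r, s, q, p].Perm [p, q, s, r] := List.reverse_perm [p, q, s, r]
      have hR : RootA r s q p := by
        rw [RootA_iff]
        refine ⟨by rw [hp2.count_eq, hp'.count_eq]; exact hc, ?_⟩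
        intro c hc1 hc2
        rw [hp2.count_eq, hp'.count_eq] at hc2
        exact hmin c (hp'.mem_iff.1 (hp2.mem_iff.1 hc1)) hc2
      refine subset_span ⟨⟨(r, s, q, p), Or.inl hR⟩, ?_⟩
      simp [b4, bw4, lt4, hR.1]
    exact h2 h1
  · rw [lnb4]
    by_cases hzt : z = t
    · subst hzt; rw [lie_self, zero_lie, zero_lie]; exact Submodule.zero_mem _
    · have htz : t ≠ z := Ne.symm hzt
      by_cases h1 : y = t
      · subst h1
        by_cases h2 : x = z
        · subst h2; exact special_mem _ _ htz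
        · exfalso
          apply hs
          refine ⟨z, by simp, ?_⟩
          simp [List.count_cons, h2, htz]
      · by_cases h2 : y = z
        · subst h2
          by_cases h3 : x = t
          · subst h3; rw [comm_id]; exact special_mem _ _ htz
          · exfalso
            apply hs
            refine ⟨t, by simp, ?_⟩
            simp [List.count_cons, h3, hzt]
        · exfalso
          apply hs
          by_cases h3 : x = y
          · subst h3
            exact ⟨z, by simp, by simp [List.count_cons, h2, htz]⟩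
          · exact ⟨y, by simp, by simp [List.count_cons, Ne.symm h1, Ne.symm h2, h3]⟩

end

end Four

end GradedTop
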